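import Pool.Agent.N699.AO.Stm
import Pool.Agent.Helper601.Mertens

set_option autoImplicit false

/-! Project AO (helper699): the Chinese remainder theorem and the product over the primes (`RHOC`, `MERT`),
by helper432. -/

namespace Pool.Agent.N432.AO

open Finset

theorem t_RHOC : Pool.Agent.N699.AO.RHOC := by
  intro D E k _ _ _ h ν
  let φ : ZMod (D * E) ≃+* ZMod D × ZMod E := ZMod.chineseRemainder h
  have key : ∀ a s t : ZMod (D * E),
      (20 * (2 ^ k * a) ^ 2 + 2 * (2 ^ k * a) + s ^ 2 + t ^ 2 + t = (ν : ZMod (D * E))) ↔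
      (20 * (2 ^ k * (φ a).1) ^ 2 + 2 * (2 ^ k * (φ a).1) + (φ s).1 ^ 2 + (φ t).1 ^ 2 + (φ t).1 =
        (ν : ZMod D)) ∧
      (20 * (2 ^ k * (φ a).2) ^ 2 + 2 * (2 ^ k * (φ a).2) + (φ s).2 ^ 2 + (φ t).2 ^ 2 + (φ t).2 =
        (ν : ZMod E)) := by
    intro a s t
    rw [← φ.injective.eq_iff]
    simp only [map_add, map_mul, map_pow, map_ofNat, map_intCast]
    rw [Prod.ext_iff]
    simp
  unfold Pool.Agent.N699.AO.rho
  rw [← Finset.card_product]
  refine Finset.card_bij'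
    (fun p _ => (((φ p.1).1, (φ p.2.1).1, (φ p.2.2).1), ((φ p.1).2, (φ p.2.1).2, (φ p.2.2).2)))
    (fun q _ => (φ.symm (q.1.1, q.2.1), φ.symm (q.1.2.1, q.2.2.1), φ.symm (q.1.2.2, q.2.2.2)))
    ?_ ?_ ?_ ?_
  · intro p hp
    rw [mem_filter] at hp
    rw [mem_product, mem_filter, mem_filter]
    have := (key p.1 p.2.1 p.2.2).1 hp.2
    exact ⟨⟨mem_univ _, this.1⟩, mem_univ _, this.2⟩
  · intro q hq
    rw [mem_product, mem_filter, mem_filter] at hq
    rw [mem_filter]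
    refine ⟨mem_univ _, (key _ _ _).2 ?_⟩
    simp only [RingEquiv.apply_symm_apply]
    exact ⟨hq.1.2, hq.2.2⟩
  · intro p _
    simp
  · intro q _
    simp

/-- the factor at `p` -/
theorem factor_lower {u : ℝ} (hu0 : 0 ≤ u) (hu : u ≤ 1 / 5) :
    Real.exp (-(5 * u + 100 * u ^ 2)) ≤ 1 - 5 * u + 2 * u ^ 2 := by
  have hy : 0 ≤ 5 * u + 100 * u ^ 2 := by positivity
  have h1 := Real.quadratic_le_exp_of_nonneg hy
  rw [Real.exp_neg]
  have h2 : 0 < Real.exp (5 * u + 100 * u ^ 2) := Real.exp_pos _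
  rw [inv_le_comm₀ h2 (by nlinarith)]
  refine le_trans ?_ h1
  have h3 : 0 < 1 - 5 * u + 2 * u ^ 2 ∨ u = 1 / 5 := by
    rcases hu.lt_or_eq with h | h
    · left; nlinarith
    · right; exact h
  have h4 : 0 < 1 - 5 * u + 2 * u ^ 2 := by
    rcases h3 with h | h
    · exact h
    · rw [h]; norm_num
  rw [inv_le_iff_one_le_mul₀ h4]
  have h5 : (1 - 5 * u + 2 * u ^ 2) * (1 + (5 * u + 100 * u ^ 2) + (5 * u + 100 * u ^ 2) ^ 2 / 2) =
      1 + u ^ 2 * (89.5 - 52.5 * u + 2725 * u ^ 2 - 24000 * u ^ 3 + 10000 * u ^ 4) := by ring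
  have h6 : 0 ≤ 89.5 - 52.5 * u + 2725 * u ^ 2 - 24000 * u ^ 3 + 10000 * u ^ 4 := by
    nlinarith [mul_nonneg hu0 (sub_nonneg.2 hu), mul_nonneg (mul_nonneg hu0 hu0) (sub_nonneg.2 hu),
      sq_nonneg (u - 1 / 5), sq_nonneg (u ^ 2 - u / 5), sq_nonneg (u ^ 2 - 1 / 25)]
  have h7 := mul_nonneg (sq_nonneg u) h6
  rw [mul_comm, h5]
  linarith

theorem t_MERT : Pool.Agent.N699.AO.MERT := by
  obtain ⟨C, hC⟩ := Pool.Agent.Helper601.Mertens.mertens_inv
  set c1 : ℝ := Real.exp (-(5 * C + 100)) with hc1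
  have hc10 : 0 < c1 := Real.exp_pos _
  refine ⟨min c1 (1 / 10), by positivity, ?_⟩
  intro Q0 hQ0
  rcases Nat.lt_or_ge Q0 3 with h3 | h3
  · -- `Q0 = 2`
    have hQ : Q0 = 2 := by omega
    subst hQ
    have h1 : (Icc 5 2).filter Nat.Prime = ∅ := by
      rw [Finset.Icc_eq_empty (by norm_num), Finset.filter_empty]
    rw [h1, prod_empty]
    have h2 : (0.69 : ℝ) ≤ Real.log (2 : ℕ) := by
      have := Real.log_two_gt_d9
      push_cast
      linarith
    have h4 : (1 / 10 : ℝ) ≤ Real.log (2 : ℕ) ^ 5 := by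
      calc (1 / 10 : ℝ) ≤ 0.69 ^ 5 := by norm_num
        _ ≤ _ := pow_le_pow_left₀ (by norm_num) h2 5
    have h5 : 0 < Real.log ((2 : ℕ) : ℝ) ^ 5 := lt_of_lt_of_le (by norm_num) h4
    exact (div_le_one h5).2 ((min_le_right _ _).trans h4)
  · have hl : 0 < Real.log (Q0 : ℝ) := Real.log_pos (by exact_mod_cast (by omega : 1 < Q0))
    have hsub : (Icc 5 Q0).filter Nat.Prime ⊆ (Icc 1 Q0).filter Nat.Prime := by
      apply Finset.filter_subset_filter
      apply Finset.Icc_subset_Icc (by norm_num) le_rfl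
    have h1 : ∑ p ∈ (Icc 5 Q0).filter Nat.Prime, (1 : ℝ) / p ≤ Real.log (Real.log Q0) + C := by
      have h2 := (abs_le.1 (hC Q0 h3)).2
      have h4 : ∑ p ∈ (Icc 5 Q0).filter Nat.Prime, (1 : ℝ) / p ≤
          ∑ p ∈ (Icc 1 Q0).filter Nat.Prime, (1 : ℝ) / p :=
        Finset.sum_le_sum_of_subset_of_nonneg hsub fun p _ _ => by positivity
      linarith
    have h2 : ∑ p ∈ (Icc 5 Q0).filter Nat.Prime, ((p : ℝ) ^ 2)⁻¹ ≤ 1 := by
      have h4 : ∑ p ∈ (Icc 5 Q0).filter Nat.Prime, ((p : ℝ) ^ 2)⁻¹ ≤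
          ∑ p ∈ Ioc 1 Q0, ((p : ℝ) ^ 2)⁻¹ := by
        apply Finset.sum_le_sum_of_subset_of_nonneg
        · intro p hp
          rw [mem_filter, mem_Icc] at hp
          rw [mem_Ioc]
          omega
        · intro p _ _
          positivity
      have h5 := sum_Ioc_inv_sq_le_sub (α := ℝ) (k := 1) (n := Q0) one_ne_zero (by omega)
      have h6 : (0 : ℝ) ≤ (Q0 : ℝ)⁻¹ := by positivity
      norm_num at h5
      linarith
    have h4 : Real.exp (-(5 * ∑ p ∈ (Icc 5 Q0).filter Nat.Prime, (1 : ℝ) / p +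
        100 * ∑ p ∈ (Icc 5 Q0).filter Nat.Prime, ((p : ℝ) ^ 2)⁻¹)) ≤
        ∏ p ∈ (Icc 5 Q0).filter Nat.Prime, (1 - 5 / (p : ℝ) + 2 / (p : ℝ) ^ 2) := by
      rw [Finset.mul_sum, Finset.mul_sum, ← Finset.sum_add_distrib, ← Finset.sum_neg_distrib,
        Real.exp_sum]
      apply Finset.prod_le_prod
      · intro p _
        exact (Real.exp_pos _).le
      · intro p hp
        rw [mem_filter, mem_Icc] at hp
        have hp5 : (5 : ℝ) ≤ p := by exact_mod_cast hp.1.1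
        have h5 := factor_lower (u := 1 / (p : ℝ)) (by positivity)
          (by apply one_div_le_one_div_of_le <;> linarith)
        have e1 : -(5 * (1 / (p : ℝ)) + 100 * (1 / (p : ℝ)) ^ 2) =
            -(5 * (1 / (p : ℝ)) + 100 * ((p : ℝ) ^ 2)⁻¹) := by
          rw [one_div, inv_pow]
        have e2 : 1 - 5 * (1 / (p : ℝ)) + 2 * (1 / (p : ℝ)) ^ 2 =
            1 - 5 / (p : ℝ) + 2 / (p : ℝ) ^ 2 := by
          field_simp
        rw [e1, e2] at h5
        exact h5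
    refine le_trans ?_ h4
    have h5 : min c1 (1 / 10) / Real.log Q0 ^ 5 ≤ c1 / Real.log Q0 ^ 5 :=
      div_le_div_of_nonneg_right (min_le_left _ _) (by positivity)
    refine h5.trans ?_
    have h6 : c1 / Real.log Q0 ^ 5 = Real.exp (-(5 * (Real.log (Real.log Q0) + C) + 100)) := by
      have e1 : -(5 * (Real.log (Real.log Q0) + C) + 100) =
          -(5 * C + 100) + -((5 : ℕ) * Real.log (Real.log Q0)) := by push_cast; ring
      rw [e1, Real.exp_add, Real.exp_neg ((5 : ℕ) * Real.log (Real.log Q0)), Real.exp_nat_mul,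
        Real.exp_log hl, ← hc1, div_eq_mul_inv]
    rw [h6]
    apply Real.exp_le_exp.2
    linarith

end Pool.Agent.N432.AO
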