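import Mathlib
import Pool.Agent.Helper450.Kneser

/-!
Signed sumsets in cyclic groups and Kneser's theorem.
-/

set_option autoImplicit false

open scoped Pointwise
open Finset

namespace Pool.Agent.N432.SignedCrit

open Pool.Agent.Helper450.Kneser

section General

variable {G : Type*} [AddCommGroup G] [Fintype G] [DecidableEq G]

/-- iterated sumset -/
def sm (B : Finset G) : ℕ → Finset G
  | 0 => {0}
  | n + 1 => sm B n + B

theorem sm_one (B : Finset G) : sm B 1 = B := by
  show ({0} : Finset G) + B = B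
  rw [Finset.singleton_zero, zero_add]

theorem sm_add (B : Finset G) (a b : ℕ) : sm B (a + b) = sm B a + sm B b := by
  induction b with
  | zero =>
    show sm B a = sm B a + {0}
    rw [Finset.singleton_zero, add_zero]
  | succ b ih => rw [← add_assoc, sm, ih, sm, add_assoc]

theorem sm_nonempty {B : Finset G} (hB : B.Nonempty) (s : ℕ) : (sm B s).Nonempty := by
  induction s with
  | zero => exact ⟨0, by simp [sm]⟩
  | succ s ih => exact ih.add hB

theorem fs_add_fs (H : AddSubgroup G) : fs H + fs H = fs H := by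
  apply add_fs_stab
  intro g hg x
  rw [mem_fs, mem_fs]
  exact ⟨fun hx => H.add_mem hx hg, fun hx => by
    have := H.sub_mem hx hg
    rwa [add_sub_cancel_right] at this⟩

theorem stab_le_add (X Y : Finset G) : stab X ≤ stab (X + Y) := by
  intro g hg
  apply mem_stab_of_forall
  intro x hx
  obtain ⟨a, ha, b, hb, rfl⟩ := Finset.mem_add.mp hx
  have := Finset.add_mem_add (stab_add hg ha) hb
  rwa [add_right_comm] at this

theorem le_stab_add_fs (X : Finset G) (H : AddSubgroup G) : H ≤ stab (X + fs H) := by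
  intro g hg
  apply mem_stab_of_forall
  intro x hx
  obtain ⟨a, ha, b, hb, rfl⟩ := Finset.mem_add.mp hx
  rw [add_assoc]
  exact Finset.add_mem_add ha (mem_fs.2 (H.add_mem (mem_fs.1 hb) hg))

/-- Kneser's theorem for an iterated sumset. -/
theorem sm_kneser {B : Finset G} (hB : B.Nonempty) {s : ℕ} (hs : 1 ≤ s) :
    s * (B + fs (stab (sm B s))).card
      ≤ (sm B s).card + (s - 1) * (fs (stab (sm B s))).card := by
  set H := stab (sm B s) with hH
  have hper : sm B s + fs H = sm B s := add_fs_stab _ _ le_rfl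
  have hst : ∀ j, j ≤ s → stab (sm B j + fs H) = H := by
    intro j hj
    apply le_antisymm
    · have h1 : (sm B j + fs H) + sm B (s - j) = sm B s := by
        rw [add_right_comm, ← sm_add, show j + (s - j) = s by omega, hper]
      have h2 := stab_le_add (sm B j + fs H) (sm B (s - j))
      rwa [h1] at h2
    · exact le_stab_add_fs _ _
  have key : ∀ j, 1 ≤ j → j ≤ s →
      j * (B + fs H).card ≤ (sm B j + fs H).card + (j - 1) * (fs H).card := by
    intro j hj
    induction j, hj using Nat.le_induction with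
    | base => intro _; simp [sm_one]
    | succ j hj ih =>
      intro hjs
      have h1 := ih (by omega)
      have hsum : (sm B j + fs H) + (B + fs H) = sm B (j + 1) + fs H := by
        rw [add_add_add_comm, fs_add_fs]
        rfl
      have h2 := kneser (sm B j + fs H) (B + fs H) ((sm_nonempty hB j).add (fs_nonempty H))
        (hB.add (fs_nonempty H))
      rw [hsum, hst (j + 1) hjs] at h2
      obtain ⟨i, rfl⟩ : ∃ i, j = i + 1 := ⟨j - 1, by omega⟩
      simp only [Nat.add_sub_cancel] at h1 ⊢
      nlinarith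
  have := key s hs le_rfl
  rwa [hper] at this

/-- A set invariant under a subgroup has cardinality divisible by the order of the subgroup. -/
theorem card_dvd (H : AddSubgroup G) (C : Finset G) (hC : ∀ x ∈ C, ∀ h ∈ H, x + h ∈ C) :
    (fs H).card ∣ C.card := by
  classical
  let f : G → G ⧸ H := fun x => (x : G ⧸ H)
  have h1 : C.card = ∑ q ∈ C.image f, (C.filter (fun x => f x = q)).card :=
    Finset.card_eq_sum_card_image f C
  rw [h1]
  apply Finset.dvd_sum
  intro q hq
  obtain ⟨c, hc, rfl⟩ := Finset.mem_image.1 hq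
  have : C.filter (fun x => f x = f c) = (fs H).image (fun h => c + h) := by
    ext x
    simp only [mem_filter, mem_image, mem_fs, f]
    constructor
    · rintro ⟨hx, hxc⟩
      refine ⟨-c + x, ?_, by abel⟩
      exact QuotientAddGroup.eq.1 hxc.symm
    · rintro ⟨h, hh, rfl⟩
      refine ⟨hC c hc h hh, ?_⟩
      rw [QuotientAddGroup.eq]
      have : -(c + h) + c = -h := by abel
      rw [this]
      exact H.neg_mem hh
  rw [this, Finset.card_image_of_injective _ (add_right_injective c)]

theorem card_add_le (C : Finset G) (hC : C ≠ univ) :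
    C.card + (fs (stab C)).card ≤ Fintype.card G := by
  classical
  obtain ⟨x, hx⟩ : ∃ x, x ∉ C := by
    by_contra h
    push Not at h
    exact hC (Finset.eq_univ_iff_forall.2 h)
  have hdisj : Disjoint C ((fs (stab C)).image (fun h => x + h)) := by
    rw [Finset.disjoint_left]
    intro y hy hy'
    obtain ⟨h, hh, rfl⟩ := Finset.mem_image.1 hy'
    exact hx ((mem_stab.1 (mem_fs.1 hh) x).2 hy)
  have : (C ∪ (fs (stab C)).image (fun h => x + h)).card ≤ Fintype.card G :=
    Finset.card_le_univ _
  rwa [Finset.card_union_of_disjoint hdisj,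
    Finset.card_image_of_injective _ (add_right_injective x)] at this

/-- The elements that are signed combinations of elements of `A` with coefficients of total
absolute value at most `s`. -/
def Reach (A : Finset G) (s : ℕ) (x : G) : Prop :=
  ∃ l : G → ℤ, ∑ a ∈ A, |l a| ≤ s ∧ ∑ a ∈ A, l a • a = x

theorem reach_zero (A : Finset G) (s : ℕ) : Reach A s 0 := ⟨0, by simp, by simp⟩

theorem reach_mono {A : Finset G} {s t : ℕ} (h : s ≤ t) {x : G} (hx : Reach A s x) :
    Reach A t x := by
  obtain ⟨l, h1, h2⟩ := hx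
  exact ⟨l, h1.trans (by exact_mod_cast h), h2⟩

theorem reach_neg {A : Finset G} {s : ℕ} {x : G} (hx : Reach A s x) : Reach A s (-x) := by
  obtain ⟨l, h1, h2⟩ := hx
  refine ⟨-l, by simpa using h1, ?_⟩
  simp only [Pi.neg_apply, neg_smul, Finset.sum_neg_distrib, h2]

theorem reach_add {A : Finset G} {s : ℕ} {x b : G} (hx : Reach A s x) (hb : b ∈ A) :
    Reach A (s + 1) (x + b) := by
  obtain ⟨l, h1, h2⟩ := hx
  refine ⟨fun a => l a + if a = b then 1 else 0, ?_, ?_⟩
  · calc ∑ a ∈ A, |l a + if a = b then 1 else 0|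
        ≤ ∑ a ∈ A, (|l a| + if a = b then 1 else 0) := by
          refine Finset.sum_le_sum fun a _ => (abs_add_le _ _).trans ?_
          split_ifs <;> simp
      _ = ∑ a ∈ A, |l a| + 1 := by
          rw [Finset.sum_add_distrib, Finset.sum_ite_eq' A b, if_pos hb]
      _ ≤ ((s + 1 : ℕ) : ℤ) := by push_cast; linarith
  · calc ∑ a ∈ A, (l a + if a = b then 1 else 0) • a
        = ∑ a ∈ A, (l a • a + if a = b then a else 0) := by
          refine Finset.sum_congr rfl fun a _ => ?_
          rw [add_smul]
          split_ifs <;> simp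
      _ = x + b := by
          rw [Finset.sum_add_distrib, h2, Finset.sum_ite_eq' A b, if_pos hb]

/-- the symmetric closure with zero -/
def clo (A : Finset G) : Finset G := (A ∪ A.image (fun x => -x)) ∪ {0}

theorem sub_clo (A : Finset G) : A ⊆ clo A := fun x hx =>
  mem_union_left _ (mem_union_left _ hx)

theorem zero_mem_clo (A : Finset G) : (0 : G) ∈ clo A := mem_union_right _ (mem_singleton_self 0)

theorem neg_mem_clo {A : Finset G} {x : G} (hx : x ∈ clo A) : -x ∈ clo A := by
  unfold clo at *
  simp only [mem_union, mem_image, mem_singleton] at *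
  rcases hx with (hx | ⟨y, hy, rfl⟩) | rfl
  · exact Or.inl (Or.inr ⟨x, hx, rfl⟩)
  · exact Or.inl (Or.inl (by simpa using hy))
  · exact Or.inr (by simp)

theorem reach_of_sm {A : Finset G} {s : ℕ} {x : G} (hx : x ∈ sm (clo A) s) : Reach A s x := by
  induction s generalizing x with
  | zero =>
    simp only [sm, mem_singleton] at hx
    subst hx
    exact reach_zero A 0
  | succ s ih =>
    rw [sm] at hx
    obtain ⟨y, hy, b, hb, rfl⟩ := Finset.mem_add.1 hx
    have hy' := ih hy
    unfold clo at hb
    simp only [mem_union, mem_image, mem_singleton] at hb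
    rcases hb with (hb | ⟨c, hc, rfl⟩) | rfl
    · exact reach_add hy' hb
    · have := reach_neg (reach_add (reach_neg hy') hc)
      have e : -(-y + c) = y + -c := by abel
      rwa [e] at this
    · rw [add_zero]
      exact reach_mono (by omega) hy'

end General

/-- in a cyclic group of odd order a symmetric set containing `0` has odd cardinality -/
theorem odd_card {n : ℕ} [NeZero n] (hn : Odd n) (C : Finset (ZMod n)) (h0 : (0 : ZMod n) ∈ C)
    (hs : ∀ x ∈ C, -x ∈ C) : Odd C.card := by
  classical
  have hne : ∀ x : ZMod n, x ≠ 0 → -x ≠ x := by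
    intro x hx h
    have h2 : (2 : ZMod n) * x = 0 := by
      rw [two_mul]
      nth_rw 1 [← h]
      simp
    have hu : IsUnit (2 : ZMod n) := by
      have : IsUnit ((2 : ℕ) : ZMod n) := by
        rw [ZMod.isUnit_iff_coprime]
        exact (Nat.coprime_two_left).2 hn
      simpa using this
    rcases hu with ⟨u, hu⟩
    rw [← hu] at h2
    exact hx ((Units.mul_right_eq_zero u).1 h2)
  have hsum : ∑ x ∈ C.erase 0, (1 : ZMod 2) = 0 := by
    refine Finset.sum_involution (fun x _ => -x) ?_ ?_ ?_ ?_
    · intro x hx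
      decide
    · intro x hx _
      exact hne x (Finset.ne_of_mem_erase hx)
    · intro x hx
      rw [Finset.mem_erase] at hx ⊢
      exact ⟨neg_ne_zero.2 hx.1, hs x hx.2⟩
    · intro x hx
      simp
  rw [Finset.sum_const, nsmul_eq_mul, mul_one, ZMod.natCast_eq_zero_iff_even] at hsum
  rw [Finset.card_erase_of_mem h0] at hsum
  have hpos : 0 < C.card := Finset.card_pos.2 ⟨0, h0⟩
  rcases Nat.even_or_odd C.card with h | h
  · exfalso
    obtain ⟨a, ha⟩ := h
    obtain ⟨b, hb⟩ := hsum
    omega
  · exact h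

/-- the value attached to the divisor `d` -/
def val (n s d : ℕ) : ℤ := (2 * (((d : ℤ) - 2) / (2 * s)) + 1) * ((n / d : ℕ) : ℤ)

/-- The upper bound: a set whose signed combinations do not cover `ZMod n` is not larger than the
value of some divisor. -/
theorem upper {n s : ℕ} [NeZero n] (hs : 1 ≤ s) (A : Finset (ZMod n)) {x : ZMod n}
    (hx : ¬ Reach A s x) : ∃ d, d ∣ n ∧ (A.card : ℤ) ≤ val n s d := by
  classical
  have hn : 0 < n := Nat.pos_of_ne_zero (NeZero.ne n)
  set B := clo A with hB
  have hB0 : B.Nonempty := ⟨0, zero_mem_clo A⟩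
  have hne : sm B s ≠ univ := fun h => hx (reach_of_sm (by rw [← hB, h]; exact mem_univ x))
  set H := stab (sm B s) with hH
  have hk := sm_kneser hB0 hs
  rw [← hH] at hk
  have hc := card_add_le (sm B s) hne
  rw [← hH, ZMod.card] at hc
  have he : 0 < (fs H).card := fs_card_pos H
  obtain ⟨d, hd⟩ : (fs H).card ∣ n := by
    have := card_dvd H (univ : Finset (ZMod n)) (fun _ _ _ _ => mem_univ _)
    rwa [Finset.card_univ, ZMod.card] at this
  have hper : ∀ x ∈ B + fs H, ∀ h ∈ H, x + h ∈ B + fs H := by
    intro x hx h hh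
    exact stab_add (le_stab_add_fs B H hh) hx
  obtain ⟨b, hb⟩ := card_dvd H (B + fs H) hper
  set e := (fs H).card with hedef
  have hmain : s * b + 2 ≤ d + s := by
    rw [hb] at hk
    obtain ⟨r, rfl⟩ : ∃ r, s = r + 1 := ⟨s - 1, by omega⟩
    simp only [Nat.add_sub_cancel] at hk
    have h1 : e * ((r + 1) * b + 2) ≤ e * (d + (r + 1)) := by nlinarith
    exact Nat.le_of_mul_le_mul_left h1 he
  have hAB : A.card ≤ e * b := by
    rw [← hb]
    refine Finset.card_le_card ((sub_clo A).trans ?_)
    intro y hy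
    have := Finset.add_mem_add hy (mem_fs.2 H.zero_mem)
    rwa [add_zero] at this
  have hb1 : 1 ≤ b := by
    have : 0 < (B + fs H).card := Finset.card_pos.2 (hB0.add (fs_nonempty H))
    rw [hb] at this
    exact Nat.pos_of_mul_pos_left this
  rcases Nat.even_or_odd n with hev | hodd
  · rcases Nat.lt_or_ge s 2 with h2 | h2
    · -- s = 1
      obtain rfl : s = 1 := by omega
      refine ⟨n, dvd_rfl, ?_⟩
      have h3 : A.card ≤ n - 1 := by
        rw [sm_one] at hc
        have := Finset.card_le_card (sub_clo A)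
        rw [← hB] at this
        omega
      unfold val
      rw [Nat.div_self hn]
      obtain ⟨t, ht⟩ := hev
      subst ht
      push_cast
      omega
    · refine ⟨2, hev.two_dvd, ?_⟩
      have h3 : 2 * b ≤ d := by
        obtain ⟨c, rfl⟩ : ∃ c, b = c + 1 := ⟨b - 1, by omega⟩
        obtain ⟨r, rfl⟩ : ∃ r, s = r + 2 := ⟨s - 2, by omega⟩
        nlinarith [Nat.zero_le (r * c)]
      have h4 : 2 * A.card ≤ n := by
        calc 2 * A.card ≤ 2 * (e * b) := by omega
          _ = e * (2 * b) := by ring
          _ ≤ e * d := Nat.mul_le_mul_left _ h3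
          _ = n := hd.symm
      unfold val
      have h5 : (((2 : ℕ) : ℤ) - 2) / (2 * (s : ℤ)) = 0 := by simp
      rw [h5]
      omega
  · have hoddC : Odd (B + fs H).card := by
      refine odd_card hodd _ ?_ ?_
      · have := Finset.add_mem_add (zero_mem_clo A) (mem_fs.2 H.zero_mem)
        rwa [add_zero] at this
      · intro y hy
        obtain ⟨p, hp, q, hq, rfl⟩ := Finset.mem_add.1 hy
        rw [neg_add]
        exact Finset.add_mem_add (neg_mem_clo hp) (mem_fs.2 (H.neg_mem (mem_fs.1 hq)))
    rw [hb] at hoddC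
    have hbodd : Odd b := (Nat.odd_mul.1 hoddC).2
    obtain ⟨j, rfl⟩ := hbodd
    have hd0 : 0 < d := by
      rcases Nat.eq_zero_or_pos d with h | h
      · subst h; simp at hd; omega
      · exact h
    refine ⟨d, ⟨e, by rw [hd, mul_comm]⟩, ?_⟩
    have hj : 2 * s * j + 2 ≤ d := by nlinarith
    have hdiv : (j : ℤ) ≤ ((d : ℤ) - 2) / (2 * s) := by
      rw [Int.le_ediv_iff_mul_le (by positivity)]
      have : ((2 * s * j + 2 : ℕ) : ℤ) ≤ (d : ℤ) := by exact_mod_cast hj
      push_cast at this
      linarith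
    have hnd : n / d = e := by
      rw [hd]
      exact Nat.mul_div_cancel _ hd0
    unfold val
    rw [hnd]
    calc (A.card : ℤ) ≤ ((e * (2 * j + 1) : ℕ) : ℤ) := by exact_mod_cast hAB
      _ = (2 * (j : ℤ) + 1) * e := by push_cast; ring
      _ ≤ (2 * (((d : ℤ) - 2) / (2 * s)) + 1) * e := by
          refine mul_le_mul_of_nonneg_right ?_ (by positivity)
          linarith

/-- The lower bound. -/
theorem lower {n s d : ℕ} [NeZero n] (hs : 1 ≤ s) (hdn : d ∣ n) (hv : 0 ≤ val n s d) :
    ∃ A : Finset (ZMod n), (A.card : ℤ) = val n s d ∧ ∃ x, ¬ Reach A s x := by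
  classical
  have hn : 0 < n := Nat.pos_of_ne_zero (NeZero.ne n)
  have hd0 : 0 < d := Nat.pos_of_dvd_of_pos hdn hn
  obtain ⟨e, he⟩ := hdn
  have hnd : n / d = e := by rw [he]; exact Nat.mul_div_cancel_left _ hd0
  have he0 : 0 < e := by
    rcases Nat.eq_zero_or_pos e with h | h
    · subst h; simp at he; omega
    · exact h
  have hd2 : 2 ≤ d := by
    by_contra hcon
    obtain rfl : d = 1 := by omega
    unfold val at hv
    rw [hnd] at hv
    have h1 : (((1 : ℕ) : ℤ) - 2) / (2 * (s : ℤ)) = -1 := by
      have hs' : (1 : ℤ) ≤ s := by exact_mod_cast hs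
      rw [Int.ediv_eq_iff_of_pos (by linarith)]
      constructor <;> push_cast <;> linarith
    rw [h1] at hv
    have : (0 : ℤ) < e := by exact_mod_cast he0
    linarith
  set j : ℕ := (d - 2) / (2 * s) with hj
  have hjz : ((d : ℤ) - 2) / (2 * s) = j := by
    rw [hj]
    push_cast
    congr 1
    omega
  have hjd : 2 * s * j + 2 ≤ d := by
    have := Nat.mul_div_le (d - 2) (2 * s)
    rw [← hj] at this
    omega
  let f : ℕ × ℕ → ZMod n := fun p => ((d * p.1 + p.2 : ℕ) : ZMod n) - (j : ZMod n)
  let A : Finset (ZMod n) := (range e ×ˢ range (2 * j + 1)).image f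
  have hj2 : 2 * j + 1 ≤ d := by
    have : j ≤ s * j := Nat.le_mul_of_pos_left _ hs
    nlinarith
  have hinj : Set.InjOn f ((range e ×ˢ range (2 * j + 1) : Finset (ℕ × ℕ)) : Set (ℕ × ℕ)) := by
    rintro ⟨t, i⟩ h1 ⟨t', i'⟩ h2 h
    simp only [coe_product, coe_range, Set.mem_prod, Set.mem_Iio] at h1 h2
    have h3 : ((d * t + i : ℕ) : ZMod n) = ((d * t' + i' : ℕ) : ZMod n) := sub_left_injective h
    rw [ZMod.natCast_eq_natCast_iff'] at h3
    have lt1 : ∀ t i : ℕ, t < e → i < 2 * j + 1 → d * t + i < n := by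
      intro t i ht hi
      rw [he]
      calc d * t + i < d * t + d := by omega
        _ = d * (t + 1) := by ring
        _ ≤ d * e := Nat.mul_le_mul_left _ ht
    rw [Nat.mod_eq_of_lt (lt1 t i h1.1 h1.2), Nat.mod_eq_of_lt (lt1 t' i' h2.1 h2.2)] at h3
    have hi : i < d := by omega
    have hi' : i' < d := by omega
    have e1 : (d * t + i) % d = i := by rw [Nat.mul_add_mod]; exact Nat.mod_eq_of_lt hi
    have e2 : (d * t' + i') % d = i' := by rw [Nat.mul_add_mod]; exact Nat.mod_eq_of_lt hi'
    have hii : i = i' := by rw [← e1, ← e2, h3]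
    subst hii
    have : t = t' := Nat.eq_of_mul_eq_mul_left hd0 (by omega)
    rw [this]
  refine ⟨A, ?_, ((s * j + 1 : ℕ) : ZMod n), ?_⟩
  · have : A.card = e * (2 * j + 1) := by
      rw [Finset.card_image_of_injOn hinj, Finset.card_product, card_range, card_range]
    rw [this]
    unfold val
    rw [hjz, hnd]
    push_cast
    ring
  · rintro ⟨l, h1, h2⟩
    haveI : NeZero d := ⟨by omega⟩
    let φ : ZMod n →+* ZMod d := ZMod.castHom (⟨e, he⟩ : d ∣ n) (ZMod d)
    have hA : ∀ a ∈ A, ∃ u : ℤ, |u| ≤ j ∧ φ a = (u : ZMod d) := by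
      intro a ha
      obtain ⟨⟨t, i⟩, hp, rfl⟩ := Finset.mem_image.1 ha
      simp only [mem_product, mem_range] at hp
      refine ⟨(i : ℤ) - j, ?_, ?_⟩
      · rw [abs_le]
        constructor <;> omega
      · simp only [f, map_sub, map_natCast]
        push_cast
        simp
    choose! u hu1 hu2 using hA
    have h3 : φ ((s * j + 1 : ℕ) : ZMod n) = ((∑ a ∈ A, l a * u a : ℤ) : ZMod d) := by
      rw [← h2, map_sum]
      push_cast
      refine Finset.sum_congr rfl fun a ha => ?_
      rw [map_zsmul, hu2 a ha, zsmul_eq_mul]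
    have h4 : |∑ a ∈ A, l a * u a| ≤ s * j := by
      calc |∑ a ∈ A, l a * u a| ≤ ∑ a ∈ A, |l a * u a| := Finset.abs_sum_le_sum_abs _ _
        _ ≤ ∑ a ∈ A, |l a| * j := by
            refine Finset.sum_le_sum fun a ha => ?_
            rw [abs_mul]
            exact mul_le_mul_of_nonneg_left (hu1 a ha) (abs_nonneg _)
        _ = (∑ a ∈ A, |l a|) * j := by rw [Finset.sum_mul]
        _ ≤ s * j := mul_le_mul_of_nonneg_right h1 (by positivity)
    rw [map_natCast] at h3
    have h5 : (((s * j + 1 : ℕ) : ℤ) : ZMod d) = ((∑ a ∈ A, l a * u a : ℤ) : ZMod d) := by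
      rw [← h3]
      push_cast
      rfl
    rw [ZMod.intCast_eq_intCast_iff_dvd_sub] at h5
    rw [abs_le] at h4
    obtain ⟨c, hc⟩ := h5
    have hjd' : 2 * ((s : ℤ) * j) + 2 ≤ d := by
      have : ((2 * s * j + 2 : ℕ) : ℤ) ≤ (d : ℤ) := by exact_mod_cast hjd
      push_cast at this
      linarith
    push_cast at hc
    have hc1 : (d : ℤ) * c < 0 := by linarith [h4.2]
    have hc2 : -(d : ℤ) < (d : ℤ) * c := by linarith [h4.1]
    have hdz : (0 : ℤ) < d := by exact_mod_cast hd0
    have hc3 : c < 0 := by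
      by_contra hcon
      push Not at hcon
      nlinarith
    have hc4 : -1 < c := by
      by_contra hcon
      push Not at hcon
      nlinarith
    omega

end Pool.Agent.N432.SignedCrit
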