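import Mathlib
import Pool.Agent.Helper450.Kneser
import Pool.Agent.N432.SignedCrit

/-!
2-atoms in finite abelian groups: if some 2-separated set `X` satisfies `|X + B| < |X| + |B|`, then
`B` is close to a progression or to a union of cosets of a proper nontrivial subgroup.
-/

set_option autoImplicit false
set_option linter.unusedSectionVars false

open scoped Pointwise
open Finset

namespace Pool.Agent.N432.Atoms

open Pool.Agent.Helper450.Kneser
open Pool.Agent.N432.SignedCrit (le_stab_add_fs stab_le_add)

variable {G : Type*} [AddCommGroup G] [Fintype G] [DecidableEq G]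

/-- `X` is 2-separated by `B` -/
def Sep (B X : Finset G) : Prop := 2 ≤ X.card ∧ (X + B).card + 2 ≤ Fintype.card G

/-- `M` is a 2-atom of `B` -/
structure IsAtom (B M : Finset G) : Prop where
  sep : Sep B M
  min : ∀ X, Sep B X → (M + B).card + X.card ≤ (X + B).card + M.card
  small : ∀ X, Sep B X → (X + B).card + M.card = (M + B).card + X.card → M.card ≤ X.card

theorem exists_atom {B X : Finset G} (hX : Sep B X) : ∃ M, IsAtom B M := by
  classical
  let n := Fintype.card G
  let f : Finset G → ℤ := fun Y => (((Y + B).card : ℤ) - Y.card) * (n + 1) + Y.card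
  obtain ⟨M, hM, hmin⟩ := Finset.exists_min_image (univ.filter (fun Y => Sep B Y)) f
    ⟨X, by simpa using hX⟩
  simp only [mem_filter, mem_univ, true_and] at hM hmin
  have hcard : ∀ Y : Finset G, (Y.card : ℤ) ≤ n := fun Y => by exact_mod_cast card_le_univ Y
  have hn : (0 : ℤ) ≤ n := by positivity
  refine ⟨M, hM, fun Y hY => ?_, fun Y hY he => ?_⟩
  · by_contra hcon
    have h1 := hmin Y hY
    have h2 := hcard Y
    have h3 := hcard M
    have h4 : ((Y + B).card : ℤ) - Y.card ≤ ((M + B).card : ℤ) - M.card - 1 := by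
      push Not at hcon
      have : ((Y + B).card : ℤ) + M.card < (M + B).card + Y.card := by exact_mod_cast hcon
      linarith
    have h5 : (0 : ℤ) ≤ M.card := by positivity
    simp only [f] at h1
    nlinarith
  · have h1 := hmin Y hY
    have h4 : ((Y + B).card : ℤ) - Y.card = ((M + B).card : ℤ) - M.card := by
      have : ((Y + B).card : ℤ) + M.card = (M + B).card + Y.card := by exact_mod_cast he
      linarith
    simp only [f] at h1
    rw [h4] at h1
    have : (M.card : ℤ) ≤ Y.card := by linarith
    exact_mod_cast this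

/-- the dual inequality -/
theorem IsAtom.dual {B M : Finset G} (hM : IsAtom B M) : M.card + (M + B).card ≤ Fintype.card G := by
  classical
  obtain ⟨h2, hs⟩ := hM.sep
  let Y : Finset G := (M + B)ᶜ.image (fun x => -x)
  have hYc : Y.card = Fintype.card G - (M + B).card := by
    rw [card_image_of_injective _ neg_injective, card_compl]
  have hsub : Y + B ⊆ (M.image (fun x => -x))ᶜ := by
    intro z hz
    obtain ⟨y, hy, b, hb, rfl⟩ := mem_add.1 hz
    obtain ⟨w, hw, rfl⟩ := mem_image.1 hy
    rw [mem_compl, mem_image]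
    rintro ⟨m, hm, he⟩
    rw [mem_compl] at hw
    apply hw
    have : w = m + b := by
      have h3 : -m = -w + b := he
      have h4 : w = m + b := by
        calc w = m + (-m) + w := by abel
          _ = m + (-w + b) + w := by rw [h3]
          _ = m + b := by abel
      exact h4
    rw [this]
    exact add_mem_add hm hb
  have hYB : (Y + B).card ≤ Fintype.card G - M.card := by
    refine (card_le_card hsub).trans ?_
    rw [card_compl, card_image_of_injective _ neg_injective]
  have hMG : M.card ≤ Fintype.card G := card_le_univ M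
  have hMBG : (M + B).card ≤ Fintype.card G := card_le_univ _
  have hsep : Sep B Y := ⟨by omega, by omega⟩
  have h5 := hM.min Y hsep
  have h6 := hM.small Y hsep (by omega)
  omega

/-- two different 2-atoms meet in at most one element -/
theorem IsAtom.inter {B M M' : Finset G} (hM : IsAtom B M) (hM' : IsAtom B M')
    (h2 : 2 ≤ (M ∩ M').card) : M = M' := by
  classical
  by_contra hne
  have hd := hM.dual
  have e1 := hM.min M' hM'.sep
  have e2 := hM'.min M hM.sep
  have c1 := hM.small M' hM'.sep (by omega)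
  have c2 := hM'.small M hM.sep (by omega)
  have hlt : (M ∩ M').card < M.card := by
    refine lt_of_le_of_ne (card_le_card inter_subset_left) fun he => hne ?_
    have h3 : M ∩ M' = M := eq_of_subset_of_card_le inter_subset_left he.ge
    have h4 : M ⊆ M' := by rw [← h3]; exact inter_subset_right
    exact eq_of_subset_of_card_le h4 (by omega)
  have hI1 : ((M ∩ M') + B).card ≤ (M + B).card :=
    card_le_card (add_subset_add_right inter_subset_left)
  have hs := hM.sep
  have hsI : Sep B (M ∩ M') := ⟨h2, by have := hs.2; omega⟩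
  have h5 := hM.min _ hsI
  have h6 : (M + B).card + (M ∩ M').card + 1 ≤ ((M ∩ M') + B).card + M.card := by
    by_contra hcon
    have := hM.small _ hsI (by omega)
    omega
  have h7 : ((M ∩ M') + B).card + ((M ∪ M') + B).card ≤ (M + B).card + (M' + B).card := by
    have h8 : (M ∩ M') + B ⊆ (M + B) ∩ (M' + B) := inter_add_subset
    have h9 : (M ∪ M') + B = (M + B) ∪ (M' + B) := union_add
    rw [h9]
    have := card_union_add_card_inter (M + B) (M' + B)
    have := card_le_card h8
    omega
  have h10 := card_union_add_card_inter M M'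
  have hsU : Sep B (M ∪ M') := ⟨by have := hs.1; have := card_le_card (subset_union_left (s₁ := M) (s₂ := M')); omega, by omega⟩
  have h11 := hM.min _ hsU
  omega

theorem IsAtom.translate {B M : Finset G} (hM : IsAtom B M) (g : G) : IsAtom B (M + {g}) := by
  have e1 : ((M + {g}) + B).card = (M + B).card := by
    rw [add_right_comm, card_add_singleton]
  have e2 : (M + {g}).card = M.card := card_add_singleton _ _
  refine ⟨⟨by rw [e2]; exact hM.sep.1, by rw [e1]; exact hM.sep.2⟩, ?_, ?_⟩
  · intro X hX
    rw [e1, e2]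
    exact hM.min X hX
  · intro X hX he
    rw [e1, e2] at he
    rw [e2]
    exact hM.small X hX he

/-- all differences of different elements are different -/
def Sid (M : Finset G) : Prop :=
  ∀ a ∈ M, ∀ b ∈ M, ∀ c ∈ M, ∀ d ∈ M, a - b = c - d → a ≠ b → a = c

theorem IsAtom.sid {B M : Finset G} (hM : IsAtom B M) (hst : stab (M + B) = ⊥) : Sid M := by
  intro a ha b hb c hc d hd h hab
  by_contra hac
  set g := a - b with hg
  have hM' := hM.translate g
  have ha' : a ∈ M + {g} := mem_add.2 ⟨b, hb, g, mem_singleton_self g, by rw [hg]; abel⟩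
  have hc' : c ∈ M + {g} := mem_add.2 ⟨d, hd, g, mem_singleton_self g, by rw [h]; abel⟩
  have h2 : 2 ≤ (M ∩ (M + {g})).card := by
    have : ({a, c} : Finset G) ⊆ M ∩ (M + {g}) := by
      intro x hx
      rw [mem_insert, mem_singleton] at hx
      rcases hx with rfl | rfl
      · exact mem_inter.2 ⟨ha, ha'⟩
      · exact mem_inter.2 ⟨hc, hc'⟩
    have h3 := card_le_card this
    rwa [card_pair hac] at h3
  have heq := hM.inter hM' h2
  have hgs : g ∈ stab M := by
    apply mem_stab_of_forall
    intro x hx
    rw [heq]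
    exact add_mem_add hx (mem_singleton_self g)
  have : g ∈ stab (M + B) := stab_le_add M B hgs
  rw [hst, AddSubgroup.mem_bot] at this
  rw [hg, sub_eq_zero] at this
  exact hab this

theorem card_fs_ge_two {H : AddSubgroup G} (h : H ≠ ⊥) : 2 ≤ (fs H).card := by
  obtain ⟨⟨x, hx⟩, hne⟩ := (AddSubgroup.ne_bot_iff_exists_ne_zero (H := H)).1 h
  have hx0 : x ≠ 0 := fun h => hne (Subtype.ext h)
  have : ({0, (x : G)} : Finset G) ⊆ fs H := by
    intro y hy
    rw [mem_insert, mem_singleton] at hy
    rcases hy with rfl | rfl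
    · exact mem_fs.2 H.zero_mem
    · exact mem_fs.2 hx
  have h3 := card_le_card this
  rwa [card_pair (Ne.symm hx0)] at h3

/-- the size of a periodic set -/
theorem card_quot (H : AddSubgroup G) (C : Finset G) (hC : ∀ x ∈ C, ∀ h ∈ H, x + h ∈ C)
    [DecidableEq (G ⧸ H)] :
    C.card = (C.image (fun x : G => (x : G ⧸ H))).card * (fs H).card := by
  rw [Finset.card_eq_sum_card_image (fun x : G => (x : G ⧸ H)) C, Finset.sum_const_nat]
  intro q hq
  obtain ⟨c, hc, rfl⟩ := Finset.mem_image.1 hq
  have : C.filter (fun x : G => (x : G ⧸ H) = (c : G ⧸ H)) = (fs H).image (fun h => c + h) := by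
    ext x
    simp only [mem_filter, mem_image, mem_fs]
    constructor
    · rintro ⟨hx, hxc⟩
      exact ⟨-c + x, QuotientAddGroup.eq.1 hxc.symm, by abel⟩
    · rintro ⟨h, hh, rfl⟩
      refine ⟨hC c hc h hh, ?_⟩
      rw [QuotientAddGroup.eq]
      have : -(c + h) + c = -h := by abel
      rw [this]
      exact H.neg_mem hh
  rw [this, Finset.card_image_of_injective _ (add_right_injective c)]

/-- A Sidon set with few holes in the cosets of a subgroup lies in one coset. -/
theorem sid_coset {M : Finset G} (hM : Sid M) {L : AddSubgroup G} (hL : L ≠ ⊥)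
    (h : (M + fs L).card + 1 ≤ M.card + (fs L).card) : ∀ a ∈ M, ∀ b ∈ M, a - b ∈ L := by
  classical
  intro a ha b hb
  by_contra hab
  set l := (fs L).card with hl
  have hl2 : 2 ≤ l := card_fs_ge_two hL
  let π : G → G ⧸ L := fun x => (x : G ⧸ L)
  set T := M.image π with hT
  have hper : (M + fs L).card = T.card * l := by
    rw [card_quot L (M + fs L) (fun x hx h hh => stab_add (le_stab_add_fs M L hh) hx)]
    congr 2
    ext q
    simp only [hT, π, mem_image, mem_add, mem_fs]
    constructor
    · rintro ⟨x, ⟨m, hm, k, hk, rfl⟩, rfl⟩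
      refine ⟨m, hm, ?_⟩
      rw [QuotientAddGroup.eq]
      have : -m + (m + k) = k := by abel
      rw [this]
      exact hk
    · rintro ⟨m, hm, rfl⟩
      exact ⟨m, ⟨m, hm, 0, L.zero_mem, add_zero m⟩, rfl⟩
  have hT2 : 2 ≤ T.card := by
    have h1 : ({π a, π b} : Finset (G ⧸ L)) ⊆ T := by
      intro q hq
      rw [mem_insert, mem_singleton] at hq
      rcases hq with rfl | rfl
      · exact mem_image_of_mem _ ha
      · exact mem_image_of_mem _ hb
    have h2 : π a ≠ π b := by
      intro he
      have := QuotientAddGroup.eq.1 he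
      apply hab
      have h3 : a - b = -(-a + b) := by abel
      rw [h3]
      exact L.neg_mem this
    have h3 := card_le_card h1
    rwa [card_pair h2] at h3
  -- pairs in one coset
  let P := (M ×ˢ M).filter (fun z => z.1 ≠ z.2 ∧ π z.1 = π z.2)
  have hP1 : P.card + 1 ≤ l := by
    have hmaps : ∀ z ∈ P, z.1 - z.2 ∈ (fs L).erase 0 := by
      intro z hz
      simp only [P, mem_filter, mem_product] at hz
      rw [mem_erase, mem_fs]
      refine ⟨sub_ne_zero.2 hz.2.1, ?_⟩
      have := QuotientAddGroup.eq.1 hz.2.2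
      have h3 : z.1 - z.2 = -(-z.1 + z.2) := by abel
      rw [h3]
      exact L.neg_mem this
    have hinj : ∀ z ∈ P, ∀ w ∈ P, z.1 - z.2 = w.1 - w.2 → z = w := by
      intro z hz w hw he
      simp only [P, mem_filter, mem_product] at hz hw
      have h1 := hM z.1 hz.1.1 z.2 hz.1.2 w.1 hw.1.1 w.2 hw.1.2 he hz.2.1
      refine Prod.ext h1 ?_
      rw [h1] at he
      exact sub_right_injective he
    have := Finset.card_le_card_of_injOn (fun z : G × G => z.1 - z.2) hmaps
      (fun z hz w hw he => hinj z hz w hw he)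
    rw [card_erase_of_mem (mem_fs.2 L.zero_mem)] at this
    omega
  have hP2 : (P.card : ℤ) ≥ 2 * ((M.card : ℤ) - T.card) := by
    have h1 : M.card = ∑ q ∈ T, (M.filter (fun x => π x = q)).card :=
      Finset.card_eq_sum_card_image π M
    have h2 : P.card = ∑ q ∈ T, (P.filter (fun z => π z.1 = q)).card := by
      apply Finset.card_eq_sum_card_fiberwise
      intro z hz
      simp only [P, coe_filter, mem_product, Set.mem_ofPred_eq] at hz
      exact mem_image_of_mem _ hz.1.1
    have h3 : ∀ q ∈ T, (P.filter (fun z => π z.1 = q)).card =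
        (M.filter (fun x => π x = q)).card * (M.filter (fun x => π x = q)).card -
          (M.filter (fun x => π x = q)).card := by
      intro q _
      rw [← offDiag_card]
      congr 1
      ext z
      simp only [P, mem_filter, mem_product, mem_offDiag]
      constructor
      · rintro ⟨⟨⟨hz1, hz2⟩, hne, he⟩, hq⟩
        exact ⟨⟨hz1, hq⟩, ⟨hz2, by rw [← he]; exact hq⟩, hne⟩
      · rintro ⟨⟨hz1, hq1⟩, ⟨hz2, hq2⟩, hne⟩
        exact ⟨⟨⟨hz1, hz2⟩, hne, by rw [hq1, hq2]⟩, hq1⟩
    rw [h2, h1]
    push_cast
    rw [show ((T.card : ℤ)) = ∑ q ∈ T, (1 : ℤ) by simp, ← Finset.sum_sub_distrib, Finset.mul_sum]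
    refine Finset.sum_le_sum fun q hq => ?_
    rw [h3 q hq]
    obtain ⟨x, hx, hxq⟩ := mem_image.1 hq
    have hpos : 1 ≤ (M.filter (fun x => π x = q)).card :=
      Finset.card_pos.2 ⟨x, mem_filter.2 ⟨hx, hxq⟩⟩
    set m := (M.filter (fun x => π x = q)).card
    have hmm : m ≤ m * m := Nat.le_mul_self m
    rw [Nat.cast_sub hmm]
    push_cast
    have hm1 : (1 : ℤ) ≤ m := by exact_mod_cast hpos
    rcases eq_or_lt_of_le hm1 with h1' | h1'
    · rw [← h1']; norm_num
    · nlinarith
  rw [hper] at h
  have hz1 : ((T.card : ℤ)) * l + 1 ≤ M.card + l := by exact_mod_cast h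
  have hz2 : (P.card : ℤ) + 1 ≤ l := by exact_mod_cast hP1
  have hz3 : (2 : ℤ) ≤ T.card := by exact_mod_cast hT2
  have hz4 : (2 : ℤ) ≤ l := by exact_mod_cast hl2
  nlinarith

theorem periodic_case {B M : Finset G} (hB : B.Nonempty) (hM : M.Nonempty) (hne : M + B ≠ univ)
    (hκ : (M + B).card + 1 ≤ M.card + B.card) :
    stab (M + B) ≠ ⊤ ∧
      (B + fs (stab (M + B))).card + 1 ≤ B.card + (fs (stab (M + B))).card := by
  refine ⟨fun htop => hne ?_, ?_⟩
  · obtain ⟨x, hx⟩ := hM.add hB
    rw [Finset.eq_univ_iff_forall]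
    intro y
    have h1 : y - x ∈ stab (M + B) := by rw [htop]; trivial
    have h2 := stab_add h1 hx
    rwa [add_sub_cancel] at h2
  · have h1 := kneser' M B hM hB
    have h2 : M.card ≤ (M + fs (stab (M + B))).card :=
      card_le_card_add_right (fs_nonempty _)
    omega

theorem closure_case {B M : Finset G} (hB : B.Nonempty) (hM : M.Nonempty) (hsid : Sid M)
    (hst : stab (M + B) = ⊥) (hc : (M + B).card + 1 ≤ M.card + B.card) (K : AddSubgroup G)
    (hK : ∀ a ∈ M, ∀ b ∈ M, a - b ∈ K)
    (hKmin : ∀ L : AddSubgroup G, (∀ a ∈ M, ∀ b ∈ M, a - b ∈ L) → K ≤ L) (hKbot : K ≠ ⊥) :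
    (B + fs K).card + 1 ≤ B.card + (fs K).card := by
  classical
  obtain ⟨k, hk, s, hs, hsk⟩ : ∃ k ∈ K, ∃ s ∈ M + B, s + k ∉ M + B := by
    by_contra hcon
    push Not at hcon
    apply hKbot
    rw [eq_bot_iff, ← hst]
    intro k hk
    exact mem_stab_of_forall (fun x hx => hcon k hk x hx)
  obtain ⟨m, hm, b, hb, rfl⟩ := mem_add.1 hs
  set B0 := B.filter (fun x => x - b ∈ K) with hB0
  set B1 := B.filter (fun x => ¬ (x - b ∈ K)) with hB1
  have hbB0 : b ∈ B0 := mem_filter.2 ⟨hb, by rw [sub_self]; exact K.zero_mem⟩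
  have hBc : B.card = B0.card + B1.card := by
    rw [hB0, hB1, Finset.card_filter_add_card_filter_not]
  have hunion : M + B = (M + B0) ∪ (M + B1) := by
    rw [← Finset.add_union, hB0, hB1, Finset.filter_union_filter_not_eq]
  have hdisj : Disjoint (M + B0) (M + B1) := by
    rw [Finset.disjoint_left]
    intro z hz hz'
    obtain ⟨m1, hm1, x, hx, rfl⟩ := mem_add.1 hz
    obtain ⟨m2, hm2, y, hy, he⟩ := mem_add.1 hz'
    apply (mem_filter.1 hy).2
    have h1 : y - b = (m1 - m2) + (x - b) := by
      have : y = m1 + x - m2 := by rw [← he]; abel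
      rw [this]; abel
    rw [h1]
    exact K.add_mem (hK m1 hm1 m2 hm2) (mem_filter.1 hx).2
  have hcard : (M + B).card = (M + B0).card + (M + B1).card := by
    rw [hunion, card_union_of_disjoint hdisj]
  have h1 : B1.card ≤ (M + B1).card := card_le_card_add_left hM
  have hsub0 : M + B0 ⊆ M + B := add_subset_add_left (filter_subset _ _)
  have hs0 : m + b ∈ M + B0 := add_mem_add hm hbB0
  have hsk0 : m + b + k ∉ M + B0 := fun h => hsk (hsub0 h)
  have h2 : (M + B0).card + 1 ≤ M.card + B0.card := by omega
  have hL : stab (M + B0) = ⊥ := by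
    by_contra hLne
    have h3 := kneser' M B0 hM ⟨b, hbB0⟩
    have h4 : B0.card ≤ (B0 + fs (stab (M + B0))).card := card_le_card_add_right (fs_nonempty _)
    have h5 := sid_coset hsid hLne (by omega)
    have h6 := hKmin _ h5
    exact hsk0 (stab_add (h6 hk) hs0)
  have h3 := kneser_aperiodic M B0 hM ⟨b, hbB0⟩ hL
  have h4 : (M + B1).card = B1.card := by omega
  have hper : K ≤ stab B1 := by
    apply hKmin
    intro x hx y hy
    have e1 : {y} + B1 = M + B1 := by
      refine Finset.eq_of_subset_of_card_le ?_ ?_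
      · exact add_subset_add_right (singleton_subset_iff.2 hy)
      · rw [h4, Finset.card_singleton_add]
    apply mem_stab_of_forall
    intro z hz
    have h5 : x + z ∈ {y} + B1 := by
      rw [e1]
      exact add_mem_add hx hz
    obtain ⟨y', hy', w, hw, he⟩ := mem_add.1 h5
    rw [mem_singleton] at hy'
    subst hy'
    have : z + (x - y') = w := by
      calc z + (x - y') = (x + z) - y' := by abel
        _ = w := by rw [← he]; abel
    rw [this]
    exact hw
  have hsub : B + fs K ⊆ (fs K).image (fun x => b + x) ∪ B1 := by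
    intro z hz
    obtain ⟨x, hx, y, hy, rfl⟩ := mem_add.1 hz
    by_cases hxb : x - b ∈ K
    · refine mem_union_left _ (mem_image.2 ⟨(x - b) + y, mem_fs.2 (K.add_mem hxb (mem_fs.1 hy)), ?_⟩)
      abel
    · refine mem_union_right _ (stab_add (hper (mem_fs.1 hy)) ?_)
      exact mem_filter.2 ⟨hx, hxb⟩
  have h5 := card_le_card hsub
  have h6 := card_union_le ((fs K).image (fun x => b + x)) B1
  rw [card_image_of_injective _ (add_right_injective b)] at h6
  have h7 : 0 < B0.card := card_pos.2 ⟨b, hbB0⟩
  omega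

theorem energy_le {M N : Finset G} (hM : Sid M) :
    M.addEnergy N ≤ M.card * N.card + (N.card * N.card - N.card) := by
  classical
  unfold addEnergy
  rw [← Finset.card_filter_add_card_filter_not (p := fun x : (G × G) × G × G => x.1.1 = x.1.2)]
  refine Nat.add_le_add ?_ ?_
  · rw [← card_product]
    refine Finset.card_le_card_of_injOn (fun x => (x.1.1, x.2.1)) ?_ ?_
    · intro x hx
      simp only [coe_filter, mem_filter, mem_product, Set.mem_ofPred_eq] at hx
      simp only [coe_product, Set.mem_prod, mem_coe]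
      exact ⟨hx.1.1.1.1, hx.1.1.2.1⟩
    · intro x hx y hy he
      simp only [coe_filter, mem_filter, mem_product, Set.mem_ofPred_eq] at hx hy
      simp only [Prod.mk.injEq] at he
      have hx2 : x.2.1 = x.2.2 := by
        have := hx.1.2
        rw [hx.2] at this
        exact add_left_cancel this
      have hy2 : y.2.1 = y.2.2 := by
        have := hy.1.2
        rw [hy.2] at this
        exact add_left_cancel this
      refine Prod.ext (Prod.ext he.1 ?_) (Prod.ext he.2 ?_)
      · rw [← hx.2, ← hy.2]; exact he.1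
      · rw [← hx2, ← hy2]; exact he.2
  · rw [← offDiag_card]
    refine Finset.card_le_card_of_injOn (fun x => x.2) ?_ ?_
    · intro x hx
      simp only [coe_filter, mem_filter, mem_product, Set.mem_ofPred_eq] at hx
      rw [mem_coe, mem_offDiag]
      refine ⟨hx.1.1.2.1, hx.1.1.2.2, fun he => hx.2 ?_⟩
      have := hx.1.2
      rw [he] at this
      exact add_right_cancel this
    · intro x hx y hy he
      simp only [coe_filter, mem_filter, mem_product, Set.mem_ofPred_eq] at hx hy
      have he' : x.2 = y.2 := he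
      have e1 : x.1.1 - x.1.2 = y.1.1 - y.1.2 := by
        have h1 := hx.1.2
        have h2 := hy.1.2
        rw [← he'] at h2
        have h3 : x.1.1 - x.1.2 = x.2.2 - x.2.1 := by
          rw [sub_eq_sub_iff_add_eq_add, h1, add_comm]
        have h4 : y.1.1 - y.1.2 = x.2.2 - x.2.1 := by
          rw [sub_eq_sub_iff_add_eq_add, h2, add_comm]
        rw [h3, h4]
      have e2 := hM x.1.1 hx.1.1.1.1 x.1.2 hx.1.1.1.2 y.1.1 hy.1.1.1.1 y.1.2 hy.1.1.1.2 e1 hx.2
      refine Prod.ext (Prod.ext e2 ?_) he'
      rw [e2] at e1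
      exact sub_right_injective e1

theorem energy_contra {M N : Finset G} (hM : Sid M) (hN : Sid N) (hm : 3 ≤ M.card)
    (hn : 2 ≤ N.card) (hc : (M + N).card + 1 ≤ M.card + N.card) : False := by
  have h1 := le_card_add_mul_addEnergy M N
  have h2 := energy_le (N := N) hM
  have h3 := energy_le (N := M) hN
  rw [addEnergy_comm] at h3
  set E := M.addEnergy N
  set m := M.card
  set n := N.card
  set t := (M + N).card
  have hmm : m ≤ m * m := Nat.le_mul_self m
  have hnn : n ≤ n * n := Nat.le_mul_self n
  zify [hmm, hnn] at h1 h2 h3 hm hn hc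
  have ht0 : (0 : ℤ) ≤ t := by positivity
  have hE0 : (0 : ℤ) ≤ E := by positivity
  have ht : (t : ℤ) ≤ m + n - 1 := by linarith
  have hm0 : (0 : ℤ) < m := by linarith
  have hn0 : (0 : ℤ) < n := by linarith
  have hb0 : (0 : ℤ) ≤ (m : ℤ) + n - 1 := by linarith
  have k1 : (m : ℤ) ^ 2 * n ≤ ((m : ℤ) + n - 1) ^ 2 := by
    have : (m : ℤ) ^ 2 * n * n ≤ ((m : ℤ) + n - 1) ^ 2 * n := by
      calc (m : ℤ) ^ 2 * n * n = (m : ℤ) ^ 2 * (n : ℤ) ^ 2 := by ring
        _ ≤ (t : ℤ) * E := h1
        _ ≤ ((m : ℤ) + n - 1) * E := mul_le_mul_of_nonneg_right ht hE0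
        _ ≤ ((m : ℤ) + n - 1) * (m * n + (n * n - n)) := mul_le_mul_of_nonneg_left h2 hb0
        _ = ((m : ℤ) + n - 1) ^ 2 * n := by ring
    exact le_of_mul_le_mul_right this hn0
  have k2 : (n : ℤ) ^ 2 * m ≤ ((m : ℤ) + n - 1) ^ 2 := by
    have : (n : ℤ) ^ 2 * m * m ≤ ((m : ℤ) + n - 1) ^ 2 * m := by
      calc (n : ℤ) ^ 2 * m * m = (m : ℤ) ^ 2 * (n : ℤ) ^ 2 := by ring
        _ ≤ (t : ℤ) * E := h1
        _ ≤ ((m : ℤ) + n - 1) * E := mul_le_mul_of_nonneg_right ht hE0
        _ ≤ ((m : ℤ) + n - 1) * (n * m + (m * m - m)) := mul_le_mul_of_nonneg_left h3 hb0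
        _ = ((m : ℤ) + n - 1) ^ 2 * m := by ring
    exact le_of_mul_le_mul_right this hm0
  rcases le_or_gt (n : ℤ) m with hnm | hnm
  · rcases le_or_gt (4 : ℤ) n with h4 | h4
    · nlinarith
    · have : (n : ℤ) = 2 ∨ (n : ℤ) = 3 := by omega
      rcases this with h5 | h5 <;> rw [h5] at k1 <;> nlinarith
  · rcases le_or_gt (4 : ℤ) m with h4 | h4
    · nlinarith
    · have h5 : (m : ℤ) = 3 := by omega
      rw [h5] at k2
      nlinarith

/-- The structure of a set with a small 2-separated sumset. -/
theorem main {B X : Finset G} (hB : B.Nonempty) (hX : Sep B X)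
    (h : (X + B).card + 1 ≤ X.card + B.card) :
    (∃ g : G, g ≠ 0 ∧ (B ∪ (B + {g})).card ≤ B.card + 1) ∨
      ∃ K : AddSubgroup G, K ≠ ⊥ ∧ K ≠ ⊤ ∧ (B + fs K).card + 1 ≤ B.card + (fs K).card := by
  classical
  obtain ⟨M, hM⟩ := exists_atom hX
  have hMs := hM.sep
  have hMne : M.Nonempty := card_pos.1 (by have := hMs.1; omega)
  have hκ : (M + B).card + 1 ≤ M.card + B.card := by
    have := hM.min X hX
    omega
  have hneu : M + B ≠ univ := by
    intro he
    have := hMs.2
    rw [he, card_univ] at this
    omega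
  by_cases hst : stab (M + B) = ⊥
  swap
  · obtain ⟨h1, h2⟩ := periodic_case hB hMne hneu hκ
    exact Or.inr ⟨stab (M + B), hst, h1, h2⟩
  rcases Nat.lt_or_ge M.card 3 with h3 | h3
  · obtain ⟨x, y, hxy, rfl⟩ := card_eq_two.1 (show M.card = 2 by have := hMs.1; omega)
    left
    refine ⟨y - x, sub_ne_zero.2 (Ne.symm hxy), ?_⟩
    have h4 : ({x, y} : Finset G) + B = {x} + (B ∪ (B + {y - x})) := by
      rw [insert_eq, union_add, add_union]
      congr 1
      rw [add_comm B, ← add_assoc, singleton_add_singleton, add_sub_cancel]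
    rw [h4, card_singleton_add, card_pair hxy] at hκ
    omega
  · have hsid := hM.sid hst
    let K : AddSubgroup G := AddSubgroup.closure {z | ∃ a ∈ M, ∃ b ∈ M, z = a - b}
    have hK : ∀ a ∈ M, ∀ b ∈ M, a - b ∈ K := fun a ha b hb =>
      AddSubgroup.subset_closure ⟨a, ha, b, hb, rfl⟩
    have hKmin : ∀ L : AddSubgroup G, (∀ a ∈ M, ∀ b ∈ M, a - b ∈ L) → K ≤ L := by
      intro L hL
      rw [AddSubgroup.closure_le]
      rintro z ⟨a, ha, b, hb, rfl⟩
      exact hL a ha b hb
    have hKbot : K ≠ ⊥ := by
      intro he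
      obtain ⟨a, ha, b, hb, hab⟩ := Finset.one_lt_card.1 (show 1 < M.card by omega)
      have := hK a ha b hb
      rw [he, AddSubgroup.mem_bot, sub_eq_zero] at this
      exact hab this
    by_cases hKtop : K = ⊤
    swap
    · exact Or.inr ⟨K, hKbot, hKtop, closure_case hB hMne hsid hst hκ K hK hKmin hKbot⟩
    · rcases Nat.lt_or_ge B.card 2 with hB1 | hB2
      · left
        obtain ⟨a, ha, b, hb, hab⟩ := Finset.one_lt_card.1 (show 1 < M.card by omega)
        refine ⟨a - b, sub_ne_zero.2 hab, ?_⟩
        have h5 := card_union_le B (B + {a - b})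
        rw [card_add_singleton] at h5
        omega
      · exfalso
        have hsepB : Sep M B := ⟨hB2, by rw [add_comm B M]; exact hMs.2⟩
        obtain ⟨N, hN⟩ := exists_atom hsepB
        have hNs := hN.sep
        have hNne : N.Nonempty := card_pos.1 (by have := hNs.1; omega)
        have hκ' : (N + M).card + 1 ≤ N.card + M.card := by
          have := hN.min B hsepB
          rw [add_comm B M] at this
          omega
        have hneu' : N + M ≠ univ := by
          intro he
          have := hNs.2
          rw [he, card_univ] at this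
          omega
        by_cases hst' : stab (N + M) = ⊥
        swap
        · obtain ⟨h6, h7⟩ := periodic_case hMne hNne hneu' hκ'
          have h8 := sid_coset hsid hst' h7
          have h9 := hKmin _ h8
          rw [hKtop] at h9
          exact h6 (top_le_iff.1 h9)
        · have hsidN := hN.sid hst'
          exact energy_contra hsid hsidN h3 hNs.1 (by rw [add_comm M N]; omega)

end Pool.Agent.N432.Atoms
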