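import Pool.Agent.N988.EC.Stm

/-!
# The bond overlap on hierarchical lattices: the expectation (project EC, C9)
-/

open MeasureTheory Set Filter
open scoped ENNReal Topology
open Pool.Agent.N988.EA Pool.Agent.N988.EZ Pool.Agent.N988.EC

namespace Pool.Agent.N432.EC

noncomputable section

theorem sg_sq (s : Bool) : sg s * sg s = 1 := by
  unfold sg
  split_ifs <;> norm_num

theorem sg_cases (s : Bool) : sg s = 1 ∨ sg s = -1 := by
  unfold sg
  split_ifs
  · exact Or.inl rfl
  · exact Or.inr rfl

theorem bond_cases {b n : ℕ} (σ : Pt b n → Bool) (e : Edge b n) : bond σ e = 1 ∨ bond σ e = -1 := by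
  unfold bond
  rcases sg_cases (σ (bd n e false)) with h | h <;>
    rcases sg_cases (σ (bd n e true)) with h' | h' <;> rw [h, h'] <;> norm_num

/-- ground states exist -/
theorem exists_gs {b n : ℕ} (J : Edge b n → ℝ) : ∃ σ : Pt b n → Bool, IsGS J σ := by
  obtain ⟨σ, hσ⟩ := Finite.exists_max (fun σ : Pt b n → Bool =>
    act J (fun t => σ (.inl t)) (fun x => σ (.inr x)))
  exact ⟨σ, fun s => hσ s⟩

theorem gb_of_dec {b n : ℕ} {J : Edge b n → ℝ} {e : Edge b n} {c : ℝ} (h : DecF e J c) :
    gb J e = c := by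
  obtain ⟨σ, hσ⟩ := exists_gs J
  have h1 := h σ hσ
  unfold gb
  split_ifs with h2
  · obtain ⟨σ', h3, h4⟩ := h2
    rw [← h4]
    exact h σ' h3
  · rcases bond_cases σ e with h5 | h5
    · exact absurd ⟨σ, hσ, h5⟩ h2
    · rw [← h5, h1]

theorem gb_cases {b n : ℕ} (J : Edge b n → ℝ) (e : Edge b n) : gb J e = 1 ∨ gb J e = -1 := by
  unfold gb
  split_ifs
  · exact Or.inl rfl
  · exact Or.inr rfl

theorem measurable_act {b n : ℕ} (τ : Bool → Bool) (σ : Vert b n → Bool) :
    Measurable (fun J : Edge b n → ℝ => act J τ σ) := by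
  unfold act
  refine Finset.measurable_fun_sum _ fun e _ => ?_
  exact ((measurable_pi_apply e).mul_const _).mul_const _

theorem measurable_gb {b n : ℕ} (e : Edge b n) : Measurable (fun J : Edge b n → ℝ => gb J e) := by
  classical
  unfold gb
  refine Measurable.ite ?_ measurable_const measurable_const
  have h1 : {J : Edge b n → ℝ | ∃ σ, IsGS J σ ∧ bond σ e = 1} =
      ⋃ σ : Pt b n → Bool, ({J | IsGS J σ} ∩ {_J | bond σ e = 1}) := by
    ext J
    simp
  rw [h1]
  refine MeasurableSet.iUnion fun σ => MeasurableSet.inter ?_ (MeasurableSet.const _)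
  have h2 : {J : Edge b n → ℝ | IsGS J σ} = ⋂ s : Pt b n → Bool,
      {J | act J (fun t => s (.inl t)) (fun x => s (.inr x)) ≤
        act J (fun t => σ (.inl t)) (fun x => σ (.inr x))} := by
    ext J
    simp [IsGS]
  rw [h2]
  exact MeasurableSet.iInter fun s => measurableSet_le (measurable_act _ _) (measurable_act _ _)

theorem t_EX : Pool.Agent.N988.EC.S_EX := by
  intro b n e Ω _ P _ X Y hX hY ε hε hP
  set A : Set Ω := {ω | ¬ ∃ c, DecF e (X ω) c ∧ DecF e (Y ω) c} with hA
  set A' := toMeasurable P A with hA'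
  have hAm : MeasurableSet A' := measurableSet_toMeasurable P A
  have hsub : A ⊆ A' := subset_toMeasurable P A
  have hPA : P A' = P A := measure_toMeasurable A
  have hfm : Measurable (fun ω => gb (X ω) e * gb (Y ω) e) :=
    ((measurable_gb e).comp hX).mul ((measurable_gb e).comp hY)
  have hfi : Integrable (fun ω => gb (X ω) e * gb (Y ω) e) P := by
    refine Integrable.of_bound hfm.aestronglyMeasurable 1 (Eventually.of_forall fun ω => ?_)
    rcases gb_cases (X ω) e with h | h <;> rcases gb_cases (Y ω) e with h' | h' <;>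
      rw [h, h'] <;> norm_num
  have hgi : Integrable (fun ω => 1 - A'.indicator (fun _ => (2 : ℝ)) ω) P :=
    (integrable_const 1).sub ((integrable_const (2 : ℝ)).indicator hAm)
  have hle : ∀ ω, 1 - A'.indicator (fun _ => (2 : ℝ)) ω ≤ gb (X ω) e * gb (Y ω) e := by
    intro ω
    by_cases hω : ω ∈ A'
    · rw [indicator_of_mem hω]
      rcases gb_cases (X ω) e with h | h <;> rcases gb_cases (Y ω) e with h' | h' <;>
        rw [h, h'] <;> norm_num
    · rw [indicator_of_notMem hω]
      have h1 : ω ∉ A := fun h => hω (hsub h)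
      have h2 : ∃ c, DecF e (X ω) c ∧ DecF e (Y ω) c := by
        by_contra hcon
        exact h1 hcon
      obtain ⟨c, hc, hc'⟩ := h2
      have h3 := gb_of_dec hc
      rw [gb_of_dec hc, gb_of_dec hc']
      rcases gb_cases (X ω) e with h | h <;> rw [← h3, h] <;> norm_num
  have h1 := integral_mono hgi hfi hle
  refine le_trans ?_ h1
  rw [integral_sub (integrable_const 1) ((integrable_const (2 : ℝ)).indicator hAm),
    integral_indicator hAm]
  simp only [integral_const, smul_eq_mul, Measure.real, Measure.restrict_apply_univ, measure_univ,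
    ENNReal.toReal_one, one_mul, hPA]
  have h2 : (P A).toReal ≤ ε := by
    have := ENNReal.toReal_mono ENNReal.ofReal_ne_top hP
    rwa [ENNReal.toReal_ofReal hε] at this
  linarith

end

end Pool.Agent.N432.EC
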