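import Mathlib

/-!
Flat maximal antichains: general part.
-/

set_option autoImplicit false

namespace Pool.Agent.N432.Flat

open Finset

/-- the `(l+1)`-subsets of `U` which contain a member of `F` -/
def up (U : Finset ℕ) (l : ℕ) (F : Finset (Finset ℕ)) : Finset (Finset ℕ) :=
  (U.powersetCard (l + 1)).filter fun X => ∃ A ∈ F, A ⊆ X

/-- every `l`-subset of `U` outside `F` is contained in an `(l+1)`-subset containing no member of
`F` -/
def Cov (U : Finset ℕ) (l : ℕ) (F : Finset (Finset ℕ)) : Prop :=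
  ∀ A ∈ U.powersetCard l, A ∉ F → ∃ X ∈ U.powersetCard (l + 1), A ⊆ X ∧ ∀ B ∈ F, ¬ B ⊆ X

/-- there is a family of `l`-sets leading to a flat maximal antichain with
`choose |U| (l+1) - δ` members -/
def R (U : Finset ℕ) (l δ : ℕ) : Prop :=
  ∃ F ⊆ U.powersetCard l, Cov U l F ∧ (up U l F).card = F.card + δ

theorem lift {U : Finset ℕ} {l δ r : ℕ} (hr : r ∉ U) (hl : l + 1 < U.card) (h : R U l δ) :
    R (insert r U) (l + 1) δ := by
  obtain ⟨F, hF, hcov, hcard⟩ := h
  have hFr : ∀ A ∈ F, r ∉ A := fun A hA h => hr ((mem_powersetCard.1 (hF hA)).1 h)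
  have hinj : Set.InjOn (insert r : Finset ℕ → Finset ℕ) {A | r ∉ A} := by
    intro A hA B hB hAB
    have h1 := congrArg (fun X => erase X r) hAB
    simp only [erase_insert hA, erase_insert hB] at h1
    exact h1
  refine ⟨F.image (insert r), ?_, ?_, ?_⟩
  · intro X hX
    obtain ⟨A, hA, rfl⟩ := mem_image.1 hX
    obtain ⟨h1, h2⟩ := mem_powersetCard.1 (hF hA)
    rw [mem_powersetCard]
    exact ⟨insert_subset_insert r h1, by rw [card_insert_of_notMem (hFr A hA), h2]⟩
  · intro A' hA' hA'F
    obtain ⟨h1, h2⟩ := mem_powersetCard.1 hA'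
    by_cases hrA : r ∈ A'
    · have h3 : A'.erase r ∈ U.powersetCard l := by
        rw [mem_powersetCard]
        refine ⟨?_, by rw [card_erase_of_mem hrA, h2]; rfl⟩
        intro x hx
        obtain ⟨hx1, hx2⟩ := mem_erase.1 hx
        exact (mem_insert.1 (h1 hx2)).resolve_left hx1
      have h4 : A'.erase r ∉ F := by
        intro h
        apply hA'F
        rw [mem_image]
        exact ⟨_, h, insert_erase hrA⟩
      obtain ⟨X, hX1, hX2, hX3⟩ := hcov _ h3 h4
      obtain ⟨hX4, hX5⟩ := mem_powersetCard.1 hX1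
      refine ⟨insert r X, ?_, ?_, ?_⟩
      · rw [mem_powersetCard]
        exact ⟨insert_subset_insert r hX4, by rw [card_insert_of_notMem (fun h => hr (hX4 h)), hX5]⟩
      · intro x hx
        by_cases hxr : x = r
        · rw [hxr]; exact mem_insert_self _ _
        · exact mem_insert_of_mem (hX2 (mem_erase.2 ⟨hxr, hx⟩))
      · intro B' hB' hsub
        obtain ⟨B, hB, rfl⟩ := mem_image.1 hB'
        apply hX3 B hB
        intro x hx
        have := hsub (mem_insert_of_mem hx)
        rcases mem_insert.1 this with h | h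
        · exact absurd (h ▸ hx) (hFr B hB)
        · exact h
    · have h3 : A' ⊆ U := by
        intro x hx
        rcases mem_insert.1 (h1 hx) with h | h
        · exact absurd (h ▸ hx) hrA
        · exact h
      obtain ⟨z, hz, hzA⟩ : ∃ z ∈ U, z ∉ A' := by
        by_contra hcon
        push Not at hcon
        have := card_le_card (fun x hx => hcon x hx : U ⊆ A')
        omega
      refine ⟨insert z A', ?_, subset_insert _ _, ?_⟩
      · rw [mem_powersetCard]
        refine ⟨?_, by rw [card_insert_of_notMem hzA, h2]⟩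
        exact insert_subset (mem_insert_of_mem hz) (h3.trans (subset_insert _ _))
      · intro B' hB' hsub
        obtain ⟨B, hB, rfl⟩ := mem_image.1 hB'
        rcases mem_insert.1 (hsub (mem_insert_self r B)) with h | h
        · exact hr (h ▸ hz)
        · exact hrA h
  · have h1 : up (insert r U) (l + 1) (F.image (insert r)) = (up U l F).image (insert r) := by
      ext X
      unfold up
      rw [mem_filter, mem_image]
      constructor
      · rintro ⟨hX, A', hA', hsub⟩
        obtain ⟨A, hA, rfl⟩ := mem_image.1 hA'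
        obtain ⟨h1, h2⟩ := mem_powersetCard.1 hX
        have hrX : r ∈ X := hsub (mem_insert_self _ _)
        refine ⟨X.erase r, ?_, insert_erase hrX⟩
        rw [mem_filter, mem_powersetCard]
        refine ⟨⟨?_, by rw [card_erase_of_mem hrX, h2]; rfl⟩, A, hA, ?_⟩
        · intro x hx
          obtain ⟨hx1, hx2⟩ := mem_erase.1 hx
          exact (mem_insert.1 (h1 hx2)).resolve_left hx1
        · intro x hx
          rw [mem_erase]
          exact ⟨fun h => hFr A hA (h ▸ hx), hsub (mem_insert_of_mem hx)⟩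
      · rintro ⟨Y, hY, rfl⟩
        rw [mem_filter, mem_powersetCard] at hY
        obtain ⟨⟨h1, h2⟩, A, hA, hsub⟩ := hY
        refine ⟨?_, insert r A, mem_image_of_mem _ hA, insert_subset_insert r hsub⟩
        rw [mem_powersetCard]
        exact ⟨insert_subset_insert r h1, by rw [card_insert_of_notMem (fun h => hr (h1 h)), h2]⟩
    rw [h1, card_image_of_injOn, card_image_of_injOn, hcard]
    · exact hinj.mono fun A hA => hFr A hA
    · refine hinj.mono fun A hA => ?_
      have hA' : A ∈ up U l F := hA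
      unfold up at hA'
      rw [mem_filter, mem_powersetCard] at hA'
      exact fun h => hr (hA'.1.1 h)

theorem lift_iter {N δ : ℕ} (hN : 4 ≤ N) (h : R (range N) 2 δ) (k : ℕ) :
    R (range (N + k)) (2 + k) δ := by
  induction k with
  | zero => exact h
  | succ k ih =>
    have := lift (r := N + k) (by simp) (by rw [card_range]; omega) ih
    rwa [← range_add_one] at this

/-- the antichain on the ground set `range n` -/
theorem antichain_of_R {n l δ : ℕ} (hln : l < n) (h : R (range n) l δ) :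
    ∃ A : Finset (Finset ℕ), (∀ X ∈ A, X ⊆ range n) ∧ (∀ X ∈ A, ∀ Y ∈ A, X ⊆ Y → X = Y) ∧
      (∀ X ⊆ range n, ∃ Y ∈ A, X ⊆ Y ∨ Y ⊆ X) ∧ (∀ X ∈ A, X.card = l ∨ X.card = l + 1) ∧
      A.card + δ = n.choose (l + 1) := by
  obtain ⟨F, hF, hcov, hcard⟩ := h
  have hup : up (range n) l F ⊆ (range n).powersetCard (l + 1) := filter_subset _ _
  have hFc : ∀ A ∈ F, A.card = l := fun A hA => (mem_powersetCard.1 (hF hA)).2
  have hmem : ∀ X ∈ (range n).powersetCard (l + 1) \ up (range n) l F,
      (X ⊆ range n ∧ X.card = l + 1) ∧ ∀ A ∈ F, ¬ A ⊆ X := by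
    intro X hX
    rw [mem_sdiff] at hX
    refine ⟨mem_powersetCard.1 hX.1, fun A hA hsub => hX.2 ?_⟩
    unfold up
    rw [mem_filter]
    exact ⟨hX.1, A, hA, hsub⟩
  refine ⟨F ∪ ((range n).powersetCard (l + 1) \ up (range n) l F), ?_, ?_, ?_, ?_, ?_⟩
  · intro X hX
    rcases mem_union.1 hX with hX | hX
    · exact (mem_powersetCard.1 (hF hX)).1
    · exact (hmem X hX).1.1
  · intro X hX Y hY hXY
    rcases mem_union.1 hX with hX | hX <;> rcases mem_union.1 hY with hY | hY
    · exact eq_of_subset_of_card_le hXY (by rw [hFc X hX, hFc Y hY])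
    · exact absurd hXY ((hmem Y hY).2 X hX)
    · have := card_le_card hXY
      rw [(hmem X hX).1.2, hFc Y hY] at this
      omega
    · exact eq_of_subset_of_card_le hXY (by rw [(hmem X hX).1.2, (hmem Y hY).1.2])
  · intro X hX
    -- every set of size l + 1 is fine
    have hbig : ∀ Z ∈ (range n).powersetCard (l + 1), ∃ Y ∈ F ∪ ((range n).powersetCard (l + 1) \
        up (range n) l F), Y ⊆ Z := by
      intro Z hZ
      by_cases hZu : Z ∈ up (range n) l F
      · unfold up at hZu
        rw [mem_filter] at hZu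
        obtain ⟨_, A, hA, hsub⟩ := hZu
        exact ⟨A, mem_union_left _ hA, hsub⟩
      · exact ⟨Z, mem_union_right _ (mem_sdiff.2 ⟨hZ, hZu⟩), subset_rfl⟩
    have hmid : ∀ Z ∈ (range n).powersetCard l, ∃ Y ∈ F ∪ ((range n).powersetCard (l + 1) \
        up (range n) l F), Z ⊆ Y := by
      intro Z hZ
      by_cases hZF : Z ∈ F
      · exact ⟨Z, mem_union_left _ hZF, subset_rfl⟩
      · obtain ⟨W, hW1, hW2, hW3⟩ := hcov Z hZ hZF
        refine ⟨W, mem_union_right _ (mem_sdiff.2 ⟨hW1, ?_⟩), hW2⟩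
        intro hWu
        unfold up at hWu
        rw [mem_filter] at hWu
        obtain ⟨_, A, hA, hsub⟩ := hWu
        exact hW3 A hA hsub
    rcases Nat.lt_or_ge l X.card with hc | hc
    · obtain ⟨Z, hZ1, hZ2⟩ := exists_subset_card_eq (s := X) (n := l + 1) hc
      obtain ⟨Y, hY1, hY2⟩ := hbig Z (mem_powersetCard.2 ⟨hZ1.trans hX, hZ2⟩)
      exact ⟨Y, hY1, Or.inr (hY2.trans hZ1)⟩
    · obtain ⟨Z, hZ1, hZ2, hZ3⟩ := exists_subsuperset_card_eq hX hc
        (by rw [card_range]; omega)
      obtain ⟨Y, hY1, hY2⟩ := hmid Z (mem_powersetCard.2 ⟨hZ2, hZ3⟩)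
      exact ⟨Y, hY1, Or.inl (hZ1.trans hY2)⟩
  · intro X hX
    rcases mem_union.1 hX with hX | hX
    · exact Or.inl (hFc X hX)
    · exact Or.inr (hmem X hX).1.2
  · have hdisj : Disjoint F ((range n).powersetCard (l + 1) \ up (range n) l F) := by
      rw [disjoint_left]
      intro X hX hX'
      have := (hmem X hX').1.2
      rw [hFc X hX] at this
      omega
    rw [card_union_of_disjoint hdisj, card_sdiff_of_subset hup, card_powersetCard, card_range]
    have := card_le_card hup
    rw [card_powersetCard, card_range] at this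
    omega

/-- transfer to subsets of `Fin n` -/
theorem transfer {n l k : ℕ} (h : ∃ A : Finset (Finset ℕ), (∀ X ∈ A, X ⊆ range n) ∧
      (∀ X ∈ A, ∀ Y ∈ A, X ⊆ Y → X = Y) ∧
      (∀ X ⊆ range n, ∃ Y ∈ A, X ⊆ Y ∨ Y ⊆ X) ∧ (∀ X ∈ A, X.card = l ∨ X.card = l + 1) ∧
      A.card = k) :
    ∃ A : Finset (Finset (Fin n)), IsAntichain (· ⊆ ·) (A : Set (Finset (Fin n))) ∧
      (∀ X : Finset (Fin n), X ∉ A → ∃ Y ∈ A, X ⊆ Y ∨ Y ⊆ X) ∧
      (∀ X ∈ A, X.card = l ∨ X.card = l + 1) ∧ A.card = k := by
  classical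
  obtain ⟨A, h1, h2, h3, h4, h5⟩ := h
  let e : Finset (Fin n) → Finset ℕ := fun X => X.map Fin.valEmbedding
  have he : Function.Injective e := Finset.map_injective _
  have hsub : ∀ X Y, e X ⊆ e Y ↔ X ⊆ Y := fun X Y => Finset.map_subset_map
  have hran : ∀ X, e X ⊆ range n := by
    intro X x hx
    obtain ⟨y, _, rfl⟩ := Finset.mem_map.1 hx
    simp
  have hsurj : ∀ X ⊆ range n, ∃ Y, e Y = X := by
    intro X hX
    refine ⟨univ.filter fun i : Fin n => (i : ℕ) ∈ X, ?_⟩
    ext x
    simp only [e, Finset.mem_map, mem_filter, mem_univ, true_and, Fin.valEmbedding_apply]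
    constructor
    · rintro ⟨i, hi, rfl⟩; exact hi
    · intro hx
      exact ⟨⟨x, mem_range.1 (hX hx)⟩, hx, rfl⟩
  refine ⟨univ.filter fun X => e X ∈ A, ?_, ?_, ?_, ?_⟩
  · intro X hX Y hY hne hXY
    simp only [coe_filter, mem_univ, true_and, Set.mem_ofPred_eq] at hX hY
    exact hne (he (h2 _ hX _ hY ((hsub X Y).2 hXY)))
  · intro X _
    obtain ⟨Y, hY, hXY⟩ := h3 (e X) (hran X)
    obtain ⟨Z, rfl⟩ := hsurj Y (h1 Y hY)
    refine ⟨Z, by simp [hY], ?_⟩
    rwa [hsub, hsub] at hXY
  · intro X hX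
    simp only [mem_filter, mem_univ, true_and] at hX
    have := h4 _ hX
    simpa [e] using this
  · rw [← h5]
    apply Finset.card_bij (fun X _ => e X)
    · intro X hX
      simpa using hX
    · intro X _ Y _ hXY
      exact he hXY
    · intro X hX
      obtain ⟨Y, rfl⟩ := hsurj X (h1 X hX)
      exact ⟨Y, by simp [hX], rfl⟩

end Pool.Agent.N432.Flat
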