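import Mathlib
import Pool.Agent.N432.Flat1

/-!
Flat maximal antichains: graphs on `range N`.
-/

set_option autoImplicit false

namespace Pool.Agent.N432.Flat

open Finset

theorem pair_eq {a b c d : ℕ} :
    ({a, b} : Finset ℕ) = {c, d} ↔ (a = c ∧ b = d) ∨ (a = d ∧ b = c) := by
  constructor
  · intro h
    have h1 : a ∈ ({c, d} : Finset ℕ) := h ▸ by simp
    have h2 : b ∈ ({c, d} : Finset ℕ) := h ▸ by simp
    have h3 : c ∈ ({a, b} : Finset ℕ) := h.symm ▸ by simp
    have h4 : d ∈ ({a, b} : Finset ℕ) := h.symm ▸ by simp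
    simp only [mem_insert, mem_singleton] at h1 h2 h3 h4
    omega
  · rintro (⟨rfl, rfl⟩ | ⟨rfl, rfl⟩)
    · rfl
    · exact Finset.pair_comm _ _

/-- `F` is a set of `t` pairs in `range N` and `(N-2) t - W` triples contain a member of `F` -/
def Q (N : ℕ) (F : Finset (Finset ℕ)) (t W : ℕ) : Prop :=
  F ⊆ (range N).powersetCard 2 ∧ F.card = t ∧ (up (range N) 2 F).card + W = (N - 2) * t

theorem Q_empty (N : ℕ) : Q N ∅ 0 0 := by
  refine ⟨empty_subset _, rfl, ?_⟩
  unfold up
  simp

/-- the vertices adjacent to `x` or to `y` -/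
def nb (N : ℕ) (F : Finset (Finset ℕ)) (x y : ℕ) : Finset ℕ :=
  (range N).filter fun z => z ≠ x ∧ z ≠ y ∧ ({x, z} ∈ F ∨ {y, z} ∈ F)

theorem sub_triple {B : Finset ℕ} {x y z : ℕ} (hB : B.card = 2) (_hxy : x ≠ y) (_hzx : z ≠ x)
    (_hzy : z ≠ y) (hsub : B ⊆ {x, y, z}) : B = {x, y} ∨ B = {x, z} ∨ B = {y, z} := by
  obtain ⟨p, q, hpq, rfl⟩ := card_eq_two.1 hB
  have hp : p ∈ ({x, y, z} : Finset ℕ) := hsub (by simp)
  have hq : q ∈ ({x, y, z} : Finset ℕ) := hsub (by simp)
  simp only [mem_insert, mem_singleton] at hp hq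
  rw [pair_eq, pair_eq, pair_eq]
  omega

theorem Q_insert {N t W w x y : ℕ} {F : Finset (Finset ℕ)} (h : Q N F t W) (hx : x < N)
    (hy : y < N) (hxy : x ≠ y) (hF : {x, y} ∉ F) (hw : (nb N F x y).card = w) :
    Q N (insert {x, y} F) (t + 1) (W + w) := by
  obtain ⟨h1, h2, h3⟩ := h
  refine ⟨?_, by rw [card_insert_of_notMem hF, h2], ?_⟩
  · apply insert_subset _ h1
    rw [mem_powersetCard]
    refine ⟨?_, card_pair hxy⟩
    intro z hz
    simp only [mem_insert, mem_singleton] at hz
    rw [mem_range]
    omega
  · have hFc : ∀ A ∈ F, A.card = 2 := fun A hA => (mem_powersetCard.1 (h1 hA)).2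
    -- the triples above the new pair
    let Y : Finset (Finset ℕ) := ((range N \ {x, y}).image fun z => {x, y, z})
    have hYinj : Set.InjOn (fun z => ({x, y, z} : Finset ℕ)) ((range N \ {x, y} : Finset ℕ) : Set ℕ) := by
      intro z hz z' hz' hzz
      simp only [coe_sdiff, coe_range, coe_insert, coe_singleton, Set.mem_sdiff, Set.mem_Iio,
        Set.mem_insert_iff, Set.mem_singleton_iff, not_or] at hz hz'
      have : z ∈ ({x, y, z'} : Finset ℕ) := by
        have : z ∈ ({x, y, z} : Finset ℕ) := by simp
        simpa only [hzz] using this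
      simp only [mem_insert, mem_singleton] at this
      omega
    have hYcard : Y.card = N - 2 := by
      rw [card_image_of_injOn hYinj, card_sdiff_of_subset, card_range, card_pair hxy]
      intro z hz
      simp only [mem_insert, mem_singleton] at hz
      rw [mem_range]
      omega
    have hinter : Y ∩ up (range N) 2 F = (nb N F x y).image fun z => {x, y, z} := by
      ext X
      rw [mem_inter, mem_image, mem_image]
      constructor
      · rintro ⟨⟨z, hz, rfl⟩, hX⟩
        unfold up at hX
        rw [mem_filter] at hX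
        obtain ⟨_, A, hA, hsub⟩ := hX
        simp only [mem_sdiff, mem_range, mem_insert, mem_singleton, not_or] at hz
        refine ⟨z, ?_, rfl⟩
        unfold nb
        rw [mem_filter, mem_range]
        refine ⟨hz.1, hz.2.1, hz.2.2, ?_⟩
        rcases sub_triple (hFc A hA) hxy hz.2.1 hz.2.2 hsub with h | h | h
        · exact absurd (h ▸ hA) hF
        · exact Or.inl (h ▸ hA)
        · exact Or.inr (h ▸ hA)
      · rintro ⟨z, hz, rfl⟩
        unfold nb at hz
        rw [mem_filter, mem_range] at hz
        obtain ⟨hzN, hzx, hzy, hor⟩ := hz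
        refine ⟨⟨z, by simp [hzN, hzx, hzy], rfl⟩, ?_⟩
        unfold up
        rw [mem_filter, mem_powersetCard]
        refine ⟨⟨?_, ?_⟩, ?_⟩
        · intro u hu
          simp only [mem_insert, mem_singleton] at hu
          rw [mem_range]
          omega
        · rw [card_eq_three]
          exact ⟨x, y, z, hxy, hzx.symm, hzy.symm, rfl⟩
        · rcases hor with h | h
          · refine ⟨_, h, ?_⟩
            intro u hu
            simp only [mem_insert, mem_singleton] at hu ⊢
            omega
          · refine ⟨_, h, ?_⟩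
            intro u hu
            simp only [mem_insert, mem_singleton] at hu ⊢
            omega
    have hinter_card : (Y ∩ up (range N) 2 F).card = w := by
      rw [hinter, card_image_of_injOn, hw]
      apply hYinj.mono
      intro z hz
      simp only [nb, coe_filter, mem_range, Set.mem_ofPred_eq] at hz
      simp only [coe_sdiff, coe_range, coe_insert, coe_singleton, Set.mem_sdiff, Set.mem_Iio,
        Set.mem_insert_iff, Set.mem_singleton_iff, not_or]
      exact ⟨hz.1, hz.2.1, hz.2.2.1⟩
    have hunion : up (range N) 2 (insert {x, y} F) = Y ∪ up (range N) 2 F := by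
      ext X
      unfold up
      rw [mem_union, mem_filter, mem_filter, mem_image]
      constructor
      · rintro ⟨hX, A, hA, hsub⟩
        rcases mem_insert.1 hA with hA | hA
        · left
          subst hA
          obtain ⟨hX1, hX2⟩ := mem_powersetCard.1 hX
          obtain ⟨z, hz, hzX⟩ : ∃ z, z ∉ ({x, y} : Finset ℕ) ∧ insert z {x, y} = X := by
            have := (covBy_iff_exists_insert (s := ({x, y} : Finset ℕ)) (t := X)).1 ?_
            · exact this
            · rw [covBy_iff_card_sdiff_eq_one]
              refine ⟨hsub, ?_⟩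
              rw [card_sdiff_of_subset hsub, hX2, card_pair hxy]
          refine ⟨z, ?_, ?_⟩
          · rw [mem_sdiff]
            exact ⟨hX1 (hzX ▸ mem_insert_self _ _), hz⟩
          · rw [← hzX]
            ext u
            simp only [mem_insert, mem_singleton]
            tauto
        · right
          exact ⟨hX, A, hA, hsub⟩
      · rintro (⟨z, hz, rfl⟩ | ⟨hX, A, hA, hsub⟩)
        · simp only [mem_sdiff, mem_range, mem_insert, mem_singleton, not_or] at hz
          refine ⟨?_, {x, y}, mem_insert_self _ _, ?_⟩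
          · rw [mem_powersetCard]
            refine ⟨?_, ?_⟩
            · intro u hu
              simp only [mem_insert, mem_singleton] at hu
              rw [mem_range]
              omega
            · rw [card_eq_three]
              exact ⟨x, y, z, hxy, hz.2.1 ∘ Eq.symm, hz.2.2 ∘ Eq.symm, rfl⟩
          · intro u hu
            simp only [mem_insert, mem_singleton] at hu ⊢
            tauto
        · exact ⟨hX, A, mem_insert_of_mem hA, hsub⟩
    have hc := card_union_add_card_inter Y (up (range N) 2 F)
    rw [← hunion, hYcard, hinter_card] at hc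
    have : (N - 2) * (t + 1) = (N - 2) * t + (N - 2) := by ring
    rw [this]
    omega

/-- degree -/
def dg (N : ℕ) (F : Finset (Finset ℕ)) (x : ℕ) : ℕ :=
  ((range N).filter fun z => z ≠ x ∧ {x, z} ∈ F).card

theorem cov_of_deg {N : ℕ} {F : Finset (Finset ℕ)} (hF : F ⊆ (range N).powersetCard 2)
    (h : ∀ x < N, ∀ y < N, x ≠ y → {x, y} ∉ F → dg N F x + dg N F y + 3 ≤ N) :
    Cov (range N) 2 F := by
  intro A hA hAF
  obtain ⟨hA1, hA2⟩ := mem_powersetCard.1 hA
  obtain ⟨x, y, hxy, rfl⟩ := card_eq_two.1 hA2
  have hx : x < N := mem_range.1 (hA1 (by simp))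
  have hy : y < N := mem_range.1 (hA1 (by simp))
  have hd := h x hx y hy hxy hAF
  obtain ⟨z, hz, hz'⟩ : ∃ z ∈ range N, z ∉ ({x, y} ∪ (((range N).filter fun z => z ≠ x ∧
      {x, z} ∈ F) ∪ ((range N).filter fun z => z ≠ y ∧ {y, z} ∈ F))) := by
    by_contra hcon
    push Not at hcon
    have h1 := card_le_card (fun x hx => hcon x hx : range N ⊆ _)
    have h2 := card_union_le ({x, y} : Finset ℕ) (((range N).filter fun z => z ≠ x ∧
      {x, z} ∈ F) ∪ ((range N).filter fun z => z ≠ y ∧ {y, z} ∈ F))
    have h3 := card_union_le ((range N).filter fun z => z ≠ x ∧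
      {x, z} ∈ F) ((range N).filter fun z => z ≠ y ∧ {y, z} ∈ F)
    rw [card_range] at h1
    rw [card_pair hxy] at h2
    unfold dg at hd
    omega
  have hzN := mem_range.1 hz
  simp only [mem_union, mem_insert, mem_singleton, mem_filter, mem_range, not_or, not_and] at hz'
  obtain ⟨⟨hzx, hzy⟩, hz1, hz2⟩ := hz'
  refine ⟨{x, y, z}, ?_, ?_, ?_⟩
  · rw [mem_powersetCard]
    refine ⟨?_, ?_⟩
    · intro u hu
      simp only [mem_insert, mem_singleton] at hu
      rw [mem_range]
      omega
    · rw [card_eq_three]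
      exact ⟨x, y, z, hxy, hzx ∘ Eq.symm, hzy ∘ Eq.symm, rfl⟩
  · intro u hu
    simp only [mem_insert, mem_singleton] at hu ⊢
    tauto
  · intro B hB hsub
    rcases sub_triple (mem_powersetCard.1 (hF hB)).2 hxy hzx hzy hsub with h | h | h
    · exact hAF (h ▸ hB)
    · exact hz1 hzN hzx (h ▸ hB)
    · exact hz2 hzN hzy (h ▸ hB)

theorem R_of_Q {N t W δ : ℕ} {F : Finset (Finset ℕ)} (hN : 3 ≤ N) (hQ : Q N F t W)
    (hδ : δ + W = (N - 3) * t) (hc : Cov (range N) 2 F) : R (range N) 2 δ := by
  obtain ⟨h1, h2, h3⟩ := hQ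
  refine ⟨F, h1, hc, ?_⟩
  obtain ⟨D, rfl⟩ : ∃ D, N = D + 3 := ⟨N - 3, by omega⟩
  have e1 : D + 3 - 2 = D + 1 := by omega
  have e2 : D + 3 - 3 = D := by omega
  rw [e1] at h3
  rw [e2] at hδ
  rw [h2]
  have : (D + 1) * t = D * t + t := by ring
  omega

/-! ### The star at `0` -/

/-- the star with centre `0` and leaves `1, ..., a` -/
def st : ℕ → Finset (Finset ℕ)
  | 0 => ∅
  | a + 1 => insert {0, a + 1} (st a)

theorem mem_st {a : ℕ} {e : Finset ℕ} : e ∈ st a ↔ ∃ i, 1 ≤ i ∧ i ≤ a ∧ e = {0, i} := by
  induction a with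
  | zero =>
    simp only [st, notMem_empty, false_iff, not_exists]
    omega
  | succ a ih =>
    rw [st, mem_insert, ih]
    constructor
    · rintro (rfl | ⟨i, h1, h2, rfl⟩)
      · exact ⟨a + 1, by omega, le_rfl, rfl⟩
      · exact ⟨i, h1, by omega, rfl⟩
    · rintro ⟨i, h1, h2, rfl⟩
      rcases Nat.lt_or_ge a i with h | h
      · left
        have : i = a + 1 := by omega
        rw [this]
      · exact Or.inr ⟨i, h1, h, rfl⟩

theorem pair_mem_st {a x y : ℕ} : ({x, y} : Finset ℕ) ∈ st a ↔
    (x = 0 ∧ 1 ≤ y ∧ y ≤ a) ∨ (y = 0 ∧ 1 ≤ x ∧ x ≤ a) := by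
  rw [mem_st]
  constructor
  · rintro ⟨i, h1, h2, h3⟩
    rw [pair_eq] at h3
    omega
  · rintro (⟨rfl, h1, h2⟩ | ⟨rfl, h1, h2⟩)
    · exact ⟨y, h1, h2, rfl⟩
    · exact ⟨x, h1, h2, Finset.pair_comm _ _⟩

theorem Q_st {N a : ℕ} (ha : a + 1 ≤ N) : Q N (st a) a (a.choose 2) := by
  induction a with
  | zero => exact Q_empty N
  | succ a ih =>
    have h := ih (by omega)
    have h1 : (a + 1).choose 2 = a.choose 2 + a := by
      have h2 := Nat.choose_succ_succ' a 1
      rw [Nat.choose_one_right] at h2
      show (a + 1).choose (1 + 1) = a.choose (1 + 1) + a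
      omega
    rw [h1, st]
    refine Q_insert h (by omega) (by omega) (by omega) ?_ ?_
    · rw [pair_mem_st]
      omega
    · have : nb N (st a) 0 (a + 1) = Icc 1 a := by
        ext z
        unfold nb
        rw [mem_filter, mem_range, pair_mem_st, pair_mem_st, mem_Icc]
        omega
      rw [this, Nat.card_Icc]
      omega

/-! ### The second star, with centre `a + 1` -/

/-- the `i`-th leaf of the second star -/
def lf (a c i : ℕ) : ℕ := if i < c then i + 1 else a + 2 + (i - c)

/-- two stars with `c` common leaves -/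
def st2 (a c : ℕ) : ℕ → Finset (Finset ℕ)
  | 0 => st a
  | b + 1 => insert {a + 1, lf a c b} (st2 a c b)

theorem lf_cases (a c i : ℕ) : (i < c ∧ lf a c i = i + 1) ∨ (c ≤ i ∧ lf a c i = a + 2 + (i - c)) := by
  unfold lf
  split_ifs with h
  · exact Or.inl ⟨h, rfl⟩
  · exact Or.inr ⟨by omega, rfl⟩

theorem lf_inj {a c i j : ℕ} (hc : c ≤ a) (h : lf a c i = lf a c j) : i = j := by
  rcases lf_cases a c i with h1 | h1 <;> rcases lf_cases a c j with h2 | h2 <;> omega

theorem pair_mem_st2 {a b c x y : ℕ} : ({x, y} : Finset ℕ) ∈ st2 a c b ↔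
    ((x = 0 ∧ 1 ≤ y ∧ y ≤ a) ∨ (y = 0 ∧ 1 ≤ x ∧ x ≤ a)) ∨
    ∃ i < b, (x = a + 1 ∧ y = lf a c i) ∨ (y = a + 1 ∧ x = lf a c i) := by
  induction b with
  | zero =>
    rw [st2, pair_mem_st]
    constructor
    · exact fun h => Or.inl h
    · rintro (h | ⟨i, hi, _⟩)
      · exact h
      · omega
  | succ b ih =>
    rw [st2, mem_insert, ih, pair_eq]
    constructor
    · rintro ((h | h) | h | ⟨i, hi, h⟩)
      · exact Or.inr ⟨b, by omega, Or.inl h⟩
      · exact Or.inr ⟨b, by omega, Or.inr ⟨h.2, h.1⟩⟩
      · exact Or.inl h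
      · exact Or.inr ⟨i, by omega, h⟩
    · rintro (h | ⟨i, hi, h⟩)
      · exact Or.inr (Or.inl h)
      · rcases Nat.lt_or_ge i b with h' | h'
        · exact Or.inr (Or.inr ⟨i, h', h⟩)
        · have : i = b := by omega
          subst this
          rcases h with h | h
          · exact Or.inl (Or.inl h)
          · exact Or.inl (Or.inr ⟨h.2, h.1⟩)

theorem Q_st2 {N a b c : ℕ} (ha : 1 ≤ a) (hca : c ≤ a) (hN : a + 2 + (b - c) ≤ N) :
    Q N (st2 a c b) (a + b) (a.choose 2 + b.choose 2 + min b c) := by
  induction b with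
  | zero =>
    have := Q_st (N := N) (a := a) (by omega)
    simpa [st2] using this
  | succ b ih =>
    have h := ih (by omega)
    have h1 : (b + 1).choose 2 = b.choose 2 + b := by
      have h2 := Nat.choose_succ_succ' b 1
      rw [Nat.choose_one_right] at h2
      show (b + 1).choose (1 + 1) = b.choose (1 + 1) + b
      omega
    have hl := lf_cases a c b
    have hne : a + 1 ≠ lf a c b := by omega
    have h2 : a.choose 2 + (b + 1).choose 2 + min (b + 1) c =
        (a.choose 2 + b.choose 2 + min b c) + (b + if b < c then 1 else 0) := by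
      rw [h1]
      split_ifs with hbc
      · rw [min_eq_left (by omega), min_eq_left (by omega)]; omega
      · rw [min_eq_right (by omega), min_eq_right (by omega)]; omega
    rw [h2, st2]
    refine Q_insert h (by omega) (by omega) hne ?_ ?_
    · rw [pair_mem_st2]
      rintro (h3 | ⟨i, hi, h3⟩)
      · omega
      · rcases h3 with h3 | h3
        · have := lf_inj hca h3.2
          omega
        · omega
    · have : nb N (st2 a c b) (a + 1) (lf a c b) =
          ((range b).image (lf a c)) ∪ (if b < c then {0} else ∅) := by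
        ext z
        unfold nb
        rw [mem_filter, mem_range, pair_mem_st2, pair_mem_st2, mem_union, mem_image]
        constructor
        · rintro ⟨hz, hz1, hz2, (h3 | h3)⟩
          · rcases h3 with h3 | ⟨i, hi, h3⟩
            · omega
            · left
              rcases h3 with h3 | h3
              · exact ⟨i, mem_range.2 hi, h3.2.symm⟩
              · omega
          · rcases h3 with h3 | ⟨i, hi, h3⟩
            · right
              have : b < c := by omega
              rw [if_pos this, mem_singleton]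
              omega
            · rcases h3 with h3 | h3
              · omega
              · have := lf_inj hca h3.2
                omega
        · rintro (⟨i, hi, rfl⟩ | h3)
          · rw [mem_range] at hi
            have hli := lf_cases a c i
            refine ⟨by omega, by omega, fun h => ?_, Or.inl (Or.inr ⟨i, hi, Or.inl ⟨rfl, rfl⟩⟩)⟩
            have := lf_inj hca h
            omega
          · split_ifs at h3 with hbc
            · rw [mem_singleton] at h3
              subst h3
              refine ⟨by omega, by omega, by omega, Or.inr (Or.inl (Or.inr ⟨rfl, by omega, by omega⟩))⟩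
            · exact absurd h3 (notMem_empty _)
      rw [this, card_union_of_disjoint, card_image_of_injOn, card_range]
      · split_ifs <;> simp
      · intro i _ j _ hij
        exact lf_inj hca hij
      · rw [disjoint_left]
        intro z hz hz'
        obtain ⟨i, hi, rfl⟩ := mem_image.1 hz
        have hli := lf_cases a c i
        split_ifs at hz' with hbc
        · rw [mem_singleton] at hz'
          omega
        · exact absurd hz' (notMem_empty _)

/-! ### Matchings on new vertices -/

/-- add a matching with `k` edges on the vertices `s, s + 1, ...` -/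
def mt (F : Finset (Finset ℕ)) (s : ℕ) : ℕ → Finset (Finset ℕ)
  | 0 => F
  | k + 1 => insert {s + 2 * k, s + 2 * k + 1} (mt F s k)

theorem pair_mem_mt {F : Finset (Finset ℕ)} {s k x y : ℕ} : ({x, y} : Finset ℕ) ∈ mt F s k ↔
    {x, y} ∈ F ∨ ∃ i < k, (x = s + 2 * i ∧ y = s + 2 * i + 1) ∨ (y = s + 2 * i ∧ x = s + 2 * i + 1) := by
  induction k with
  | zero =>
    rw [mt]
    constructor
    · exact fun h => Or.inl h
    · rintro (h | ⟨i, hi, _⟩)
      · exact h
      · omega
  | succ k ih =>
    rw [mt, mem_insert, ih, pair_eq]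
    constructor
    · rintro ((h | h) | h | ⟨i, hi, h⟩)
      · exact Or.inr ⟨k, by omega, Or.inl h⟩
      · exact Or.inr ⟨k, by omega, Or.inr ⟨h.2, h.1⟩⟩
      · exact Or.inl h
      · exact Or.inr ⟨i, by omega, h⟩
    · rintro (h | ⟨i, hi, h⟩)
      · exact Or.inr (Or.inl h)
      · rcases Nat.lt_or_ge i k with h' | h'
        · exact Or.inr (Or.inr ⟨i, h', h⟩)
        · have : i = k := by omega
          subst this
          rcases h with h | h
          · exact Or.inl (Or.inl h)
          · exact Or.inl (Or.inr ⟨h.2, h.1⟩)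

theorem Q_mt {N t W s k : ℕ} {F : Finset (Finset ℕ)} (h : Q N F t W)
    (hs : ∀ x y, ({x, y} : Finset ℕ) ∈ F → x < s) (hN : s + 2 * k ≤ N) :
    Q N (mt F s k) (t + k) W := by
  induction k with
  | zero => exact h
  | succ k ih =>
    have h1 := ih (by omega)
    rw [mt, ← add_assoc, ← Nat.add_zero W]
    refine Q_insert h1 (by omega) (by omega) (by omega) ?_ ?_
    · rw [pair_mem_mt]
      rintro (h2 | ⟨i, hi, h2⟩)
      · have := hs _ _ h2
        omega
      · omega
    · rw [card_eq_zero]
      unfold nb
      rw [filter_eq_empty_iff]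
      rintro z _ ⟨h2, h3, h4⟩
      rw [pair_mem_mt, pair_mem_mt] at h4
      rcases h4 with (h4 | ⟨i, hi, h4⟩) | (h4 | ⟨i, hi, h4⟩)
      · have := hs _ _ h4
        omega
      · omega
      · have := hs _ _ h4
        omega
      · omega

/-! ### Paths -/

/-- the path `0, 1, ..., k` -/
def pa : ℕ → Finset (Finset ℕ)
  | 0 => ∅
  | k + 1 => insert {k, k + 1} (pa k)

theorem pair_mem_pa {k x y : ℕ} : ({x, y} : Finset ℕ) ∈ pa k ↔
    (y = x + 1 ∧ x < k) ∨ (x = y + 1 ∧ y < k) := by
  induction k with
  | zero => simp [pa]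
  | succ k ih =>
    rw [pa, mem_insert, ih, pair_eq]
    omega

theorem Q_pa {N k : ℕ} (hN : k + 1 ≤ N) : Q N (pa k) k (k - 1) := by
  induction k with
  | zero => exact Q_empty N
  | succ k ih =>
    have h := ih (by omega)
    have e : k + 1 - 1 = (k - 1) + (if k = 0 then 0 else 1) := by
      split_ifs <;> omega
    rw [e, pa]
    refine Q_insert h (by omega) (by omega) (by omega) ?_ ?_
    · rw [pair_mem_pa]
      omega
    · have : nb N (pa k) k (k + 1) = if k = 0 then ∅ else {k - 1} := by
        ext z
        unfold nb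
        rw [mem_filter, mem_range, pair_mem_pa, pair_mem_pa]
        split_ifs with hk
        · simp only [notMem_empty, iff_false]
          omega
        · rw [mem_singleton]
          omega
      rw [this]
      split_ifs <;> rfl

end Pool.Agent.N432.Flat
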