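import Mathlib
import Pool.Agent.N432.Flat2

/-!
Flat maximal antichains: the constructions and the arithmetic.
-/

set_option autoImplicit false

namespace Pool.Agent.N432.Flat

open Finset

theorem dg_le {N x k : ℕ} {F : Finset (Finset ℕ)} (S : Finset ℕ) (hS : S.card ≤ k)
    (h : ∀ z, z ≠ x → ({x, z} : Finset ℕ) ∈ F → z ∈ S) : dg N F x ≤ k := by
  refine le_trans (card_le_card ?_) hS
  intro z hz
  rw [mem_filter] at hz
  exact h z hz.2.1 hz.2.2

theorem cov_st {N a : ℕ} (hN : 5 ≤ N) (ha : a + 3 ≤ N ∨ a + 1 = N) : Cov (range N) 2 (st a) := by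
  refine cov_of_deg (Q_st (N := N) (a := a) (by omega)).1 ?_
  have h0 : dg N (st a) 0 ≤ a := dg_le (Icc 1 a) (by rw [Nat.card_Icc]; omega) (by
    intro z _ h
    rw [pair_mem_st] at h
    rw [mem_Icc]
    omega)
  have h1 : ∀ x, x ≠ 0 → dg N (st a) x ≤ 1 := fun x hx => dg_le {0} (by simp) (by
    intro z _ h
    rw [pair_mem_st] at h
    rw [mem_singleton]
    omega)
  have h2 : ∀ x, a < x → dg N (st a) x ≤ 0 := fun x hx => dg_le ∅ (by simp) (by
    intro z _ h
    rw [pair_mem_st] at h
    omega)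
  intro x hx y hy hxy hF
  rw [pair_mem_st] at hF
  by_cases hx0 : x = 0
  · subst hx0
    have := h2 y (by omega)
    omega
  · by_cases hy0 : y = 0
    · subst hy0
      have := h2 x (by omega)
      omega
    · have e1 := h1 x hx0
      have e2 := h1 y hy0
      omega

theorem cov_mt_st {N a k : ℕ} (hN : 7 ≤ N) (ha : a + 5 ≤ N) (hk : a + 1 + 2 * k ≤ N) :
    Cov (range N) 2 (mt (st a) (a + 1) k) := by
  have hs : ∀ x y, ({x, y} : Finset ℕ) ∈ st a → x < a + 1 := by
    intro x y h
    rw [pair_mem_st] at h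
    omega
  refine cov_of_deg (Q_mt (Q_st (N := N) (a := a) (by omega)) hs hk).1 ?_
  have h0 : dg N (mt (st a) (a + 1) k) 0 ≤ a :=
    dg_le (Icc 1 a) (by rw [Nat.card_Icc]; omega) (by
      intro z _ h
      rw [pair_mem_mt, pair_mem_st] at h
      rw [mem_Icc]
      rcases h with h | ⟨i, _, h⟩ <;> omega)
  have h1 : ∀ x, x ≠ 0 → dg N (mt (st a) (a + 1) k) x ≤ 2 := by
    intro x hx
    by_cases hxs : x < a + 1
    · refine dg_le {0} (by simp) ?_
      intro z _ h
      rw [pair_mem_mt, pair_mem_st] at h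
      rw [mem_singleton]
      rcases h with h | ⟨i, _, h⟩ <;> omega
    · refine dg_le {x - 1, x + 1} (card_le_two) ?_
      intro z _ h
      rw [pair_mem_mt, pair_mem_st] at h
      rw [mem_insert, mem_singleton]
      rcases h with h | ⟨i, _, h⟩ <;> omega
  intro x hx y hy hxy _
  by_cases hx0 : x = 0
  · subst hx0
    have := h1 y (by omega)
    omega
  · by_cases hy0 : y = 0
    · subst hy0
      have := h1 x (by omega)
      omega
    · have e1 := h1 x hx0
      have e2 := h1 y hy0
      omega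

theorem cov_mt_st2 {N a b c k : ℕ} (hN : 7 ≤ N) (ha1 : 1 ≤ a) (hca : c ≤ a) (hba : b ≤ a)
    (ha : a + 5 ≤ N) (hab : a + b + 3 ≤ N) (hk : a + 2 + (b - c) + 2 * k ≤ N) :
    Cov (range N) 2 (mt (st2 a c b) (a + 2 + (b - c)) k) := by
  have hs : ∀ x y, ({x, y} : Finset ℕ) ∈ st2 a c b → x < a + 2 + (b - c) := by
    intro x y h
    rw [pair_mem_st2] at h
    rcases h with h | ⟨i, hi, h⟩
    · omega
    · have := lf_cases a c i
      omega
  refine cov_of_deg (Q_mt (Q_st2 (N := N) ha1 hca (by omega)) hs hk).1 ?_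
  have h0 : dg N (mt (st2 a c b) (a + 2 + (b - c)) k) 0 ≤ a :=
    dg_le (Icc 1 a) (by rw [Nat.card_Icc]; omega) (by
      intro z _ h
      rw [pair_mem_mt, pair_mem_st2] at h
      rw [mem_Icc]
      rcases h with (h | ⟨i, hi, h⟩) | ⟨i, _, h⟩
      · omega
      · have := lf_cases a c i
        omega
      · omega)
  have hv : dg N (mt (st2 a c b) (a + 2 + (b - c)) k) (a + 1) ≤ b :=
    dg_le ((range b).image (lf a c)) (card_image_le.trans (by rw [card_range])) (by
      intro z _ h
      rw [pair_mem_mt, pair_mem_st2] at h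
      rw [mem_image]
      rcases h with (h | ⟨i, hi, h⟩) | ⟨i, _, h⟩
      · omega
      · have := lf_cases a c i
        exact ⟨i, mem_range.2 hi, by omega⟩
      · omega)
  have h1 : ∀ x, x ≠ 0 → x ≠ a + 1 → dg N (mt (st2 a c b) (a + 2 + (b - c)) k) x ≤ 2 := by
    intro x hx hx'
    by_cases hxs : x < a + 2 + (b - c)
    · refine dg_le {0, a + 1} (card_le_two) ?_
      intro z _ h
      rw [pair_mem_mt, pair_mem_st2] at h
      rw [mem_insert, mem_singleton]
      rcases h with (h | ⟨i, hi, h⟩) | ⟨i, _, h⟩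
      · omega
      · omega
      · omega
    · refine dg_le {x - 1, x + 1} (card_le_two) ?_
      intro z _ h
      rw [pair_mem_mt, pair_mem_st2] at h
      rw [mem_insert, mem_singleton]
      rcases h with (h | ⟨i, hi, h⟩) | ⟨i, _, h⟩
      · omega
      · have := lf_cases a c i
        omega
      · omega
  intro x hx y hy hxy _
  by_cases hx0 : x = 0
  · subst hx0
    by_cases hyv : y = a + 1
    · subst hyv
      omega
    · have := h1 y (by omega) hyv
      omega
  · by_cases hxv : x = a + 1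
    · subst hxv
      by_cases hy0 : y = 0
      · subst hy0
        omega
      · have := h1 y hy0 (by omega)
        omega
    · have e1 := h1 x hx0 hxv
      by_cases hy0 : y = 0
      · subst hy0
        omega
      · by_cases hyv : y = a + 1
        · subst hyv
          omega
        · have e2 := h1 y hy0 hyv
          omega

theorem cov_pa {N k : ℕ} (hN : 7 ≤ N) (hk : k + 1 ≤ N) : Cov (range N) 2 (pa k) := by
  refine cov_of_deg (Q_pa hk).1 ?_
  have h1 : ∀ x, dg N (pa k) x ≤ 2 := by
    intro x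
    refine dg_le {x - 1, x + 1} (card_le_two) ?_
    intro z _ h
    rw [pair_mem_pa] at h
    rw [mem_insert, mem_singleton]
    omega
  intro x _ y _ _ _
  have e1 := h1 x
  have e2 := h1 y
  omega

/-! ### Arithmetic -/

/-- If `2 W ≤ s (s - 1)` then the construction has room. -/
theorem fit {D t g W s : ℤ} (hD : 0 < D) (ht : t ≤ D + 2) (hg : 2 * g ≤ D) (hs : 1 ≤ s)
    (hW : 2 * W ≤ s * (s - 1)) (h : D * t - W < D * (g + 1)) : 2 * t ≤ D + 2 + s := by
  by_contra hcon
  push Not at hcon
  obtain ⟨σ, hσ⟩ : ∃ σ, σ = 2 * t - D - 3 := ⟨_, rfl⟩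
  have h1 : s ≤ σ := by omega
  have h2 : σ ≤ D + 1 := by omega
  have h3 : s * (s - 1) ≤ σ * (σ - 1) := by nlinarith
  have h4 : D * (σ + 1) ≤ 2 * (D * (t - g - 1)) := by
    have : D * (σ + 1) ≤ D * (2 * (t - g - 1)) := mul_le_mul_of_nonneg_left (by omega) hD.le
    linarith
  have h5 : σ * (σ - 1) ≤ D * σ := by nlinarith
  nlinarith

theorem region0 {D t g A a : ℤ} (hD : 4 ≤ D) (hg : 2 * g ≤ D) (hA : 2 * A = a * a - a)
    (hat : a + 1 ≤ t) (htD : t ≤ D + 2) (h : D * t - A < D * (g + 1)) : a + 2 ≤ D := by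
  by_contra hcon
  push Not at hcon
  have h1 : D * (2 * (a + 1)) ≤ D * (2 * t) := mul_le_mul_of_nonneg_left (by omega) (by omega)
  have h2 : D * (2 * (g + 1)) ≤ D * (D + 2) := mul_le_mul_of_nonneg_left (by omega) (by omega)
  have h3 : a = D - 1 ∨ a = D ∨ a = D + 1 := by omega
  rcases h3 with rfl | rfl | rfl <;> nlinarith

theorem region1 {D t g A B a b c : ℤ} (hD : 4 ≤ D) (hg : 2 * g ≤ D) (hA : 2 * A = a * a - a)
    (hB : 2 * B = b * b - b) (hb : 1 ≤ b) (hba : b ≤ a) (hcb : c ≤ b)
    (hab : a + b ≤ t) (htD : t ≤ D + 2) (h : D * t - (A + B + c) < D * (g + 1)) :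
    a + b ≤ D ∧ a + 2 ≤ D := by
  have h1 : D * (2 * (a + b)) ≤ D * (2 * t) := mul_le_mul_of_nonneg_left (by omega) (by omega)
  have h2 : D * (2 * (g + 1)) ≤ D * (D + 2) := mul_le_mul_of_nonneg_left (by omega) (by omega)
  have key : 0 ≤ (b - 1) * (a - 2) := by
    rcases eq_or_lt_of_le hb with hb1 | hb1
    · rw [← hb1]; simp
    · exact mul_nonneg (by omega) (by omega)
  have h3 : a + b ≤ D := by
    by_contra hcon
    push Not at hcon
    have h4 : a + b = D + 1 ∨ a + b = D + 2 := by omega
    rcases h4 with h4 | h4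
    · have h5 : a = D + 1 - b := by omega
      subst h5
      nlinarith
    · have h5 : a = D + 2 - b := by omega
      subst h5
      nlinarith
  refine ⟨h3, ?_⟩
  by_contra hcon
  push Not at hcon
  have h4 : b = 1 ∧ a = D - 1 := by omega
  obtain ⟨rfl, rfl⟩ := h4
  nlinarith

theorem two_choose (a : ℕ) : 2 * ((a.choose 2 : ℕ) : ℤ) = (a : ℤ) * a - a := by
  rcases Nat.eq_zero_or_pos a with h | h
  · subst h; simp
  · have h1 : a.choose 2 * 2 = a * (a - 1) := by
      rw [Nat.choose_two_right, Nat.div_mul_cancel]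
      exact (Nat.even_mul_pred_self a).two_dvd
    have h2 : ((a - 1 : ℕ) : ℤ) = (a : ℤ) - 1 := by omega
    have h3 : ((a.choose 2 * 2 : ℕ) : ℤ) = ((a * (a - 1) : ℕ) : ℤ) := by rw [h1]
    push_cast [h2] at h3
    linarith

theorem star_R {D a δ : ℕ} (hD : 2 ≤ D) (ha : a ≤ D ∨ a = D + 2)
    (hδ : δ + a.choose 2 = D * a) : R (range (D + 3)) 2 δ := by
  have h1 : Q (D + 3) (st a) a (a.choose 2) := Q_st (by omega)
  have h2 : Cov (range (D + 3)) 2 (st a) := cov_st (by omega) (by omega)
  exact R_of_Q (by omega) h1 (by rw [Nat.add_sub_cancel]; exact hδ) h2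

theorem wbound {A B a b c : ℤ} (hA : 2 * A = a * a - a) (hB : 2 * B = b * b - b) (ha : 1 ≤ a)
    (hb : 1 ≤ b) (hc : 0 ≤ c) (hcb : c ≤ b) :
    2 * (A + B + c) ≤ (a + b + c - 1) * (a + b + c - 1 - 1) := by
  rcases eq_or_lt_of_le hc with h | h
  · subst h
    nlinarith [mul_nonneg (sub_nonneg.2 ha) (sub_nonneg.2 hb)]
  · have h1 : 0 ≤ (a - 1) * b := mul_nonneg (by omega) (by omega)
    have h2 : 0 ≤ (c - 1) * (2 * (a + b) + c - 2) := mul_nonneg (by omega) (by omega)
    nlinarith [h1, h2]

theorem key (D t a b c δ : ℕ) (hD : 2 ≤ D) (ht : t ≤ D + 2) (hba : b ≤ a) (hcb : c ≤ b)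
    (h1 : 1 ≤ a + b) (hab : a + b ≤ t)
    (hδ : δ + (a.choose 2 + b.choose 2 + c) = D * t) (hδT : δ < D * (D / 2 + 1)) :
    R (range (D + 3)) 2 δ := by
  rcases Nat.lt_or_ge D 4 with hD4 | hD4
  · -- the cases `D = 2` and `D = 3`
    have hcase : δ = D ∨ δ + 1 = 2 * D := by
      have hD' : D = 2 ∨ D = 3 := by omega
      have ht5 : t ≤ 5 := by omega
      have ha5 : a ≤ 5 := by omega
      have hb5 : b ≤ 5 := by omega
      rcases hD' with rfl | rfl
      · have ht4 : t ≤ 4 := by omega
        have ha4 : a ≤ 4 := by omega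
        have hb4 : b ≤ 4 := by omega
        interval_cases a <;> interval_cases b <;> simp [Nat.choose] at * <;> omega
      · interval_cases a <;> interval_cases b <;> simp [Nat.choose] at * <;> omega
    rcases hcase with h | h
    · exact star_R (a := 1) hD (by omega) (by simp; omega)
    · exact star_R (a := 2) hD (by omega) (by simp; omega)
  · have hδ' : (D : ℤ) * t - (((a.choose 2 : ℕ) : ℤ) + ((b.choose 2 : ℕ) : ℤ) + c) <
        D * (((D / 2 : ℕ) : ℤ) + 1) := by
      have e1 : ((δ + (a.choose 2 + b.choose 2 + c) : ℕ) : ℤ) = ((D * t : ℕ) : ℤ) := by rw [hδ]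
      have e2 : ((δ : ℕ) : ℤ) < ((D * (D / 2 + 1) : ℕ) : ℤ) := by exact_mod_cast hδT
      push_cast at e1 e2 ⊢
      linarith
    have hg : 2 * ((D / 2 : ℕ) : ℤ) ≤ D := by omega
    have hDz : (4 : ℤ) ≤ D := by exact_mod_cast hD4
    have htz : (t : ℤ) ≤ D + 2 := by exact_mod_cast ht
    have hA := two_choose a
    have hB := two_choose b
    rcases Nat.eq_zero_or_pos b with hb | hb
    · subst hb
      have hc : c = 0 := by omega
      subst hc
      have e0 : ((Nat.choose 0 2 : ℕ) : ℤ) = 0 := by simp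
      have hδ2 : δ + a.choose 2 = D * t := by simpa using hδ
      rw [e0] at hδ'
      have hδ3 : (D : ℤ) * t - ((a.choose 2 : ℕ) : ℤ) < D * (((D / 2 : ℕ) : ℤ) + 1) := by
        push_cast at hδ' ⊢
        linarith
      rcases Nat.eq_or_lt_of_le (show a ≤ t by omega) with hat | hat
      · subst hat
        by_cases ha : a = D + 1
        · -- the exceptional case
          subst ha
          have e1 : δ * 2 = D * (D + 1) := by
            have h5 : ((δ + (D + 1).choose 2 : ℕ) : ℤ) = ((D * (D + 1) : ℕ) : ℤ) := by rw [hδ2]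
            push_cast at h5 hA
            have h6 : ((δ * 2 : ℕ) : ℤ) = ((D * (D + 1) : ℕ) : ℤ) := by
              push_cast
              nlinarith
            exact_mod_cast h6
          rcases Nat.even_or_odd' D with ⟨w, hw | hw⟩
          · subst hw
            have e3 : 2 * w / 2 = w := by omega
            have e4 : δ = w * (2 * w + 1) := by nlinarith
            refine R_of_Q (F := pa (w + 1)) (t := w + 1) (W := w + 1 - 1) (by omega)
              (Q_pa (by omega)) ?_ (cov_pa (by omega) (by omega))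
            rw [Nat.add_sub_cancel, Nat.add_sub_cancel, e4]
            ring
          · exfalso
            subst hw
            have e3 : (2 * w + 1) / 2 = w := by omega
            rw [e3] at hδT
            nlinarith
        · exact star_R hD (by omega) hδ2
      · have hr := region0 (D := D) (t := t) (g := ((D / 2 : ℕ) : ℤ)) (a := a) hDz hg hA
          (by exact_mod_cast hat) htz hδ3
        have hf := fit (D := D) (t := t) (g := ((D / 2 : ℕ) : ℤ)) (s := a) (by omega) htz hg
          (by exact_mod_cast (show 1 ≤ a by omega)) (by rw [hA]; ring_nf; exact le_rfl) hδ3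
        obtain ⟨k, hk⟩ : ∃ k, t = a + k := ⟨t - a, by omega⟩
        subst hk
        have hs : ∀ x y, ({x, y} : Finset ℕ) ∈ st a → x < a + 1 := by
          intro x y h
          rw [pair_mem_st] at h
          omega
        have hroom : a + 1 + 2 * k ≤ D + 3 := by
          push_cast at hf
          omega
        exact R_of_Q (by omega) (Q_mt (Q_st (N := D + 3) (by omega)) hs hroom)
          (by rw [Nat.add_sub_cancel]; exact hδ2)
          (cov_mt_st (by omega) (by omega) hroom)
    · have hr := region1 (D := D) (t := t) (g := ((D / 2 : ℕ) : ℤ)) (a := a) (b := b) (c := c) hDz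
        hg hA hB (by exact_mod_cast hb) (by exact_mod_cast hba) (by exact_mod_cast hcb)
        (by exact_mod_cast hab) htz hδ'
      have hW : 2 * (((a.choose 2 : ℕ) : ℤ) + ((b.choose 2 : ℕ) : ℤ) + c) ≤
          ((a : ℤ) + b + c - 1) * ((a : ℤ) + b + c - 1 - 1) :=
        wbound hA hB (by exact_mod_cast (show 1 ≤ a by omega)) (by exact_mod_cast hb)
          (by omega) (by exact_mod_cast hcb)
      have hf := fit (D := D) (t := t) (g := ((D / 2 : ℕ) : ℤ)) (s := (a : ℤ) + b + c - 1)
        (by omega) htz hg (by omega) hW hδ'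
      obtain ⟨k, hk⟩ : ∃ k, t = a + b + k := ⟨t - (a + b), by omega⟩
      subst hk
      have hroom : a + 2 + (b - c) + 2 * k ≤ D + 3 := by
        push_cast at hf
        omega
      have hs : ∀ x y, ({x, y} : Finset ℕ) ∈ st2 a c b → x < a + 2 + (b - c) := by
        intro x y h
        rw [pair_mem_st2] at h
        rcases h with h | ⟨i, hi, h⟩
        · omega
        · have := lf_cases a c i
          omega
      have hQ := Q_mt (Q_st2 (N := D + 3) (a := a) (b := b) (c := c) (by omega) (by omega)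
        (by omega)) hs hroom
      rw [min_eq_right hcb] at hQ
      exact R_of_Q (by omega) hQ (by rw [Nat.add_sub_cancel]; exact hδ)
        (cov_mt_st2 (by omega) (by omega) (by omega) hba (by omega) (by omega) hroom)

end Pool.Agent.N432.Flat
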