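import Mathlib

/-!
Definitions: `r`-neighbour bootstrap percolation and the strong product of two paths.
-/

set_option autoImplicit false

namespace Pool.Agent.N432.KingBoot

/-- The strong product `P_m ⊠ P_n` of two paths. -/
def strongGrid (m n : ℕ) : SimpleGraph (Fin m × Fin n) where
  Adj u v := u ≠ v ∧ |((u.1 : ℕ) : ℤ) - ((v.1 : ℕ) : ℤ)| ≤ 1 ∧
    |((u.2 : ℕ) : ℤ) - ((v.2 : ℕ) : ℤ)| ≤ 1
  symm := ⟨fun u v h => ⟨h.1.symm, by rw [abs_sub_comm]; exact h.2.1,
    by rw [abs_sub_comm]; exact h.2.2⟩⟩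
  loopless := ⟨fun u h => h.1 rfl⟩

/-- One round of `r`-neighbour bootstrap percolation on `G`. -/
def step {V : Type} (G : SimpleGraph V) (r : ℕ) (A : Set V) : Set V :=
  A ∪ {v | r ≤ (G.neighborSet v ∩ A).ncard}

/-- The set `A` fully infects `G`. -/
def FullyInfects {V : Type} (G : SimpleGraph V) (r : ℕ) (A : Set V) : Prop :=
  ⋃ t : ℕ, (step G r)^[t] A = Set.univ

end Pool.Agent.N432.KingBoot
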