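import Mathlib
import Pool.Agent.N432.KingDefs

/-!
Three-neighbour bootstrap percolation on the strong product of two paths.
-/

set_option autoImplicit false

namespace Pool.Agent.N432.KingBoot

section general

variable {V : Type} [Finite V] (G : SimpleGraph V) (r : ℕ) (A : Set V)

theorem subset_iter (t : ℕ) : (step G r)^[t] A ⊆ (step G r)^[t + 1] A := by
  rw [Function.iterate_succ_apply']
  exact Set.subset_union_left

theorem mono_iter {s t : ℕ} (h : s ≤ t) : (step G r)^[s] A ⊆ (step G r)^[t] A := by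
  induction h with
  | refl => exact subset_rfl
  | step _ ih => exact ih.trans (subset_iter G r A _)

/-- a closed set containing `A` contains all infected vertices -/
theorem iter_subset {C : Set V} (hAC : A ⊆ C)
    (hC : ∀ v, v ∉ C → (G.neighborSet v ∩ C).ncard < r) (t : ℕ) : (step G r)^[t] A ⊆ C := by
  induction t with
  | zero => exact hAC
  | succ t ih =>
    rw [Function.iterate_succ_apply']
    intro v hv
    rcases hv with hv | hv
    · exact ih hv
    · by_contra hvC
      have h1 := hC v hvC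
      have h2 : (G.neighborSet v ∩ (step G r)^[t] A).ncard ≤ (G.neighborSet v ∩ C).ncard :=
        Set.ncard_le_ncard (Set.inter_subset_inter_right _ ih) (Set.toFinite _)
      have h3 : r ≤ (G.neighborSet v ∩ (step G r)^[t] A).ncard := hv
      omega

theorem not_fullyInfects {C : Set V} (hAC : A ⊆ C)
    (hC : ∀ v, v ∉ C → (G.neighborSet v ∩ C).ncard < r) (hne : C ≠ Set.univ) :
    ¬ FullyInfects G r A := by
  intro h
  apply hne
  rw [Set.eq_univ_iff_forall]
  intro v
  have hv : v ∈ ⋃ t : ℕ, (step G r)^[t] A := by rw [h]; trivial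
  obtain ⟨t, ht⟩ := Set.mem_iUnion.1 hv
  exact iter_subset G r A hAC hC t ht

/-- three infected neighbours infect -/
theorem mem_of_three {v p q s : V} (hp : p ∈ ⋃ t : ℕ, (step G 3)^[t] A)
    (hq : q ∈ ⋃ t : ℕ, (step G 3)^[t] A) (hs : s ∈ ⋃ t : ℕ, (step G 3)^[t] A)
    (hpq : p ≠ q) (hps : p ≠ s) (hqs : q ≠ s) (h1 : G.Adj v p) (h2 : G.Adj v q)
    (h3 : G.Adj v s) : v ∈ ⋃ t : ℕ, (step G 3)^[t] A := by
  rw [Set.mem_iUnion] at hp hq hs ⊢
  obtain ⟨a, ha⟩ := hp
  obtain ⟨b, hb⟩ := hq
  obtain ⟨c, hc⟩ := hs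
  refine ⟨max a (max b c) + 1, ?_⟩
  rw [Function.iterate_succ_apply']
  right
  have ha' := mono_iter G 3 A (le_max_left a (max b c)) ha
  have hb' := mono_iter G 3 A ((le_max_left b c).trans (le_max_right a (max b c))) hb
  have hc' := mono_iter G 3 A ((le_max_right b c).trans (le_max_right a (max b c))) hc
  have h4 : ({p, q, s} : Set V).ncard = 3 := by
    rw [Set.ncard_eq_three]
    exact ⟨p, q, s, hpq, hps, hqs, rfl⟩
  have h5 : ({p, q, s} : Set V) ⊆ G.neighborSet v ∩ (step G 3)^[max a (max b c)] A := by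
    rintro x (rfl | rfl | rfl)
    · exact ⟨h1, ha'⟩
    · exact ⟨h2, hb'⟩
    · exact ⟨h3, hc'⟩
  have h6 := Set.ncard_le_ncard h5 (Set.toFinite _)
  rw [h4] at h6
  exact h6

theorem fully_of_all (h : ∀ v, v ∈ ⋃ t : ℕ, (step G r)^[t] A) : FullyInfects G r A :=
  Set.eq_univ_iff_forall.2 h

theorem init_mem {v : V} (h : v ∈ A) : v ∈ ⋃ t : ℕ, (step G r)^[t] A :=
  Set.mem_iUnion.2 ⟨0, h⟩

end general

end Pool.Agent.N432.KingBoot
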