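import Mathlib
import Pool.Agent.N432.KingBoot

set_option autoImplicit false

namespace Pool.Agent.N432.KingBoot

/-- the cell `(i, j)` gets infected -/
def Inf (m n : ℕ) (A : Set (Fin m × Fin n)) (i j : ℕ) : Prop :=
  ∃ (hi : i < m) (hj : j < n), ((⟨i, hi⟩, ⟨j, hj⟩) : Fin m × Fin n) ∈
    ⋃ t : ℕ, (step (strongGrid m n) 3)^[t] A

theorem ncard_two {α : Type} (a b : α) : ({a, b} : Set α).ncard ≤ 2 := by
  have h := Set.ncard_insert_le a ({b} : Set α)
  rw [Set.ncard_singleton] at h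
  exact h

theorem ncard_three {α : Type} (a b c : α) : ({a, b, c} : Set α).ncard ≤ 3 := by
  have h := Set.ncard_insert_le a ({b, c} : Set α)
  have h2 := ncard_two b c
  omega

theorem adj_coord {m n i j a b : ℕ} (hi : i < m) (hj : j < n) (ha : a < m) (hb : b < n)
    (h1 : i ≤ a + 1) (h2 : a ≤ i + 1) (h3 : j ≤ b + 1) (h4 : b ≤ j + 1) (h5 : i ≠ a ∨ j ≠ b) :
    (strongGrid m n).Adj (⟨i, hi⟩, ⟨j, hj⟩) (⟨a, ha⟩, ⟨b, hb⟩) := by
  refine ⟨?_, ?_, ?_⟩
  · intro h
    simp only [Prod.mk.injEq, Fin.mk.injEq] at h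
    omega
  · simp only
    rw [abs_le]
    omega
  · simp only
    rw [abs_le]
    omega

theorem coord_three {m n : ℕ} {A : Set (Fin m × Fin n)} {i j : ℕ} (a b c d e f : ℕ) (hi : i < m)
    (hj : j < n) (h1 : Inf m n A a b) (h2 : Inf m n A c d) (h3 : Inf m n A e f)
    (k1 : i ≤ a + 1 ∧ a ≤ i + 1 ∧ j ≤ b + 1 ∧ b ≤ j + 1 ∧ (i ≠ a ∨ j ≠ b))
    (k2 : i ≤ c + 1 ∧ c ≤ i + 1 ∧ j ≤ d + 1 ∧ d ≤ j + 1 ∧ (i ≠ c ∨ j ≠ d))
    (k3 : i ≤ e + 1 ∧ e ≤ i + 1 ∧ j ≤ f + 1 ∧ f ≤ j + 1 ∧ (i ≠ e ∨ j ≠ f))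
    (l1 : a ≠ c ∨ b ≠ d) (l2 : a ≠ e ∨ b ≠ f) (l3 : c ≠ e ∨ d ≠ f) : Inf m n A i j := by
  obtain ⟨ha, hb, h1⟩ := h1
  obtain ⟨hc, hd, h2⟩ := h2
  obtain ⟨he, hf, h3⟩ := h3
  refine ⟨hi, hj, mem_of_three (strongGrid m n) A h1 h2 h3 ?_ ?_ ?_
    (adj_coord hi hj ha hb k1.1 k1.2.1 k1.2.2.1 k1.2.2.2.1 k1.2.2.2.2)
    (adj_coord hi hj hc hd k2.1 k2.2.1 k2.2.2.1 k2.2.2.2.1 k2.2.2.2.2)
    (adj_coord hi hj he hf k3.1 k3.2.1 k3.2.2.1 k3.2.2.2.1 k3.2.2.2.2)⟩
  all_goals
    intro h
    simp only [Prod.mk.injEq, Fin.mk.injEq] at h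
    omega

theorem inf_of_mem {m n : ℕ} {A : Set (Fin m × Fin n)} {i j : ℕ} (hi : i < m) (hj : j < n)
    (h : ((⟨i, hi⟩, ⟨j, hj⟩) : Fin m × Fin n) ∈ A) : Inf m n A i j :=
  ⟨hi, hj, init_mem _ _ _ h⟩

theorem fully_of_inf {m n : ℕ} {A : Set (Fin m × Fin n)}
    (h : ∀ i j, i < m → j < n → Inf m n A i j) : FullyInfects (strongGrid m n) 3 A := by
  apply fully_of_all
  rintro ⟨i, j⟩
  obtain ⟨_, _, h1⟩ := h i j i.2 j.2
  exact h1

/-- three cells in a row infect every board with both sides at least three -/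
theorem upper3 {m n : ℕ} (hm : 3 ≤ m) (hn : 3 ≤ n) :
    ∃ A : Set (Fin m × Fin n), FullyInfects (strongGrid m n) 3 A ∧ A.ncard ≤ 3 := by
  let A : Set (Fin m × Fin n) := {(⟨0, by omega⟩, ⟨0, by omega⟩), (⟨1, by omega⟩, ⟨0, by omega⟩),
    (⟨2, by omega⟩, ⟨0, by omega⟩)}
  refine ⟨A, ?_, ncard_three _ _ _⟩
  have hrow : ∀ j, j < n → Inf m n A 0 j ∧ Inf m n A 1 j ∧ Inf m n A 2 j := by
    intro j
    induction j with
    | zero =>
      intro hj
      exact ⟨inf_of_mem (by omega) hj (by simp [A]), inf_of_mem (by omega) hj (by simp [A]),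
        inf_of_mem (by omega) hj (by simp [A])⟩
    | succ j ih =>
      intro hj
      obtain ⟨h0, h1, h2⟩ := ih (by omega)
      have g1 : Inf m n A 1 (j + 1) := coord_three 0 j 1 j 2 j (by omega) hj h0 h1 h2
        (by omega) (by omega) (by omega) (by omega) (by omega) (by omega)
      exact ⟨coord_three 0 j 1 j 1 (j + 1) (by omega) hj h0 h1 g1
        (by omega) (by omega) (by omega) (by omega) (by omega) (by omega), g1,
        coord_three 2 j 1 j 1 (j + 1) (by omega) hj h2 h1 g1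
        (by omega) (by omega) (by omega) (by omega) (by omega) (by omega)⟩
  have hcol : ∀ i, 2 ≤ i → i < m → ∀ j, j < n → Inf m n A i j := by
    intro i hi
    induction i, hi using Nat.le_induction with
    | base => exact fun _ j hj => (hrow j hj).2.2
    | succ i hi ih =>
      intro him j hj
      have ih' := ih (by omega)
      have hint : ∀ j, 1 ≤ j → j + 1 < n → Inf m n A (i + 1) j := by
        intro j h1 h2
        exact coord_three i (j - 1) i j i (j + 1) him (by omega) (ih' _ (by omega))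
          (ih' _ (by omega)) (ih' _ (by omega))
          (by omega) (by omega) (by omega) (by omega) (by omega) (by omega)
      rcases Nat.eq_zero_or_pos j with h0 | h0
      · subst h0
        exact coord_three i 0 i 1 (i + 1) 1 him hj (ih' _ (by omega)) (ih' _ (by omega))
          (hint 1 le_rfl (by omega))
          (by omega) (by omega) (by omega) (by omega) (by omega) (by omega)
      · by_cases h1 : j + 1 < n
        · exact hint j h0 h1
        · exact coord_three i j i (j - 1) (i + 1) (j - 1) him hj (ih' _ (by omega))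
            (ih' _ (by omega)) (hint (j - 1) (by omega) (by omega))
            (by omega) (by omega) (by omega) (by omega) (by omega) (by omega)
  apply fully_of_inf
  intro i j hi hj
  rcases Nat.lt_or_ge i 2 with h | h
  · interval_cases i
    · exact (hrow j hj).1
    · exact (hrow j hj).2.1
  · exact hcol i h hi j hj

/-- the upper bound for boards of width two -/
theorem upper2 {m : ℕ} (hm : 2 ≤ m) :
    ∃ A : Set (Fin m × Fin 2), FullyInfects (strongGrid m 2) 3 A ∧ A.ncard ≤ m / 2 + 2 := by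
  let A : Set (Fin m × Fin 2) := {(⟨0, by omega⟩, 0), (⟨0, by omega⟩, 1)} ∪
    (fun t : Fin (m / 2) => ((⟨m - 1 - 2 * t.val, by omega⟩, 0) : Fin m × Fin 2)) '' Set.univ
  refine ⟨A, ?_, ?_⟩
  · have hmem : ∀ x (hx : x < m), (m - 1 - x) % 2 = 0 → 1 ≤ x →
        ((⟨x, hx⟩, 0) : Fin m × Fin 2) ∈ A := by
      intro x hx h1 h2
      right
      refine ⟨⟨(m - 1 - x) / 2, by omega⟩, trivial, ?_⟩
      simp only [Prod.mk.injEq, Fin.mk.injEq, and_true]
      omega
    have hcol : ∀ x, x < m → Inf m 2 A x 0 ∧ Inf m 2 A x 1 := by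
      intro x
      induction x with
      | zero =>
        intro hx
        exact ⟨inf_of_mem hx (by omega) (by left; left; rfl),
          inf_of_mem hx (by omega) (by left; right; rfl)⟩
      | succ x ih =>
        intro hx
        obtain ⟨h0, h1⟩ := ih (by omega)
        by_cases hpar : (m - 1 - (x + 1)) % 2 = 0
        · have g0 : Inf m 2 A (x + 1) 0 := inf_of_mem hx (by omega) (hmem _ hx hpar (by omega))
          exact ⟨g0, coord_three x 0 x 1 (x + 1) 0 hx (by omega) h0 h1 g0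
            (by omega) (by omega) (by omega) (by omega) (by omega) (by omega)⟩
        · have g0 : Inf m 2 A (x + 2) 0 :=
            inf_of_mem (by omega) (by omega) (hmem _ (by omega) (by omega) (by omega))
          exact ⟨coord_three x 0 x 1 (x + 2) 0 hx (by omega) h0 h1 g0
            (by omega) (by omega) (by omega) (by omega) (by omega) (by omega),
            coord_three x 0 x 1 (x + 2) 0 hx (by omega) h0 h1 g0
            (by omega) (by omega) (by omega) (by omega) (by omega) (by omega)⟩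
    apply fully_of_inf
    intro i j hi hj
    interval_cases j
    · exact (hcol i hi).1
    · exact (hcol i hi).2
  · have h1 : ((fun t : Fin (m / 2) => ((⟨m - 1 - 2 * t.val, by omega⟩, 0) : Fin m × Fin 2)) ''
        Set.univ).ncard ≤ m / 2 := by
      refine (Set.ncard_image_le (Set.toFinite _)).trans ?_
      rw [Set.ncard_univ, Nat.card_eq_fintype_card, Fintype.card_fin]
    have h2 : ({(⟨0, by omega⟩, 0), (⟨0, by omega⟩, 1)} : Set (Fin m × Fin 2)).ncard ≤ 2 :=
      ncard_two _ _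
    have h3 := Set.ncard_union_le ({(⟨0, by omega⟩, 0), (⟨0, by omega⟩, 1)} : Set (Fin m × Fin 2))
      ((fun t : Fin (m / 2) => ((⟨m - 1 - 2 * t.val, by omega⟩, 0) : Fin m × Fin 2)) '' Set.univ)
    show (_ ∪ _ : Set (Fin m × Fin 2)).ncard ≤ _
    omega

end Pool.Agent.N432.KingBoot
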