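import Mathlib
import Pool.Agent.N432.KingBoot2

set_option autoImplicit false

namespace Pool.Agent.N432.KingBoot

/-- number of members of `A` in the column `x - 1` -/
noncomputable def col {m : ℕ} (A : Set (Fin m × Fin 2)) (x : ℕ) : ℕ :=
  (A ∩ {v | (v.1 : ℕ) + 1 = x}).ncard

theorem column_le {m : ℕ} (x : ℕ) : ({v : Fin m × Fin 2 | (v.1 : ℕ) + 1 = x}).ncard ≤ 2 := by
  have h : ({v : Fin m × Fin 2 | (v.1 : ℕ) + 1 = x}).ncard ≤ (Set.univ : Set (Fin 2)).ncard := by
    apply Set.ncard_le_ncard_of_injOn (fun v => v.2) (fun _ _ => Set.mem_univ _)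
    · rintro ⟨a, b⟩ ha ⟨c, d⟩ hc h
      simp only [Set.mem_ofPred_eq] at ha hc h
      refine Prod.ext (Fin.ext ?_) h
      simp only
      omega
  rwa [Set.ncard_univ, Nat.card_eq_fintype_card, Fintype.card_fin] at h

theorem col_zero {m : ℕ} (A : Set (Fin m × Fin 2)) : col A 0 = 0 := by
  unfold col
  rw [Set.ncard_eq_zero (Set.toFinite _)]
  ext v
  simp

theorem col_big {m : ℕ} (A : Set (Fin m × Fin 2)) (x : ℕ) (hx : m < x) : col A x = 0 := by
  unfold col
  rw [Set.ncard_eq_zero (Set.toFinite _)]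
  ext v
  simp only [Set.mem_inter_iff, Set.mem_ofPred_eq, Set.mem_empty_iff_false, iff_false, not_and]
  intro _ h
  have := v.1.2
  omega

theorem col_eq_zero {m : ℕ} {A : Set (Fin m × Fin 2)} {x : ℕ} (h : col A x = 0)
    {v : Fin m × Fin 2} (hv : v ∈ A) : (v.1 : ℕ) + 1 ≠ x := by
  intro hx
  unfold col at h
  rw [Set.ncard_eq_zero (Set.toFinite _)] at h
  have : v ∈ A ∩ {v | (v.1 : ℕ) + 1 = x} := ⟨hv, hx⟩
  rw [h] at this
  exact this

theorem sum_col {m : ℕ} (A : Set (Fin m × Fin 2)) :
    ∑ x ∈ Finset.range (m + 2), col A x = A.ncard := by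
  classical
  have h1 := Finset.card_eq_sum_card_fiberwise (f := fun v : Fin m × Fin 2 => (v.1 : ℕ) + 1)
    (s := A.toFinite.toFinset) (t := Finset.range (m + 2)) (by
      intro v _
      have := v.1.2
      simp only [Finset.coe_range, Set.mem_Iio]
      omega)
  rw [Set.ncard_eq_toFinset_card A A.toFinite, h1]
  apply Finset.sum_congr rfl
  intro x _
  unfold col
  rw [Set.ncard_eq_toFinset_card _ (Set.toFinite _)]
  congr 1
  ext v
  rw [Finset.mem_filter, Set.Finite.mem_toFinset, Set.Finite.mem_toFinset]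
  rfl

theorem adj_col {m : ℕ} {v w : Fin m × Fin 2} (h : (strongGrid m 2).Adj v w) :
    (w.1 : ℕ) ≤ (v.1 : ℕ) + 1 ∧ (v.1 : ℕ) ≤ (w.1 : ℕ) + 1 := by
  have h1 := h.2.1
  rw [abs_le] at h1
  omega

theorem lower2 {m : ℕ} (hm : 2 ≤ m) (A : Set (Fin m × Fin 2))
    (h : FullyInfects (strongGrid m 2) 3 A) : m / 2 + 2 ≤ A.ncard := by
  classical
  have F1 : ∀ x ≤ m, 1 ≤ col A x + col A (x + 1) := by
    intro x hx
    by_contra hcon
    have h0 : col A x = 0 := by omega
    have h1 : col A (x + 1) = 0 := by omega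
    refine not_fullyInfects (strongGrid m 2) 3 A
      (C := {v | (v.1 : ℕ) + 1 ≠ x ∧ (v.1 : ℕ) + 1 ≠ x + 1}) ?_ ?_ ?_ h
    · intro v hv
      exact ⟨col_eq_zero h0 hv, col_eq_zero h1 hv⟩
    · intro v hv
      have hv' : (v.1 : ℕ) + 1 = x ∨ (v.1 : ℕ) + 1 = x + 1 := by
        by_contra hc
        push Not at hc
        exact hv hc
      have key : ∃ y, (strongGrid m 2).neighborSet v ∩
          {v | (v.1 : ℕ) + 1 ≠ x ∧ (v.1 : ℕ) + 1 ≠ x + 1} ⊆ {w | (w.1 : ℕ) + 1 = y} := by
        rcases hv' with hv' | hv'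
        · refine ⟨x - 1, ?_⟩
          rintro w ⟨hw1, hw2, hw3⟩
          have := adj_col hw1
          simp only [Set.mem_ofPred_eq]
          omega
        · refine ⟨x + 2, ?_⟩
          rintro w ⟨hw1, hw2, hw3⟩
          have := adj_col hw1
          simp only [Set.mem_ofPred_eq]
          omega
      obtain ⟨y, hy⟩ := key
      have := (Set.ncard_le_ncard hy (Set.toFinite _)).trans (column_le y)
      omega
    · intro hC
      rcases Nat.eq_zero_or_pos x with hx0 | hx0
      · have : ((⟨0, by omega⟩, 0) : Fin m × Fin 2) ∈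
            {v : Fin m × Fin 2 | (v.1 : ℕ) + 1 ≠ x ∧ (v.1 : ℕ) + 1 ≠ x + 1} := by
          rw [hC]; trivial
        have := this.2
        simp only at this
        omega
      · have : ((⟨x - 1, by omega⟩, 0) : Fin m × Fin 2) ∈
            {v : Fin m × Fin 2 | (v.1 : ℕ) + 1 ≠ x ∧ (v.1 : ℕ) + 1 ≠ x + 1} := by
          rw [hC]; trivial
        have := this.1
        simp only at this
        omega
  have F2 : ∃ x, 1 ≤ x ∧ x ≤ m ∧ 2 ≤ col A (x - 1) + col A x ∧ 2 ≤ col A x + col A (x + 1) := by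
    by_contra hcon
    push Not at hcon
    have hle : ∀ x, col A x ≤ 1 := by
      intro x
      rcases Nat.eq_zero_or_pos x with hx0 | hx0
      · rw [hx0, col_zero]; omega
      · rcases Nat.lt_or_ge m x with hx | hx
        · rw [col_big A x hx]; omega
        · by_contra h2
          have := hcon x hx0 hx (by omega)
          omega
    have hthree : ∀ x, col A x + col A (x + 1) + col A (x + 2) ≤ 2 := by
      intro x
      have e1 := hle x
      have e2 := hle (x + 1)
      have e3 := hle (x + 2)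
      by_contra h2
      have := hcon (x + 1) (by omega) (by
        by_contra h3
        rw [col_big A (x + 1) (by omega)] at h2
        omega) (by
        rw [Nat.add_sub_cancel]
        omega)
      have e4 : x + 1 + 1 = x + 2 := rfl
      rw [e4] at this
      omega
    refine not_fullyInfects (strongGrid m 2) 3 A (C := A) subset_rfl ?_ ?_ h
    · intro v _
      have hsub : (strongGrid m 2).neighborSet v ∩ A ⊆
          ((A ∩ {w | (w.1 : ℕ) + 1 = (v.1 : ℕ)}) ∪ (A ∩ {w | (w.1 : ℕ) + 1 = (v.1 : ℕ) + 1})) ∪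
            (A ∩ {w | (w.1 : ℕ) + 1 = (v.1 : ℕ) + 2}) := by
        rintro w ⟨hw1, hw2⟩
        have := adj_col hw1
        have h3 : (w.1 : ℕ) + 1 = (v.1 : ℕ) ∨ (w.1 : ℕ) + 1 = (v.1 : ℕ) + 1 ∨
            (w.1 : ℕ) + 1 = (v.1 : ℕ) + 2 := by omega
        rcases h3 with h3 | h3 | h3
        · left; left; exact ⟨hw2, h3⟩
        · left; right; exact ⟨hw2, h3⟩
        · right; exact ⟨hw2, h3⟩
      have e1 := Set.ncard_le_ncard hsub (Set.toFinite _)
      have e2 := Set.ncard_union_le ((A ∩ {w | (w.1 : ℕ) + 1 = (v.1 : ℕ)}) ∪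
        (A ∩ {w | (w.1 : ℕ) + 1 = (v.1 : ℕ) + 1})) (A ∩ {w | (w.1 : ℕ) + 1 = (v.1 : ℕ) + 2})
      have e3 := Set.ncard_union_le (A ∩ {w | (w.1 : ℕ) + 1 = (v.1 : ℕ)})
        (A ∩ {w | (w.1 : ℕ) + 1 = (v.1 : ℕ) + 1})
      have e4 := hthree (v.1 : ℕ)
      unfold col at e4
      omega
    · intro hA
      have h2 := hle 1
      have h3 : col A 1 = 2 := by
        unfold col
        rw [hA, Set.univ_inter]
        have h4 : ({v : Fin m × Fin 2 | (v.1 : ℕ) + 1 = 1}) =
            {((⟨0, by omega⟩, 0) : Fin m × Fin 2), (⟨0, by omega⟩, 1)} := by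
          ext ⟨a, b⟩
          simp only [Set.mem_ofPred_eq, Set.mem_insert_iff, Set.mem_singleton_iff, Prod.mk.injEq,
            Fin.ext_iff]
          have := b.2
          constructor
          · intro h
            have : (b : ℕ) = 0 ∨ (b : ℕ) = 1 := by omega
            rcases this with h' | h'
            · left; exact ⟨by omega, by simpa using h'⟩
            · right; exact ⟨by omega, by simpa using h'⟩
          · rintro (⟨h, _⟩ | ⟨h, _⟩) <;> omega
        rw [h4, Set.ncard_pair]
        simp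
      omega
  obtain ⟨x, hx1, hxm, hx2, hx3⟩ := F2
  have hS : ∑ i ∈ Finset.range (m + 1), (col A i + col A (i + 1)) = 2 * A.ncard := by
    rw [Finset.sum_add_distrib]
    have e1 : ∑ i ∈ Finset.range (m + 1), col A i = A.ncard := by
      rw [← sum_col A, Finset.sum_range_succ _ (m + 1), col_big A (m + 1) (by omega), add_zero]
    have e2 : ∑ i ∈ Finset.range (m + 1), col A (i + 1) = A.ncard := by
      rw [← sum_col A, Finset.sum_range_succ' _ (m + 1), col_zero, add_zero]
    rw [e1, e2]
    ring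
  have hlow : ∑ i ∈ Finset.range (m + 1), (1 + (if i = x - 1 then 1 else 0) +
      (if i = x then 1 else 0)) ≤ ∑ i ∈ Finset.range (m + 1), (col A i + col A (i + 1)) := by
    apply Finset.sum_le_sum
    intro i hi
    rw [Finset.mem_range] at hi
    have e0 := F1 i (by omega)
    by_cases h1 : i = x - 1
    · have e3 : i ≠ x := by omega
      rw [if_pos h1, if_neg e3]
      have e4 : i + 1 = x := by omega
      rw [e4, h1]
      omega
    · rw [if_neg h1]
      by_cases h2 : i = x
      · rw [if_pos h2, h2]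
        omega
      · rw [if_neg h2]
        omega
  rw [Finset.sum_add_distrib, Finset.sum_add_distrib, Finset.sum_ite_eq', Finset.sum_ite_eq',
    if_pos (by rw [Finset.mem_range]; omega), if_pos (by rw [Finset.mem_range]; omega)] at hlow
  simp only [Finset.sum_const, Finset.card_range, smul_eq_mul, mul_one] at hlow
  omega

/-- at least three cells are needed unless everything is infected at the start -/
theorem lower_three {m n : ℕ} (A : Set (Fin m × Fin n)) (hA : A ≠ Set.univ)
    (h : FullyInfects (strongGrid m n) 3 A) : 3 ≤ A.ncard := by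
  by_contra hcon
  refine not_fullyInfects (strongGrid m n) 3 A (C := A) subset_rfl ?_ hA h
  intro v _
  have := Set.ncard_le_ncard (Set.inter_subset_right (s := (strongGrid m n).neighborSet v)
    (t := A)) (Set.toFinite _)
  omega

/-- on a path everything has to be infected at the start -/
theorem lower1 {m : ℕ} (A : Set (Fin m × Fin 1))
    (h : FullyInfects (strongGrid m 1) 3 A) : A = Set.univ := by
  by_contra hA
  refine not_fullyInfects (strongGrid m 1) 3 A (C := A) subset_rfl ?_ hA h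
  intro v _
  have hsub : (strongGrid m 1).neighborSet v ∩ A ⊆
      {w | (w.1 : ℕ) + 1 = (v.1 : ℕ)} ∪ {w | (w.1 : ℕ) = (v.1 : ℕ) + 1} := by
    rintro w ⟨hw1, _⟩
    have h1 := hw1.2.1
    rw [abs_le] at h1
    have h2 : (v.1 : ℕ) ≠ (w.1 : ℕ) := by
      intro h3
      apply hw1.1
      refine Prod.ext (Fin.ext h3) (Subsingleton.elim _ _)
    simp only [Set.mem_union, Set.mem_ofPred_eq]
    omega
  have e1 := Set.ncard_le_ncard hsub (Set.toFinite _)
  have e2 := Set.ncard_union_le ({w : Fin m × Fin 1 | (w.1 : ℕ) + 1 = (v.1 : ℕ)})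
    {w | (w.1 : ℕ) = (v.1 : ℕ) + 1}
  have e3 : ({w : Fin m × Fin 1 | (w.1 : ℕ) + 1 = (v.1 : ℕ)}).ncard ≤ 1 := by
    rw [Set.ncard_le_one (Set.toFinite _)]
    intro a ha b hb
    simp only [Set.mem_ofPred_eq] at ha hb
    exact Prod.ext (Fin.ext (by omega)) (Subsingleton.elim _ _)
  have e4 : ({w : Fin m × Fin 1 | (w.1 : ℕ) = (v.1 : ℕ) + 1}).ncard ≤ 1 := by
    rw [Set.ncard_le_one (Set.toFinite _)]
    intro a ha b hb
    simp only [Set.mem_ofPred_eq] at ha hb
    exact Prod.ext (Fin.ext (by omega)) (Subsingleton.elim _ _)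
  omega

/-- transposition of the board -/
theorem fully_swap {m n : ℕ} (A : Set (Fin m × Fin n))
    (h : FullyInfects (strongGrid m n) 3 A) :
    FullyInfects (strongGrid n m) 3 (Prod.swap '' A) := by
  have hstep : ∀ B : Set (Fin m × Fin n), step (strongGrid n m) 3 (Prod.swap '' B) =
      Prod.swap '' (step (strongGrid m n) 3 B) := by
    intro B
    unfold step
    rw [Set.image_union]
    congr 1
    ext ⟨i, j⟩
    constructor
    · intro hv
      refine ⟨(j, i), ?_, rfl⟩
      have e : (strongGrid n m).neighborSet (i, j) ∩ Prod.swap '' B =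
          Prod.swap '' ((strongGrid m n).neighborSet (j, i) ∩ B) := by
        ext ⟨a, b⟩
        constructor
        · rintro ⟨h1, ⟨x, hx, hxe⟩⟩
          refine ⟨x, ⟨?_, hx⟩, hxe⟩
          obtain ⟨x1, x2⟩ := x
          simp only [Prod.swap_prod_mk, Prod.mk.injEq] at hxe
          obtain ⟨rfl, rfl⟩ := hxe
          exact ⟨fun h' => h1.1 (by simp only [Prod.mk.injEq] at h' ⊢; exact h'.symm),
            h1.2.2, h1.2.1⟩
        · rintro ⟨x, ⟨h1, hx⟩, hxe⟩
          refine ⟨?_, x, hx, hxe⟩
          obtain ⟨x1, x2⟩ := x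
          simp only [Prod.swap_prod_mk, Prod.mk.injEq] at hxe
          obtain ⟨rfl, rfl⟩ := hxe
          exact ⟨fun h' => h1.1 (by simp only [Prod.mk.injEq] at h' ⊢; exact h'.symm),
            h1.2.2, h1.2.1⟩
      simp only [Set.mem_ofPred_eq] at hv ⊢
      rw [e, Set.ncard_image_of_injective _ Prod.swap_injective] at hv
      exact hv
    · rintro ⟨⟨a, b⟩, hx, hxe⟩
      simp only [Prod.swap_prod_mk, Prod.mk.injEq] at hxe
      obtain ⟨rfl, rfl⟩ := hxe
      have e : (strongGrid n m).neighborSet (b, a) ∩ Prod.swap '' B =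
          Prod.swap '' ((strongGrid m n).neighborSet (a, b) ∩ B) := by
        ext ⟨c, d⟩
        constructor
        · rintro ⟨h1, ⟨x, hx, hxe⟩⟩
          refine ⟨x, ⟨?_, hx⟩, hxe⟩
          obtain ⟨x1, x2⟩ := x
          simp only [Prod.swap_prod_mk, Prod.mk.injEq] at hxe
          obtain ⟨rfl, rfl⟩ := hxe
          exact ⟨fun h' => h1.1 (by simp only [Prod.mk.injEq] at h' ⊢; exact h'.symm),
            h1.2.2, h1.2.1⟩
        · rintro ⟨x, ⟨h1, hx⟩, hxe⟩
          refine ⟨?_, x, hx, hxe⟩
          obtain ⟨x1, x2⟩ := x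
          simp only [Prod.swap_prod_mk, Prod.mk.injEq] at hxe
          obtain ⟨rfl, rfl⟩ := hxe
          exact ⟨fun h' => h1.1 (by simp only [Prod.mk.injEq] at h' ⊢; exact h'.symm),
            h1.2.2, h1.2.1⟩
      simp only [Set.mem_ofPred_eq] at hx ⊢
      rw [e, Set.ncard_image_of_injective _ Prod.swap_injective]
      exact hx
  have hiter : ∀ t : ℕ, (step (strongGrid n m) 3)^[t] (Prod.swap '' A) =
      Prod.swap '' ((step (strongGrid m n) 3)^[t] A) := by
    intro t
    induction t with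
    | zero => rfl
    | succ t ih => rw [Function.iterate_succ_apply', Function.iterate_succ_apply', ih, hstep]
  unfold FullyInfects at h ⊢
  simp_rw [hiter]
  rw [← Set.image_iUnion, h, Set.image_univ, Prod.swap_surjective.range_eq]

end Pool.Agent.N432.KingBoot
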