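import Mathlib
import Pool.Agent.N576.MX2.E
import Pool.Agent.N576.MX.K4
import Pool.Agent.N615.MX_RUNREP

set_option autoImplicit false

/-!
# Project MX2 (helper576): values, levels and the first order gap along a run (`POSX`), by helper432
-/

namespace Pool.Agent.N432.MX2P

open Pool.Agent.H499R2

noncomputable section

/-- one variable: the length of a value `(e ^ t + (1 + δ) e ^ (- t)) / 3` -/
lemma gval {w t δ : ℝ} (hw : 1 ≤ w) (ht : 0 ≤ t) (hδ0 : 0 < δ) (hδ : δ ≤ 4 / 5)
    (h : 3 * w = Real.exp t + (1 + δ) * Real.exp (-t)) :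
    t ≤ g w ∧ g w ≤ t + (1 + δ) * Real.exp (-2 * t) ∧
    (Real.exp (-2 * t) ≤ 1 / 6 →
      |g w - (t + δ * Real.exp (-2 * t))| ≤ 2 * δ * Real.exp (-2 * t) ^ 2) := by
  set z := lam w with hz
  have hz1 : 2.6 ≤ z := by
    have := lam_lower w hw
    rw [← hz] at this
    linarith
  have hq := lam_quad w hw
  rw [← hz] at hq
  set E := Real.exp t with hE
  have hE1 : 1 ≤ E := Real.one_le_exp ht
  have hE0 : 0 < E := by linarith
  have hEi : Real.exp (-t) = E⁻¹ := Real.exp_neg t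
  have hqq : Real.exp (-2 * t) = E⁻¹ ^ 2 := by
    rw [show -2 * t = (-t) + (-t) by ring, Real.exp_add, hEi, sq]
  rw [hEi] at h
  rw [hqq]
  have hEE : E * E⁻¹ = 1 := mul_inv_cancel₀ hE0.ne'
  have hI0 : 0 < E⁻¹ := by positivity
  have hI1 : E⁻¹ ≤ 1 := inv_le_one_of_one_le₀ hE1
  -- z > E
  have hid : (z * E - 1) * (z - E) = z * δ := by
    have h1 : z * (E + (1 + δ) * E⁻¹ - z) = 1 := by rw [← h]; exact hq
    have h2 : z * (E * E + (1 + δ) * (E * E⁻¹) - z * E) = E := by linear_combination E * h1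
    rw [hEE] at h2
    linear_combination -h2
  have hzE1 : 0 < z * E - 1 := by nlinarith
  have hzE : 0 < z - E := by
    have h3 : 0 < (z * E - 1) * (z - E) := by rw [hid]; positivity
    exact (pos_iff_pos_of_mul_pos h3).1 hzE1
  have hgw : g w = Real.log z := rfl
  have hz0 : 0 < z := by linarith
  set D := z * E⁻¹ - 1 with hD
  have hzD : z = E * (1 + D) := by
    rw [hD]
    linear_combination (-z) * hEE
  have hD0 : 0 < D := by
    have h4 : E⁻¹ * (z - E) = D := by
      rw [hD]; linear_combination (-1 : ℝ) * hEE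
    rw [← h4]; positivity
  have hlog : g w = t + Real.log (1 + D) := by
    rw [hgw, hzD, Real.log_mul hE0.ne' (by linarith), hE, Real.log_exp]
  -- D ≤ ρ q
  have hDu : D ≤ (1 + δ) * E⁻¹ ^ 2 := by
    have h5 : 0 < 3 * w - z := by
      by_contra hcon
      push Not at hcon
      nlinarith
    have h6 : z ≤ E + (1 + δ) * E⁻¹ := by linarith
    have h7 : z * E⁻¹ ≤ (E + (1 + δ) * E⁻¹) * E⁻¹ := mul_le_mul_of_nonneg_right h6 hI0.le
    have h8 : (E + (1 + δ) * E⁻¹) * E⁻¹ = 1 + (1 + δ) * E⁻¹ ^ 2 := by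
      linear_combination hEE
    rw [h8] at h7
    rw [hD]
    linarith
  have hlD : Real.log (1 + D) ≤ D := by
    have := Real.log_le_sub_one_of_pos (show 0 < 1 + D by linarith)
    linarith
  have hlD0 : 0 ≤ Real.log (1 + D) := Real.log_nonneg (by linarith)
  refine ⟨by rw [hlog]; linarith, by rw [hlog]; linarith, ?_⟩
  intro hq6
  set q := E⁻¹ ^ 2 with hqdef
  have hq0 : 0 < q := by positivity
  -- ((1 + D) - q) D = (1 + D) δ q
  have hrel : ((1 + D) - q) * D = (1 + D) * δ * q := by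
    have h9 : (z * E - 1) * (z - E) * (E⁻¹ ^ 3) = z * δ * E⁻¹ ^ 3 := by rw [hid]
    have e1 : (z * E - 1) * (z - E) * (E⁻¹ ^ 3) = ((1 + D) - q) * D := by
      rw [hzD, hqdef]
      have e2 : (E * (1 + D) * E - 1) * (E * (1 + D) - E) * E⁻¹ ^ 3 =
          (E * E⁻¹) ^ 3 * (1 + D) * D - (E * E⁻¹) * E⁻¹ ^ 2 * D := by ring
      rw [e2, hEE]
      ring
    have e3 : z * δ * E⁻¹ ^ 3 = (1 + D) * δ * q := by
      rw [hzD, hqdef]
      have e4 : E * (1 + D) * δ * E⁻¹ ^ 3 = (E * E⁻¹) * ((1 + D) * δ * E⁻¹ ^ 2) := by ring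
      rw [e4, hEE, one_mul]
    rw [← e1, h9, e3]
  have hden : 0 < (1 + D) - q := by linarith
  -- D ≤ 1.2 δ q
  have hDl : δ * q ≤ D := by
    have h10 : (1 + D) * (D - δ * q) = q * D := by linear_combination hrel
    have h10' : 0 < (1 + D) * (D - δ * q) := by rw [h10]; positivity
    have h10'' := (pos_iff_pos_of_mul_pos h10').1 (by linarith)
    linarith
  have hDb : D ≤ 6 / 5 * (δ * q) := by
    have h10 : D * (1 - q) = δ * q - D * (D - δ * q) := by linear_combination hrel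
    have h10' : 0 ≤ D * (D - δ * q) := mul_nonneg hD0.le (by linarith)
    have h10'' : D * (1 - q) ≤ δ * q := by linarith
    have h10''' : D * (5 / 6) ≤ D * (1 - q) := mul_le_mul_of_nonneg_left (by linarith) hD0.le
    linarith
  have hDd : D - δ * q ≤ 6 / 5 * (δ * q ^ 2) := by
    have h11 : (D - δ * q) * ((1 + D) - q) = δ * q * q := by linear_combination hrel
    have h12 : (5 / 6 : ℝ) ≤ (1 + D) - q := by linarith
    have h13 : (D - δ * q) * (5 / 6) ≤ (D - δ * q) * ((1 + D) - q) :=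
      mul_le_mul_of_nonneg_left h12 (by linarith)
    nlinarith
  have hlow : D - D ^ 2 ≤ Real.log (1 + D) := by
    have h14 := Real.one_sub_inv_le_log_of_pos (show 0 < 1 + D by linarith)
    have h15 : D - D ^ 2 ≤ 1 - (1 + D)⁻¹ := by
      have h16 : 1 - (1 + D)⁻¹ = D / (1 + D) := by field_simp; ring
      rw [h16, le_div_iff₀ (by linarith)]
      nlinarith [pow_pos hD0 3]
    linarith
  have hD2 : D ^ 2 ≤ 6 / 5 * (δ * q ^ 2) := by
    have h17 : D ^ 2 ≤ (6 / 5 * (δ * q)) ^ 2 := pow_le_pow_left₀ hD0.le hDb 2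
    have h18 : (6 / 5 * (δ * q)) ^ 2 = 36 / 25 * δ * (δ * q ^ 2) := by ring
    rw [h18] at h17
    have h19 : 0 < δ * q ^ 2 := by positivity
    nlinarith
  have hpos : 0 < δ * q ^ 2 := by positivity
  rw [hlog, abs_le]
  constructor <;> nlinarith

/-- consequences of the representation of the values along a run -/
lemma x_ge {l x y u : ℝ} (hl : 1 < l) (hlu : 3 * u = l + l⁻¹) (hxy : 1 ≤ x * y) (hx : 0 < x)
    (_hy : 0 < y)
    (h : 3 * u * ((x + y) / 3) ≤ 2 * ((x * l + y * l⁻¹) / 3)) : 1 ≤ x := by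
  have h1 : 0 < l - l⁻¹ := by
    have : l⁻¹ < 1 := inv_lt_one_of_one_lt₀ hl
    linarith
  have h2 : y ≤ x := by
    by_contra hcon
    push Not at hcon
    rw [hlu] at h
    nlinarith [mul_pos (sub_pos.2 hcon) h1]
  nlinarith

end

end Pool.Agent.N432.MX2P

namespace Pool.Agent.N432.MX2P

open Pool.Agent.H499R2 Pool.Agent.TH880.MK
open Pool.Agent.N576.MX (rn ofr piv pvs wv jj RUNREP)
open Pool.Agent.N576.MX2

noncomputable section

lemma ofr_desc (g : List Bool) (c : Bool) (m : ℕ) (s : List Bool) :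
    desc root (ofr g c m s) = desc (step (desc root (rn g c m)) (!c)) s := by
  have h : ofr g c m s = (rn g c m ++ [!c]) ++ s := by
    unfold Pool.Agent.N576.MX.ofr
    simp
  rw [h, desc_append, desc_snoc]

lemma step_valid {X : Nd} (h : Valid X) (c : Bool) : Valid (step X c) := by
  cases c
  · exact h.rt
  · exact h.lf

/-- the value of a word which leaves a run in terms of the two last values of the run -/
lemma ofr_bound (g : List Bool) (c : Bool) (m : ℕ) (s : List Bool) :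
    |FF (ofr g c m s) - (((sz s : ℝ) - jj c s) * Pool.Agent.H499R2.g (wv g c m) +
      (jj c s : ℝ) * Pool.Agent.H499R2.g ((desc root (rn g c m)).c))| ≤
      2 * (sz s : ℝ) * (1 / ((wv g c m : ℝ) ^ 2 * ((desc root (rn g c m)).c : ℝ) ^ 2)) := by
  have hv := valid_root.desc (rn g c m)
  set Y := desc root (rn g c m) with hY
  have hv' := step_valid hv (!c)
  have hu := ga_upper hv' s
  have hl := ga_lower' hv' s
  have hd := dl_pos hv'
  have hmin : ((min (pt s).1 (pt s).2 : ℕ) : ℝ) ≤ sz s := by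
    have : min (pt s).1 (pt s).2 ≤ sz s := by
      unfold sz
      exact (min_le_left _ _).trans (Nat.le_add_right _ _)
    exact_mod_cast this
  have hmin' := mul_le_mul_of_nonneg_left hmin (show 0 ≤ 2 * dl (step Y (!c)) by linarith)
  have hF : FF (ofr g c m s) = ga (desc (step Y (!c)) s) := by
    unfold FF
    rw [ofr_desc]
  rw [hF]
  have hsz : (sz s : ℝ) = (pt s).1 + (pt s).2 := by
    unfold sz
    push_cast
    ring
  cases c
  · have e1 : al (step Y (!false)) = Pool.Agent.H499R2.g (wv g false m) := rfl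
    have e2 : be (step Y (!false)) = Pool.Agent.H499R2.g (Y.c) := rfl
    have e3 : dl (step Y (!false)) = 1 / ((wv g false m : ℝ) ^ 2 * (Y.c : ℝ) ^ 2) := rfl
    have e4 : (jj false s : ℝ) = (pt s).2 := rfl
    rw [e1, e2] at hu hl
    rw [e3] at hmin' hl hd
    have hs0 : 0 ≤ 2 * (sz s : ℝ) * (1 / ((wv g false m : ℝ) ^ 2 * (Y.c : ℝ) ^ 2)) := by positivity
    rw [e4, abs_le]
    rw [hsz] at hmin' hs0 ⊢
    constructor <;> linarith
  · have e1 : al (step Y (!true)) = Pool.Agent.H499R2.g (Y.c) := rfl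
    have e2 : be (step Y (!true)) = Pool.Agent.H499R2.g (wv g true m) := rfl
    have e3 : dl (step Y (!true)) = 1 / ((Y.c : ℝ) ^ 2 * (wv g true m : ℝ) ^ 2) := rfl
    have e4 : (jj true s : ℝ) = (pt s).1 := rfl
    rw [e1, e2] at hu hl
    rw [e3, mul_comm ((Y.c : ℝ) ^ 2)] at hmin' hl hd
    have hs0 : 0 ≤ 2 * (sz s : ℝ) * (1 / ((wv g true m : ℝ) ^ 2 * (Y.c : ℝ) ^ 2)) := by positivity
    rw [e4, abs_le]
    rw [hsz] at hmin' hs0 ⊢
    constructor <;> linarith

/-- the triple of a node of the run -/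
lemma run_MT (g : List Bool) (c : Bool) :
    MT (piv g c : ℝ) (wv g c 0) ((desc root (rn g c 0)).c) := by
  have h0 : rn g c 0 = g := by
    unfold Pool.Agent.N576.MX.rn
    simp
  have hv := valid_root.desc g
  cases c
  · have : wv g false 0 = (desc root g).a := by
      unfold Pool.Agent.N576.MX.wv
      rw [h0]
      rfl
    rw [h0, this]
    exact hv.mt.swap
  · have : wv g true 0 = (desc root g).b := by
      unfold Pool.Agent.N576.MX.wv
      rw [h0]
      rfl
    rw [h0, this]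
    exact hv.mt

lemma wv_one (g : List Bool) (c : Bool) (m : ℕ) : (1 : ℝ) ≤ wv g c m := by
  have hv := valid_root.desc (rn g c m)
  cases c
  · exact hv.mt.ha
  · exact hv.mt.hb

lemma c_one (g : List Bool) (c : Bool) (m : ℕ) : (1 : ℝ) ≤ (desc root (rn g c m)).c :=
  (valid_root.desc (rn g c m)).mt.c_one

theorem posx : POSX := by
  intro g c
  obtain ⟨x, y, hx, hy, hxy, hw, hc, k0, A, B, hA1, hAu, hB1, hBu, hM, -, -, -, hAx, hBx⟩ :=
    Pool.Agent.N615.MXR.runrep g c
  set u := piv g c with hu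
  have hmt := run_MT g c
  rw [← hu] at hmt
  have hu1 : (1 : ℝ) ≤ u := hmt.ha
  set l := la u with hl
  have hlam : Pool.Agent.N576.MX.lam u = l := rfl
  rw [hlam] at hAx hBx
  simp only [hlam] at hw hc
  have hl' : l = Pool.Agent.H499R2.lam (u : ℝ) := rfl
  have hlinv : l⁻¹ = 3 * u - l := by
    rw [hl']
    exact lam_inv _ hu1
  have hl26 : 2.6 * (u : ℝ) ≤ l := by
    rw [hl']
    exact lam_lower _ hu1
  have hl3 : l ≤ 3 * (u : ℝ) := by
    rw [hl']
    exact lam_upper _ hu1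
  have hl1 : 1 < l := by linarith
  have hl0 : 0 < l := by linarith
  have hll : l * l⁻¹ = 1 := mul_inv_cancel₀ hl0.ne'
  have hDe0 : 0 < De u := by
    unfold De
    nlinarith
  have hDe5 : 5 ≤ De u := by
    unfold De
    nlinarith
  have hsq : Real.sqrt (De u) = l - l⁻¹ := by
    rw [hlinv, hl]
    unfold la De
    ring
  set δ : ℝ := 4 / De u with hδ
  have hδ0 : 0 < δ := by positivity
  have hδ1 : δ ≤ 4 / 5 := by
    rw [hδ]
    exact div_le_div_of_nonneg_left (by norm_num) (by norm_num) hDe5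
  have hρ : 9 * (u : ℝ) ^ 2 / De u = 1 + δ := by
    rw [hδ]
    unfold De at hDe0 ⊢
    field_simp
    ring
  have hxy' : x * y = 1 + δ := by
    rw [hxy, ← hρ]
    rfl
  -- x ≥ 1
  have hx1 : 1 ≤ x := by
    refine x_ge hl1 (u := u) (by rw [hlinv]; ring) (by rw [hxy']; linarith) hx hy ?_
    have h1 := hmt.hc
    have h2 := hw 0
    have h3 := hc 0
    simp only [pow_zero, mul_one, zero_add, pow_one] at h2 h3
    rw [h2, h3] at h1
    exact h1
  -- the coefficient
  have hX0 : X0 u A B = x * (l⁻¹) ^ (k0 + 1) := by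
    unfold X0 Xi
    rw [hsq, hAx, hBx, ← hl]
    have h1 : l - l⁻¹ ≠ 0 := by
      have : l⁻¹ < 1 := inv_lt_one_of_one_lt₀ hl1
      linarith
    rw [div_eq_iff h1]
    have e1 : l ^ (k0 + 1) * l⁻¹ = l ^ k0 := by
      rw [pow_succ, mul_assoc, hll, mul_one]
    have e2 : (l⁻¹) ^ (k0 + 1) * l = (l⁻¹) ^ k0 := by
      rw [pow_succ, mul_assoc, mul_comm (l⁻¹) l, hll, mul_one]
    linear_combination (-y) * e1 - x * e2
  have hX0pos : 0 < X0 u A B := by rw [hX0]; positivity
  have hlogl : 0 < Real.log l := Real.log_pos hl1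
  -- the levels
  have htt : ∀ m : ℕ, tt u A B (m + (k0 + 1)) = Real.log x + m * Real.log l := by
    intro m
    unfold tt
    rw [hX0, Real.log_mul hx.ne' (by positivity), Real.log_pow, Real.log_inv, ← hl]
    push_cast
    ring
  have hexp : ∀ m : ℕ, Real.exp (tt u A B (m + (k0 + 1))) = x * l ^ m := by
    intro m
    rw [htt, Real.exp_add, Real.exp_log hx, Real.exp_nat_mul, Real.exp_log hl0]
  have hexpn : ∀ m : ℕ, (1 + δ) * Real.exp (-tt u A B (m + (k0 + 1))) = y * (l⁻¹) ^ m := by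
    intro m
    rw [Real.exp_neg, hexp, ← hxy', mul_inv, inv_pow]
    field_simp
  have htt0 : ∀ m : ℕ, 0 ≤ tt u A B (m + (k0 + 1)) := by
    intro m
    rw [htt]
    have h1 := Real.log_nonneg hx1
    positivity
  have htts : ∀ m : ℕ, tt u A B ((m + 1) + (k0 + 1)) = tt u A B (m + (k0 + 1)) + Real.log l := by
    intro m
    rw [htt, htt]
    push_cast
    ring
  have hval : ∀ m : ℕ, 3 * (wv g c m : ℝ) = Real.exp (tt u A B (m + (k0 + 1))) +
      (1 + δ) * Real.exp (-tt u A B (m + (k0 + 1))) := by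
    intro m
    rw [hexp, hexpn, hw]
    ring
  have hvalc : ∀ m : ℕ, 3 * ((desc root (rn g c m)).c : ℝ) =
      Real.exp (tt u A B (m + (k0 + 1)) + Real.log l) +
      (1 + δ) * Real.exp (-(tt u A B (m + (k0 + 1)) + Real.log l)) := by
    intro m
    rw [← htts, hexp, hexpn, hc]
    ring
  have hsm : ∀ m : ℕ, Real.exp (-2 * (tt u A B (m + (k0 + 1)) + Real.log l)) ≤ 1 / 6 := by
    intro m
    rw [← htts]
    have e1 : Real.exp (-2 * tt u A B ((m + 1) + (k0 + 1))) = ((x * l ^ (m + 1))⁻¹) ^ 2 := by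
      rw [← hexp, ← Real.exp_neg, ← Real.exp_nat_mul]
      congr 1
      push_cast
      ring
    rw [e1]
    have h1 : 2.6 ≤ x * l ^ (m + 1) := by
      have h2 : l ≤ l ^ (m + 1) := le_self_pow₀ hl1.le (by omega)
      have h3 : 0 < l ^ (m + 1) := by positivity
      nlinarith
    have h4 : (x * l ^ (m + 1))⁻¹ ≤ (2.6 : ℝ)⁻¹ := inv_anti₀ (by norm_num) h1
    have h5 : 0 ≤ (x * l ^ (m + 1))⁻¹ := by positivity
    calc ((x * l ^ (m + 1))⁻¹) ^ 2 ≤ ((2.6 : ℝ)⁻¹) ^ 2 := pow_le_pow_left₀ h5 h4 2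
      _ ≤ 1 / 6 := by norm_num
  -- the level of a node
  have hlev : ∀ m : ℕ, |FF (rn g c m) - (tt u A B (m + (k0 + 1)) + Real.log l)| ≤ 1 := by
    intro m
    have h1 := gval (c_one g c m) (by have := htt0 m; linarith) hδ0 hδ1 (hvalc m)
    have h2 := hsm m
    have h3 : FF (rn g c m) = Pool.Agent.H499R2.g ((desc root (rn g c m)).c) := rfl
    rw [h3, abs_le]
    have h4 : (1 + δ) * Real.exp (-2 * (tt u A B (m + (k0 + 1)) + Real.log l)) ≤
        (9 / 5) * (1 / 6) := by
      apply mul_le_mul (by linarith) h2 (Real.exp_pos _).le (by norm_num)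
    constructor <;> linarith [h1.1, h1.2.1]
  refine ⟨A, B, k0 + 1, ⟨hA1, hAu, hB1, hBu, hM⟩, ?_, hlev, ?_, ?_⟩
  · intro m
    rw [hρ]
    exact hval m
  · -- the index
    intro m
    have h1 := (abs_le.1 (hlev m)).1
    have hv := valid_root.desc (rn g c m)
    have h2 : FF (rn g c m) ≤ 2 * sz (rn g c m) := by
      have h3 := ga_le hv
      have h4 := (al_size hv).2
      have h5 := (be_size hv).2
      have h6 := sz_pq (rn g c m)
      have h7 : (sz (rn g c m) : ℝ) = (desc root (rn g c m)).p + (desc root (rn g c m)).q := by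
        rw [← h6]
        push_cast
        ring
      unfold FF
      rw [h7]
      linarith
    have h8 : Real.log (2 * (u : ℝ))⁻¹ ≤ Real.log (X0 u A B) := by
      apply Real.log_le_log (by positivity)
      unfold X0 Xi
      rw [le_div_iff₀ (by rw [hsq]; have : l⁻¹ < 1 := inv_lt_one_of_one_lt₀ hl1; linarith)]
      have hsq3 : Real.sqrt (De u) ≤ 3 * u := by
        rw [hsq]
        have : 0 < l⁻¹ := by positivity
        linarith
      have hA : (A : ℝ) ≤ u := by exact_mod_cast hAu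
      have hB : (1 : ℝ) ≤ B := by exact_mod_cast hB1
      have h9 : (A : ℝ) * l⁻¹ ≤ 1 / 2.6 := by
        rw [← div_eq_mul_inv, div_le_div_iff₀ hl0 (by norm_num)]
        linarith
      have h10 : (2 * (u : ℝ))⁻¹ * Real.sqrt (De u) ≤ 3 / 2 := by
        calc (2 * (u : ℝ))⁻¹ * Real.sqrt (De u) ≤ (2 * (u : ℝ))⁻¹ * (3 * u) :=
              mul_le_mul_of_nonneg_left hsq3 (by positivity)
          _ = 3 / 2 := by field_simp
      rw [← hl]
      have : (3 : ℝ) / 2 ≤ 3 * 1 - 3 * (1 / 2.6) := by norm_num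
      linarith
    have h11 : Real.log (2 * (u : ℝ)) ≤ Real.log l := Real.log_le_log (by positivity) (by linarith)
    rw [Real.log_inv] at h8
    have h12 : tt u A B (m + (k0 + 1)) = Real.log (X0 u A B) +
        ((m + (k0 + 1) : ℕ) : ℝ) * Real.log l := rfl
    rw [h12] at h1
    have h13 : (3 : ℝ) / 4 ≤ Real.log l := by
      have := g_lower (u : ℝ) hu1
      exact this
    have h14 : ((m + (k0 + 1) : ℕ) : ℝ) * Real.log l ≤ 2 * sz (rn g c m) + 1 := by linarith
    have h15 : ((m + (k0 + 1) : ℕ) : ℝ) * (3 / 4) ≤ ((m + (k0 + 1) : ℕ) : ℝ) * Real.log l :=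
      mul_le_mul_of_nonneg_left h13 (by positivity)
    have h16 : 1 ≤ sz (rn g c m) := by
      unfold sz
      have := (pt_pos (rn g c m)).1
      omega
    have h17 : (1 : ℝ) ≤ sz (rn g c m) := by exact_mod_cast h16
    have h18 : ((m + (k0 + 1) : ℕ) : ℝ) ≤ ((10 * sz (rn g c m) : ℕ) : ℝ) := by
      push_cast at h14 h15 ⊢
      linarith
    exact_mod_cast h18
  · -- the first order gap
    intro H m s hm hH
    set t := tt u A B (m + (k0 + 1)) with ht
    have ht0 : 0 ≤ t := htt0 m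
    obtain ⟨m', rfl⟩ : ∃ m', m = m' + 1 := ⟨m - 1, by omega⟩
    have hq6 : Real.exp (-2 * t) ≤ 1 / 6 := by
      have h1 := hsm m'
      rwa [← htts] at h1
    have hv1 := (gval (wv_one g c (m' + 1)) ht0 hδ0 hδ1 (hval (m' + 1))).2.2 hq6
    have hv2 := (gval (c_one g c (m' + 1)) (by linarith) hδ0 hδ1 (hvalc (m' + 1))).2.2 (hsm (m' + 1))
    rw [← ht] at hv2
    have hb := ofr_bound g c (m' + 1) s
    set j : ℝ := (jj c s : ℝ) with hj
    set i : ℝ := (sz s : ℝ) - j with hi
    have hj0 : 0 ≤ j := by positivity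
    have hi0 : 0 ≤ i := by
      have : jj c s ≤ sz s := by
        unfold Pool.Agent.N576.MX.jj sz
        cases c <;> simp
      have h2 : (jj c s : ℝ) ≤ sz s := by exact_mod_cast this
      linarith
    have hsH : (sz s : ℝ) ≤ H := by
      have h1 := Pool.Agent.N576.MX.sz_app (rn g c (m' + 1) ++ [!c]) s
      have h2 := mm_pos (rn g c (m' + 1) ++ [!c])
      have h3 : (rn g c (m' + 1) ++ [!c]) ++ s = ofr g c (m' + 1) s := by
        unfold Pool.Agent.N576.MX.ofr
        simp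
      rw [h3] at h1
      have h4 : sz s ≤ H := by nlinarith
      exact_mod_cast h4
    -- exponentials
    set q := Real.exp (-2 * t) with hq
    have hq0 : 0 < q := Real.exp_pos _
    have hqt : Real.exp (-2 * (t + Real.log l)) = q * l⁻¹ ^ 2 := by
      rw [show -2 * (t + Real.log l) = -2 * t + (-Real.log l + -Real.log l) by ring, Real.exp_add,
        Real.exp_add, Real.exp_neg, Real.exp_log hl0, ← hq]
      ring
    rw [hqt] at hv2
    have hR : Real.exp (-4 * t - 2 * Real.log l) = q ^ 2 * l⁻¹ ^ 2 := by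
      rw [show -4 * t - 2 * Real.log l = (-2 * t + -2 * t) + (-Real.log l + -Real.log l) by ring,
        Real.exp_add, Real.exp_add, Real.exp_add, Real.exp_neg, Real.exp_log hl0, ← hq]
      ring
    have hI0 : 0 < l⁻¹ := by positivity
    have hI1 : l⁻¹ ≤ 1 := inv_le_one_of_one_le₀ hl1.le
    have hδl : δ ≤ 8 * l⁻¹ ^ 2 := by
      rw [hδ, div_le_iff₀ hDe0]
      have h1 : l ^ 2 ≤ 9 * (u : ℝ) ^ 2 := by nlinarith
      have h2 : 9 * (u : ℝ) ^ 2 ≤ 2 * De u := by unfold De; nlinarith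
      have h3 : 4 * (l ^ 2 * l⁻¹ ^ 2) = 4 := by rw [← mul_pow, hll]; norm_num
      have h4 : 0 < l⁻¹ ^ 2 := by positivity
      nlinarith
    -- values
    have hw3 : Real.exp t / 3 ≤ wv g c (m' + 1) := by
      have h1 := hval (m' + 1)
      rw [← ht] at h1
      have h2 : 0 < (1 + δ) * Real.exp (-t) := by positivity
      linarith
    have hc3 : Real.exp t * l / 3 ≤ (desc root (rn g c (m' + 1))).c := by
      have h1 := hvalc (m' + 1)
      rw [← ht, Real.exp_add, Real.exp_log hl0] at h1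
      have h2 : 0 < (1 + δ) * Real.exp (-(t + Real.log l)) := by positivity
      linarith
    have hdl : 1 / ((wv g c (m' + 1) : ℝ) ^ 2 * ((desc root (rn g c (m' + 1))).c : ℝ) ^ 2) ≤
        81 * (q ^ 2 * l⁻¹ ^ 2) := by
      have h1 : (Real.exp t / 3) ^ 2 * (Real.exp t * l / 3) ^ 2 ≤
          (wv g c (m' + 1) : ℝ) ^ 2 * ((desc root (rn g c (m' + 1))).c : ℝ) ^ 2 :=
        mul_le_mul (pow_le_pow_left₀ (by positivity) hw3 2) (pow_le_pow_left₀ (by positivity) hc3 2)
          (by positivity) (by positivity)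
      have h2 : 0 < (Real.exp t / 3) ^ 2 * (Real.exp t * l / 3) ^ 2 := by positivity
      refine (one_div_le_one_div_of_le h2 h1).trans (le_of_eq ?_)
      have h3 : q = (Real.exp t)⁻¹ ^ 2 := by
        rw [hq, ← Real.exp_neg, ← Real.exp_nat_mul]
        congr 1
        push_cast
        ring
      rw [h3]
      field_simp
      norm_num
    -- conclusion
    have hLG : LL u A B (m' + 1 + (k0 + 1)) ((sz s : ℤ) - jj c s) (jj c s) +
        Pool.Agent.N576.MX2.GG u A B (m' + 1 + (k0 + 1)) ((sz s : ℤ) - jj c s) (jj c s) =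
        i * (t + δ * q) + j * (t + Real.log l + δ * (q * l⁻¹ ^ 2)) := by
      unfold LL Pool.Agent.N576.MX2.GG
      rw [← ht, ← hl, ← hδ, ← hq]
      push_cast
      rw [← hj, ← hi]
      ring
    rw [hLG, hR]
    rw [abs_le] at hv1 hv2 hb ⊢
    have hK0 : 0 < q ^ 2 * l⁻¹ ^ 2 := by positivity
    -- error of the first value
    have hE1 : 2 * δ * q ^ 2 ≤ 16 * (q ^ 2 * l⁻¹ ^ 2) := by
      have := mul_le_mul_of_nonneg_right hδl (show 0 ≤ 2 * q ^ 2 by positivity)
      linarith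
    have hE2 : 2 * δ * (q * l⁻¹ ^ 2) ^ 2 ≤ 16 * (q ^ 2 * l⁻¹ ^ 2) := by
      have h1 : (q * l⁻¹ ^ 2) ^ 2 ≤ q ^ 2 * 1 := by
        rw [mul_pow]
        apply mul_le_mul_of_nonneg_left _ (by positivity)
        have : l⁻¹ ^ 2 ≤ 1 := pow_le_one₀ hI0.le hI1
        exact pow_le_one₀ (by positivity) this
      have h2 : 2 * δ * (q * l⁻¹ ^ 2) ^ 2 ≤ 2 * δ * (q ^ 2 * 1) :=
        mul_le_mul_of_nonneg_left h1 (by positivity)
      linarith
    have hsz0 : (0 : ℝ) ≤ sz s := by positivity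
    have hE3 : 2 * (sz s : ℝ) * (1 / ((wv g c (m' + 1) : ℝ) ^ 2 *
        ((desc root (rn g c (m' + 1))).c : ℝ) ^ 2)) ≤ 162 * H * (q ^ 2 * l⁻¹ ^ 2) := by
      have h1 := mul_le_mul_of_nonneg_left hdl (show 0 ≤ 2 * (sz s : ℝ) by positivity)
      have h2 : 162 * (sz s : ℝ) * (q ^ 2 * l⁻¹ ^ 2) ≤ 162 * H * (q ^ 2 * l⁻¹ ^ 2) :=
        mul_le_mul_of_nonneg_right (by linarith) hK0.le
      linarith
    set K := q ^ 2 * l⁻¹ ^ 2 with hK
    have hij : i + j = sz s := by rw [hi]; ring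
    -- i-part and j-part
    have f1 := mul_le_mul_of_nonneg_left (hv1.1) hi0
    have f2 := mul_le_mul_of_nonneg_left (hv1.2) hi0
    have f3 := mul_le_mul_of_nonneg_left (hv2.1) hj0
    have f4 := mul_le_mul_of_nonneg_left (hv2.2) hj0
    have f5 := mul_le_mul_of_nonneg_left hE1 hi0
    have f6 := mul_le_mul_of_nonneg_left hE2 hj0
    have f7 : (i + j) * (16 * K) ≤ H * (16 * K) := by
      rw [hij]
      exact mul_le_mul_of_nonneg_right hsH (by positivity)
    have f8 : 0 ≤ (H : ℝ) * K := by positivity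
    have hb1 := hb.1
    have hb2 := hb.2
    constructor <;> linarith

end

end Pool.Agent.N432.MX2P
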