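import Mathlib

/-!
Arithmetic of the function `v_1(n,h)`: when some divisor of `n` is not `0` or `1` modulo `h`, the
maximum is attained at exactly one divisor, a prime.
-/

set_option autoImplicit false

namespace Pool.Agent.N432.NonSpan

/-- `⌊(d-2)/h⌋ + 1` -/
def q (h d : ℕ) : ℕ := (d + h - 2) / h

/-- excess -/
def E (h d : ℕ) : ℤ := (h : ℤ) * q h d - d

theorem q_cases (h d : ℕ) (hh : 3 ≤ h) :
    (d % h < 2 ∧ h * q h d + d % h = d) ∨ (2 ≤ d % h ∧ h * q h d + d % h = d + h) := by
  have h1 := Nat.div_add_mod d h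
  have h2 : d % h < h := Nat.mod_lt _ (by omega)
  set t := d / h
  set i := d % h
  unfold q
  rcases Nat.lt_or_ge i 2 with hi | hi
  · left
    refine ⟨hi, ?_⟩
    have : (d + h - 2) / h = t := by
      rw [Nat.div_eq_iff (by omega)]
      constructor
      · rw [Nat.mul_comm]; omega
      · rw [Nat.mul_comm]; omega
    rw [this]
    exact h1
  · right
    refine ⟨hi, ?_⟩
    have : (d + h - 2) / h = t + 1 := by
      rw [Nat.div_eq_iff (by omega)]
      constructor
      · rw [Nat.mul_comm, Nat.mul_add]; omega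
      · rw [Nat.mul_comm, Nat.mul_add]; omega
    rw [this, Nat.mul_add]
    omega

theorem E_of_lt {h d : ℕ} (hh : 3 ≤ h) (hd : d % h < 2) : E h d ≤ 0 := by
  rcases q_cases h d hh with ⟨_, h1⟩ | ⟨h0, _⟩
  · unfold E
    have : ((h * q h d + d % h : ℕ) : ℤ) = d := by exact_mod_cast h1
    push_cast at this
    omega
  · omega

theorem E_of_ge {h d : ℕ} (hh : 3 ≤ h) (hd : 2 ≤ d % h) : E h d = h - (d % h : ℕ) := by
  rcases q_cases h d hh with ⟨h0, _⟩ | ⟨_, h1⟩
  · omega
  · unfold E
    have : ((h * q h d + d % h : ℕ) : ℤ) = ((d + h : ℕ) : ℤ) := by exact_mod_cast h1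
    push_cast at this
    push_cast
    linarith

theorem E_pos {h d : ℕ} (hh : 3 ≤ h) (hd : 2 ≤ d % h) : 1 ≤ E h d := by
  rw [E_of_ge hh hd]
  have h2 : d % h < h := Nat.mod_lt _ (by omega)
  omega

theorem E_le {h d : ℕ} (hh : 3 ≤ h) : E h d ≤ h - 2 := by
  rcases Nat.lt_or_ge (d % h) 2 with h1 | h1
  · have := E_of_lt hh h1
    omega
  · rw [E_of_ge hh h1]
    omega

theorem ge_of_E {h d : ℕ} (hh : 3 ≤ h) (hd : 0 < E h d) : 2 ≤ d % h := by
  by_contra hcon
  have := E_of_lt hh (d := d) (by omega)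
  omega

theorem E_small {h d : ℕ} (hh : 3 ≤ h) (h2 : 2 ≤ d) (hd : d < h) : E h d = h - d := by
  rw [E_of_ge hh (by rw [Nat.mod_eq_of_lt hd]; exact h2), Nat.mod_eq_of_lt hd]

theorem E_mul {h p m : ℕ} (hh : 3 ≤ h) (hp : 2 ≤ p % h) (hm : 1 ≤ m) :
    E h (p * m) ≤ E h p * m := by
  have h1 := E_pos hh hp
  have h2 := E_le (h := h) (d := p * m) hh
  by_contra hcon
  push Not at hcon
  have hmz : (1 : ℤ) ≤ m := by exact_mod_cast hm
  have h3 : 1 ≤ E h p * m := by nlinarith
  have h4 : E h (p * m) - E h p * m = h * ((q h (p * m) : ℤ) - q h p * m) := by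
    unfold E
    push_cast
    ring
  have h5 : 0 < (h : ℤ) * ((q h (p * m) : ℤ) - q h p * m) := by rw [← h4]; linarith
  have hhz : (0 : ℤ) < h := by
    have : (3 : ℤ) ≤ h := by exact_mod_cast hh
    linarith
  have h6 : 0 < (q h (p * m) : ℤ) - q h p * m := by
    by_contra hc
    push Not at hc
    nlinarith
  nlinarith

theorem exists_prime {h : ℕ} (hh : 3 ≤ h) (d : ℕ) (hd0 : 0 < d) (hd : 2 ≤ d % h) :
    ∃ p, p.Prime ∧ p ∣ d ∧ 2 ≤ p % h := by
  induction d using Nat.strong_induction_on with
  | _ d ih =>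
    rcases Nat.lt_or_ge d 2 with h1 | h1
    · obtain rfl : d = 1 := by omega
      rw [Nat.mod_eq_of_lt (by omega)] at hd
      omega
    · have hp := Nat.minFac_prime (n := d) (by omega)
      obtain ⟨m, hm⟩ := Nat.minFac_dvd d
      set p := d.minFac with hpdef
      by_cases hc : 2 ≤ p % h
      · exact ⟨p, hp, ⟨m, hm⟩, hc⟩
      · have hm0 : 0 < m := by
          rcases Nat.eq_zero_or_pos m with h0 | h0
          · subst h0; omega
          · exact h0
        have hmd : m < d := by
          rw [hm]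
          have := hp.two_le
          nlinarith
        have h01 : p % h = 0 ∨ p % h = 1 := by omega
        rcases h01 with h01 | h01
        · rw [hm, Nat.mul_mod, h01] at hd
          simp at hd
        · have h5 : d % h = m % h := by
            conv_lhs => rw [hm, Nat.mul_mod, h01, one_mul, Nat.mod_mod]
          obtain ⟨r, hr, hrm, hr2⟩ := ih m hmd hm0 (by rw [← h5]; exact hd)
          exact ⟨r, hr, hrm.trans ⟨p, by rw [mul_comm]; exact hm⟩, hr2⟩

theorem prime_tie {h p r : ℕ} (hh : 3 ≤ h) (hp : p.Prime) (hr : r.Prime) (hp2 : 2 ≤ p % h)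
    (hr2 : 2 ≤ r % h) (he : E h r * p = E h p * r) : p = r := by
  by_contra hne
  have hcop : IsCoprime (p : ℤ) (r : ℤ) := by
    rw [Nat.isCoprime_iff_coprime]
    exact (Nat.coprime_primes hp hr).2 hne
  have h1 : (p : ℤ) ∣ E h p := by
    have : (p : ℤ) ∣ E h p * r := ⟨E h r, by rw [← he]; ring⟩
    exact hcop.dvd_of_dvd_mul_right this
  have h2 : (r : ℤ) ∣ E h r := by
    have : (r : ℤ) ∣ E h r * p := ⟨E h p, by rw [he]; ring⟩
    exact hcop.symm.dvd_of_dvd_mul_right this
  have h3 := Int.le_of_dvd (by have := E_pos hh hp2; linarith) h1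
  have h4 := Int.le_of_dvd (by have := E_pos hh hr2; linarith) h2
  have h5 := E_le (h := h) (d := p) hh
  have h6 := E_le (h := h) (d := r) hh
  rw [E_small hh hp.two_le (by omega), E_small hh hr.two_le (by omega)] at he
  have h7 : (h : ℤ) * p = h * r := by linarith
  have h8 : (p : ℤ) = r := by
    have hhz : (h : ℤ) ≠ 0 := by
      have : (3 : ℤ) ≤ h := by exact_mod_cast hh
      omega
    exact mul_left_cancel₀ hhz h7
  exact hne (by exact_mod_cast h8)

/-- The optimal divisor. -/
theorem exists_opt {h n : ℕ} (hh : 3 ≤ h) (hn : 0 < n) (hd : ∃ d, d ∣ n ∧ 2 ≤ d % h) :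
    ∃ p, p.Prime ∧ p ∣ n ∧ 2 ≤ p % h ∧ ∀ d, d ∣ n → d ≠ p → q h d * p < q h p * d := by
  classical
  obtain ⟨d0, hd0, hd02⟩ := hd
  obtain ⟨p0, hp0, hp0d, hp02⟩ := exists_prime hh d0 (Nat.pos_of_dvd_of_pos hd0 hn) hd02
  let S := n.divisors.filter (fun p => p.Prime ∧ 2 ≤ p % h)
  have hS : S.Nonempty := ⟨p0, by
    simp only [S, Finset.mem_filter, Nat.mem_divisors]
    exact ⟨⟨hp0d.trans hd0, by omega⟩, hp0, hp02⟩⟩
  obtain ⟨p, hpS, hmax⟩ := Finset.exists_max_image S (fun p => (E h p : ℚ) / p) hS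
  simp only [S, Finset.mem_filter, Nat.mem_divisors] at hpS hmax
  obtain ⟨⟨hpn, -⟩, hp, hp2⟩ := hpS
  have hmax' : ∀ r, r ∣ n → r.Prime → 2 ≤ r % h → E h r * p ≤ E h p * r := by
    intro r hrn hr hr2
    have h1 := hmax r ⟨⟨hrn, by omega⟩, hr, hr2⟩
    have hr0 : (0 : ℚ) < r := by exact_mod_cast hr.pos
    have hp0 : (0 : ℚ) < p := by exact_mod_cast hp.pos
    rw [div_le_div_iff₀ hr0 hp0] at h1
    exact_mod_cast h1
  refine ⟨p, hp, hpn, hp2, fun d hdn hdp => ?_⟩
  have hd0' : 0 < d := Nat.pos_of_dvd_of_pos hdn hn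
  have hdz : (0 : ℤ) < d := by exact_mod_cast hd0'
  have hpz : (0 : ℤ) < p := by exact_mod_cast hp.pos
  have hhz : (0 : ℤ) < h := by
    have : (3 : ℤ) ≤ h := by exact_mod_cast hh
    linarith
  have hEp := E_pos hh hp2
  have key : E h d * p < E h p * d := by
    rcases Nat.lt_or_ge (d % h) 2 with h1 | h1
    · have := E_of_lt hh h1
      nlinarith
    · obtain ⟨r, hr, ⟨m, hm⟩, hr2⟩ := exists_prime hh d hd0' h1
      have hm0 : 1 ≤ m := by
        rcases Nat.eq_zero_or_pos m with h0 | h0
        · subst h0; omega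
        · exact h0
      have h2 : E h d ≤ E h r * m := by rw [hm]; exact E_mul hh hr2 hm0
      have hrn : r ∣ n := (Dvd.intro m hm.symm).trans hdn
      have h3 := hmax' r hrn hr hr2
      have hrz : (0 : ℤ) < r := by exact_mod_cast hr.pos
      have hmz : (0 : ℤ) < m := by exact_mod_cast hm0
      have hdm : (d : ℤ) = r * m := by exact_mod_cast hm
      have h4 : E h d * p ≤ E h p * d := by
        rw [hdm]
        nlinarith
      refine lt_of_le_of_ne h4 fun heq => ?_
      have h5 : E h r * p = E h p * r := by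
        refine le_antisymm h3 ?_
        have : E h p * r * m ≤ E h r * p * m := by
          rw [hdm] at heq
          nlinarith
        exact le_of_mul_le_mul_right this hmz
      obtain rfl : p = r := prime_tie hh hp hr hp2 hr2 h5
      have h6 : E h d = E h p * m := by
        have : E h d * p = E h p * m * p := by
          rw [heq, hdm]
          ring
        exact mul_right_cancel₀ hpz.ne' this
      have hm2 : 2 ≤ m := by
        by_contra hc
        obtain rfl : m = 1 := by omega
        exact hdp (by rw [hm, mul_one])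
      have hs := Nat.minFac_prime (n := m) (by omega)
      have hsm := Nat.minFac_le (n := m) (by omega)
      have hsd : m.minFac ∣ n :=
        ((Nat.minFac_dvd m).trans (Dvd.intro_left p hm.symm)).trans hdn
      set s := m.minFac with hsdef
      have h7 := E_le (h := h) (d := d) hh
      have h8 : E h p * s ≤ h - 2 := by
        have : (s : ℤ) ≤ m := by exact_mod_cast hsm
        nlinarith
      have hs2 : (2 : ℤ) ≤ s := by exact_mod_cast hs.two_le
      have hp2' : (2 : ℤ) ≤ p := by exact_mod_cast hp.two_le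
      have hsh : (s : ℤ) ≤ h - 2 := by nlinarith
      have hEs : E h s = h - s := E_small hh hs.two_le (by omega)
      have hsmod : 2 ≤ s % h := by
        rw [Nat.mod_eq_of_lt (by omega)]
        exact hs.two_le
      have h9 := hmax' s hsd hs hsmod
      have hph : (p : ℤ) < h := by
        rw [hEs] at h9
        nlinarith
      have hEp' : E h p = h - p := E_small hh hp.two_le (by omega)
      rw [hEp'] at h8 h9
      rw [hEs] at h9
      rcases le_total p s with hps | hps
      · have hps' : (p : ℤ) ≤ s := by exact_mod_cast hps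
        nlinarith
      · have hps' : (s : ℤ) ≤ p := by exact_mod_cast hps
        nlinarith
  have h10 : (h : ℤ) * (q h d * p) < h * (q h p * d) := by
    have e1 : (h : ℤ) * q h d = E h d + d := by unfold E; ring
    have e2 : (h : ℤ) * q h p = E h p + p := by unfold E; ring
    calc (h : ℤ) * (q h d * p) = (h * q h d) * p := by ring
      _ = E h d * p + d * p := by rw [e1]; ring
      _ < E h p * d + d * p := by linarith
      _ = (h * q h p) * d := by rw [e2]; ring
      _ = h * (q h p * d) := by ring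
  have h11 := lt_of_mul_lt_mul_left h10 hhz.le
  exact_mod_cast h11

end Pool.Agent.N432.NonSpan
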