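import Mathlib
import Pool.Agent.N432.SignedCrit
import Pool.Agent.N432.NonSpanNum
import Pool.Agent.TH141.PC.Vosper

/-!
Extremal sets whose `h`-fold sumset is not the whole group.
-/

set_option autoImplicit false

open scoped Pointwise
open Finset

namespace Pool.Agent.N432.NonSpan

open Pool.Agent.Helper450.Kneser
open Pool.Agent.N432.SignedCrit
open Pool.Agent.TH141.PC

section Fold

variable {G : Type*} [AddCommGroup G] [DecidableEq G]

theorem mem_sm_iff' {G : Type*} [AddCommGroup G] [Fintype G] [DecidableEq G]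
    (A : Finset G) (h : ℕ) (x : G) :
    x ∈ sm A h ↔ ∃ f : Fin h → G, (∀ i, f i ∈ A) ∧ ∑ i, f i = x := by
  induction h generalizing x with
  | zero =>
    simp only [sm, mem_singleton, univ_eq_empty, sum_empty]
    constructor
    · rintro rfl
      exact ⟨fun i => i.elim0, fun i => i.elim0, rfl⟩
    · rintro ⟨f, -, rfl⟩
      rfl
  | succ h ih =>
    rw [sm, Finset.mem_add]
    constructor
    · rintro ⟨y, hy, b, hb, rfl⟩
      obtain ⟨f, hf, rfl⟩ := (ih y).1 hy
      refine ⟨Fin.snoc f b, ?_, ?_⟩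
      · intro i
        refine Fin.lastCases ?_ ?_ i
        · simpa using hb
        · intro j
          simpa using hf j
      · rw [Fin.sum_univ_castSucc]
        simp
    · rintro ⟨f, hf, rfl⟩
      refine ⟨∑ i : Fin h, f (Fin.castSucc i), (ih _).2 ⟨fun i => f (Fin.castSucc i),
        fun i => hf _, rfl⟩, f (Fin.last h), hf _, ?_⟩
      rw [Fin.sum_univ_castSucc]

end Fold

section Prime

variable {p : ℕ} [Fact p.Prime]

theorem card_add_card_le {X Y : Finset (ZMod p)} {x : ZMod p} (hx : x ∉ X + Y) :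
    X.card + Y.card ≤ p := by
  classical
  have hdisj : Disjoint X (Y.image (fun y => x - y)) := by
    rw [Finset.disjoint_left]
    intro z hz hz'
    obtain ⟨y, hy, rfl⟩ := Finset.mem_image.1 hz'
    exact hx (Finset.mem_add.2 ⟨x - y, hz, y, hy, by ring⟩)
  have h1 : (X ∪ Y.image (fun y => x - y)).card ≤ Fintype.card (ZMod p) := Finset.card_le_univ _
  rwa [Finset.card_union_of_disjoint hdisj, Finset.card_image_of_injective _ sub_right_injective,
    ZMod.card] at h1

theorem card_sm_mono (B : Finset (ZMod p)) (hB : B.Nonempty) (j : ℕ) (hj : 1 ≤ j) :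
    B.card ≤ (sm B j).card := by
  obtain ⟨i, rfl⟩ : ∃ i, j = i + 1 := ⟨j - 1, by omega⟩
  exact Finset.card_le_card_add_left (sm_nonempty hB i)

/-- In a group of prime order a non-spanning set with `p < h |B|` is a progression. -/
theorem isAP_of_large {h : ℕ} (hh : 3 ≤ h) (B : Finset (ZMod p)) {x : ZMod p} (hx : x ∉ sm B h)
    (hc : p < h * B.card) (h2 : 2 ≤ B.card) :
    ∃ g : (ZMod p)ˣ, IsI (B.image (fun y => (g : ZMod p) * y)) := by
  classical
  have hp : p.Prime := Fact.out
  by_contra hcon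
  have hBne : B.Nonempty := Finset.card_pos.1 (by omega)
  have hsplit : ∀ j, j ≤ h → (sm B j).card + (sm B (h - j)).card ≤ p := by
    intro j hj
    apply card_add_card_le (x := x)
    rwa [← sm_add, show j + (h - j) = h by omega]
  have hU : UD B := by
    intro b _ b' _ hbb
    exact (sub_ne_zero.2 hbb).isUnit
  have key : ∀ j, 1 ≤ j → j ≤ h - 1 → j * B.card ≤ (sm B j).card := by
    intro j hj
    induction j, hj using Nat.le_induction with
    | base => intro _; rw [sm_one, one_mul]
    | succ j hj ih =>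
      intro hjh
      have h1 := ih (by omega)
      have h3 := hsplit (j + 1) (by omega)
      have h4 := card_sm_mono B hBne (h - (j + 1)) (by omega)
      have h5 : (sm B (j + 1)).card + 2 ≤ p := by omega
      have hcd := ZMod.cauchy_davenport hp (sm_nonempty hBne j) hBne
      have e : sm B (j + 1) = sm B j + B := rfl
      rw [← e] at hcd
      have h6 : (sm B j).card + B.card ≤ (sm B (j + 1)).card + 1 := by
        rcases le_total p ((sm B j).card + B.card - 1) with h7 | h7
        · rw [min_eq_left h7] at hcd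
          omega
        · rw [min_eq_right h7] at hcd
          omega
      by_contra hlt
      have h8 : (j + 1) * B.card = j * B.card + B.card := by ring
      have h9 : (sm B j + B).card + 1 = (sm B j).card + B.card := by
        rw [← e]
        omega
      have h10 := card_sm_mono B hBne j hj
      obtain ⟨g, -, hg⟩ := vosper (by omega) h2 hU h9 (by rw [← e]; exact h5)
      exact hcon ⟨g, hg⟩
  have h11 := key (h - 1) (by omega) le_rfl
  have h12 := hsplit (h - 1) (by omega)
  rw [show h - (h - 1) = 1 by omega, sm_one] at h12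
  obtain ⟨k, rfl⟩ : ∃ k, h = k + 1 := ⟨h - 1, by omega⟩
  simp only [Nat.add_sub_cancel] at h11 h12
  have : (k + 1) * B.card = k * B.card + B.card := by ring
  omega

/-- In a group of prime order: the structure of the non-spanning sets with `p < h |B|`. -/
theorem structure_prime {h : ℕ} (hh : 3 ≤ h) (B : Finset (ZMod p)) {x : ZMod p} (hx : x ∉ sm B h)
    (hc : p < h * B.card) (h1 : 1 ≤ B.card) :
    ∃ a δ : ZMod p, δ ≠ 0 ∧ ∀ y, y ∈ B ↔ ∃ i : ℕ, i < B.card ∧ y = a + i * δ := by
  classical
  have hp : p.Prime := Fact.out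
  rcases Nat.lt_or_ge B.card 2 with h2 | h2
  · obtain ⟨a, ha⟩ := Finset.card_eq_one.1 (show B.card = 1 by omega)
    subst ha
    refine ⟨a, 1, one_ne_zero, fun y => ?_⟩
    simp only [mem_singleton, card_singleton]
    constructor
    · rintro rfl
      exact ⟨0, by omega, by simp⟩
    · rintro ⟨i, hi, rfl⟩
      obtain rfl : i = 0 := by omega
      simp
  · obtain ⟨g, x0, l, hl⟩ := isAP_of_large hh B hx hc h2
    have hBne : B.Nonempty := Finset.card_pos.1 (by omega)
    have hcard : (B.image (fun y => (g : ZMod p) * y)).card = B.card :=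
      Finset.card_image_of_injective _ (mul_inj g.isUnit)
    have hlt : B.card < p := by
      have h3 : (sm B 1).card + (sm B (h - 1)).card ≤ p := by
        apply card_add_card_le (x := x)
        rwa [← sm_add, show 1 + (h - 1) = h by omega]
      rw [sm_one] at h3
      have := card_sm_mono B hBne (h - 1) (by omega)
      omega
    have hlp : l < p := by
      by_contra hcon
      rw [hl, I_univ (by omega), card_univ, ZMod.card] at hcard
      omega
    have hlB : l = B.card := by
      rw [← hcard, hl, card_I hlp.le]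
    have hgi : ((g⁻¹ : (ZMod p)ˣ) : ZMod p) * g = 1 := Units.inv_mul g
    refine ⟨((g⁻¹ : (ZMod p)ˣ) : ZMod p) * x0, ((g⁻¹ : (ZMod p)ˣ) : ZMod p),
      (Units.ne_zero _), fun y => ?_⟩
    rw [← hlB]
    have h4 : y ∈ B ↔ (g : ZMod p) * y ∈ B.image (fun y => (g : ZMod p) * y) := by
      constructor
      · intro hy
        exact Finset.mem_image_of_mem _ hy
      · intro hy
        obtain ⟨z, hz, hzy⟩ := Finset.mem_image.1 hy
        rwa [← mul_inj g.isUnit hzy]
    rw [h4, hl, mem_I]
    constructor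
    · rintro ⟨i, hi, h5⟩
      refine ⟨i, hi, ?_⟩
      calc y = (((g⁻¹ : (ZMod p)ˣ) : ZMod p) * g) * y := by rw [hgi, one_mul]
        _ = ((g⁻¹ : (ZMod p)ˣ) : ZMod p) * (g * y) := by ring
        _ = _ := by rw [← h5]; ring
    · rintro ⟨i, hi, rfl⟩
      refine ⟨i, hi, ?_⟩
      calc x0 + (i : ZMod p) = (((g⁻¹ : (ZMod p)ˣ) : ZMod p) * g) * (x0 + i) := by
            rw [hgi, one_mul]
        _ = _ := by ring

end Prime

section Main

variable {G : Type*} [AddCommGroup G] [Fintype G] [DecidableEq G]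

theorem exists_hom {p : ℕ} (hp : p.Prime) (H : AddSubgroup G) (hi : H.index = p) :
    ∃ φ : G →+ ZMod p, Function.Surjective φ ∧ ∀ x, φ x = 0 ↔ x ∈ H := by
  haveI : Fact p.Prime := ⟨hp⟩
  have hc : Nat.card (G ⧸ H) = p := hi
  have hcyc : IsAddCyclic (G ⧸ H) := isAddCyclic_of_prime_card hc
  subst hc
  let e := (zmodAddCyclicAddEquiv hcyc).symm
  refine ⟨e.toAddMonoidHom.comp (QuotientAddGroup.mk' H), ?_, ?_⟩
  · exact e.surjective.comp (QuotientAddGroup.mk'_surjective H)
  · intro x
    simp only [AddMonoidHom.coe_comp, Function.comp_apply, QuotientAddGroup.mk'_apply]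
    rw [show e.toAddMonoidHom (x : G ⧸ H) = e (x : G ⧸ H) from rfl, EmbeddingLike.map_eq_zero_iff,
      QuotientAddGroup.eq_zero_iff]

theorem card_fiber {p : ℕ} (φ : G →+ ZMod p) (H : AddSubgroup G) (hφ : ∀ x, φ x = 0 ↔ x ∈ H)
    (C : Finset G) (hC : ∀ x ∈ C, ∀ h ∈ H, x + h ∈ C) :
    C.card = (C.image φ).card * (fs H).card := by
  classical
  rw [Finset.card_eq_sum_card_image φ C, Finset.sum_const_nat]
  intro q hq
  obtain ⟨c, hc, rfl⟩ := Finset.mem_image.1 hq
  have : C.filter (fun x => φ x = φ c) = (fs H).image (fun h => c + h) := by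
    ext x
    simp only [mem_filter, mem_image, mem_fs]
    constructor
    · rintro ⟨hx, hxc⟩
      refine ⟨x - c, ?_, by abel⟩
      rw [← hφ, map_sub, hxc, sub_self]
    · rintro ⟨h, hh, rfl⟩
      exact ⟨hC c hc h hh, by rw [map_add, (hφ h).2 hh, add_zero]⟩
  rw [this, Finset.card_image_of_injective _ (add_right_injective c)]

theorem sm_image {p : ℕ} (φ : G →+ ZMod p) (A : Finset G) (j : ℕ) [NeZero p] :
    sm (A.image φ) j = (sm A j).image φ := by
  induction j with
  | zero => simp [sm]
  | succ j ih => rw [sm, sm, Finset.image_add, ih]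

/-- The structure theorem. -/
theorem structure_main {h p : ℕ} (hh : 3 ≤ h) (hp : p.Prime) (hpn : p ∣ Fintype.card G)
    (hp2 : 2 ≤ p % h) (hopt : ∀ d, d ∣ Fintype.card G → d ≠ p → q h d * p < q h p * d)
    (A : Finset G) (hA : A.card = q h p * (Fintype.card G / p)) {x : G} (hx : x ∉ sm A h) :
    ∃ φ : G →+ ZMod p, Function.Surjective φ ∧ ∃ a δ : ZMod p, δ ≠ 0 ∧
      ∀ y, y ∈ A ↔ ∃ i : ℕ, i < q h p ∧ φ y = a + i * δ := by
  classical
  haveI : Fact p.Prime := ⟨hp⟩
  have hn : 0 < Fintype.card G := Fintype.card_pos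
  have hEp := E_pos hh hp2
  have hqp : p < h * q h p := by
    unfold E at hEp
    have : (p : ℤ) < ((h * q h p : ℕ) : ℤ) := by push_cast; linarith
    exact_mod_cast this
  have hqpos : 0 < q h p := by
    rcases Nat.eq_zero_or_pos (q h p) with h0 | h0
    · rw [h0] at hqp; omega
    · exact h0
  obtain ⟨m, hm⟩ := hpn
  have hm0 : 0 < m := by
    rcases Nat.eq_zero_or_pos m with h0 | h0
    · rw [h0] at hm; omega
    · exact h0
  have hmdiv : Fintype.card G / p = m := by rw [hm]; exact Nat.mul_div_cancel_left _ hp.pos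
  rw [hmdiv] at hA
  have hAne : A.Nonempty := by
    rw [← Finset.card_pos, hA]
    positivity
  have hne : sm A h ≠ univ := fun h' => hx (by rw [h']; exact mem_univ x)
  set H := stab (sm A h) with hH
  have hk := sm_kneser hAne (show 1 ≤ h by omega)
  rw [← hH] at hk
  have hc := card_add_le (sm A h) hne
  rw [← hH] at hc
  have he : 0 < (fs H).card := fs_card_pos H
  obtain ⟨d, hd⟩ : (fs H).card ∣ Fintype.card G := by
    have := card_dvd H (univ : Finset G) (fun _ _ _ _ => mem_univ _)
    rwa [Finset.card_univ] at this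
  have hper : ∀ x ∈ A + fs H, ∀ h ∈ H, x + h ∈ A + fs H := by
    intro x hx h hh
    exact stab_add (le_stab_add_fs A H hh) hx
  obtain ⟨b, hb⟩ := card_dvd H (A + fs H) hper
  set e := (fs H).card with hedef
  have hmain : h * b + 2 ≤ d + h := by
    rw [hb] at hk
    obtain ⟨r, rfl⟩ : ∃ r, h = r + 1 := ⟨h - 1, by omega⟩
    simp only [Nat.add_sub_cancel] at hk
    have h1 : e * ((r + 1) * b + 2) ≤ e * (d + (r + 1)) := by nlinarith
    exact Nat.le_of_mul_le_mul_left h1 he
  have hbq : b ≤ q h d := by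
    unfold q
    rw [Nat.le_div_iff_mul_le (by omega), Nat.mul_comm]
    omega
  have hsub : A ⊆ A + fs H := by
    intro y hy
    have := Finset.add_mem_add hy (mem_fs.2 H.zero_mem)
    rwa [add_zero] at this
  have hAB : A.card ≤ e * b := by
    rw [← hb]
    exact Finset.card_le_card hsub
  have hdp : d = p := by
    by_contra hne'
    have h1 := hopt d ⟨e, by rw [hd, mul_comm]⟩ hne'
    have h2 : q h p * d * e ≤ q h d * p * e := by
      calc q h p * d * e = q h p * (e * d) := by ring
        _ = q h p * (p * m) := by rw [← hd, hm]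
        _ = A.card * p := by rw [hA]; ring
        _ ≤ e * b * p := Nat.mul_le_mul_right _ hAB
        _ ≤ e * q h d * p := Nat.mul_le_mul_right _ (Nat.mul_le_mul_left _ hbq)
        _ = q h d * p * e := by ring
    have h3 := Nat.le_of_mul_le_mul_right h2 he
    omega
  subst hdp
  have hem : e = m := by
    have : d * m = d * e := by rw [← hm, hd, mul_comm]
    exact (Nat.eq_of_mul_eq_mul_left hp.pos this).symm
  have hbeq : b = q h d := by
    refine le_antisymm hbq ?_
    rw [hA, hem] at hAB
    rw [Nat.mul_comm] at hAB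
    exact Nat.le_of_mul_le_mul_left hAB hm0
  have hAeq : A = A + fs H := by
    refine Finset.eq_of_subset_of_card_le hsub ?_
    rw [hb, hA, hbeq, hem, Nat.mul_comm]
  have hAper : ∀ x ∈ A, ∀ h ∈ H, x + h ∈ A := by
    rw [hAeq]
    exact hper
  have hidx : H.index = d := by
    have h1 := H.card_mul_index
    have h2 : Nat.card H = e := by
      rw [hedef, Nat.card_eq_fintype_card, Fintype.card_subtype]
      congr 1
    rw [h2, Nat.card_eq_fintype_card, hd] at h1
    exact Nat.eq_of_mul_eq_mul_left he h1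
  obtain ⟨φ, hsurj, hφ⟩ := exists_hom hp H hidx
  refine ⟨φ, hsurj, ?_⟩
  set B := A.image φ with hBdef
  have hBcard : B.card = q h d := by
    have h1 := card_fiber φ H hφ A hAper
    rw [← hBdef, ← hedef, hA, hem] at h1
    exact (Nat.eq_of_mul_eq_mul_right hm0 h1).symm
  have hxB : φ x ∉ sm B h := by
    rw [hBdef, sm_image]
    intro hmem
    obtain ⟨y, hy, hyx⟩ := Finset.mem_image.1 hmem
    have h1 : x - y ∈ H := by rw [← hφ, map_sub, hyx, sub_self]
    have h2 := (mem_stab.1 h1 y).1 hy
    rw [add_sub_cancel] at h2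
    exact hx h2
  obtain ⟨a, δ, hδ, hst⟩ := structure_prime hh B hxB (by rw [hBcard]; exact hqp)
    (by rw [hBcard]; exact hqpos)
  refine ⟨a, δ, hδ, fun y => ?_⟩
  rw [← hBcard, ← hst (φ y), hBdef]
  constructor
  · intro hy
    exact Finset.mem_image_of_mem _ hy
  · intro hy
    obtain ⟨z, hz, hzy⟩ := Finset.mem_image.1 hy
    have h1 : y - z ∈ H := by rw [← hφ, map_sub, hzy, sub_self]
    have := hAper z hz _ h1
    rwa [add_sub_cancel] at this

/-- The converse. -/
theorem converse {h p : ℕ} (hh : 3 ≤ h) (hp : p.Prime) (φ : G →+ ZMod p)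
    (hsurj : Function.Surjective φ) (a δ : ZMod p) (hδ : δ ≠ 0) (A : Finset G)
    (hA : ∀ y ∈ A, ∃ i : ℕ, i < q h p ∧ φ y = a + i * δ) : ∃ x, x ∉ sm A h := by
  classical
  haveI : Fact p.Prime := ⟨hp⟩
  have hqd : h * q h p ≤ p + h - 2 := by
    unfold q
    exact Nat.mul_div_le _ _
  rcases Nat.eq_zero_or_pos (q h p) with h0 | h0
  · refine ⟨0, fun hmem => ?_⟩
    have hAe : A = ∅ := by
      rw [Finset.eq_empty_iff_forall_notMem]
      intro y hy
      obtain ⟨i, hi, -⟩ := hA y hy
      omega
    obtain ⟨k, rfl⟩ : ∃ k, h = k + 1 := ⟨h - 1, by omega⟩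
    rw [hAe, sm] at hmem
    simp at hmem
  obtain ⟨c, hc⟩ : ∃ c, q h p = c + 1 := ⟨q h p - 1, by omega⟩
  have hkey : ∀ j z, z ∈ sm A j → ∃ k : ℕ, k ≤ j * c ∧ φ z = j * a + k * δ := by
    intro j
    induction j with
    | zero =>
      intro z hz
      simp only [sm, mem_singleton] at hz
      subst hz
      exact ⟨0, by simp, by simp⟩
    | succ j ih =>
      intro z hz
      rw [sm] at hz
      obtain ⟨y, hy, b, hb, rfl⟩ := Finset.mem_add.1 hz
      obtain ⟨k, hk, hk2⟩ := ih y hy
      obtain ⟨i, hi, hi2⟩ := hA b hb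
      refine ⟨k + i, ?_, ?_⟩
      · have : (j + 1) * c = j * c + c := by ring
        omega
      · rw [map_add, hk2, hi2]
        push_cast
        ring
  obtain ⟨x, hx⟩ := hsurj (h * a + ((h * c + 1 : ℕ) : ZMod p) * δ)
  refine ⟨x, fun hmem => ?_⟩
  obtain ⟨k, hk, hk2⟩ := hkey h x hmem
  rw [hx] at hk2
  have h1 : ((h * c + 1 : ℕ) : ZMod p) * δ = (k : ZMod p) * δ := by
    linear_combination hk2
  have h2 := mul_right_cancel₀ hδ h1
  have h3 : h * c + 1 < p := by
    rw [hc, Nat.mul_add] at hqd
    have := hp.two_le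
    omega
  rw [ZMod.natCast_eq_natCast_iff', Nat.mod_eq_of_lt h3, Nat.mod_eq_of_lt (by omega)] at h2
  omega

end Main

end Pool.Agent.N432.NonSpan
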