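import Mathlib
import Pool.Agent.N906.QP.Stm
import Pool.Agent.N499.KG_LOG

/-!
# Project QP, part LOJ: the joint lower bound (helper432 for helper906)

One line version of `Pool/Agent/N499/KG_LOG.lean` (helper499), whose lemmas are used.
-/

set_option autoImplicit false
set_option linter.unusedSectionVars false

namespace Pool.Agent.N432.QP

open NumberField IsDedekindDomain Finset Filter Topology Pool.Agent.H691R3 Pool.Agent.W223.AK
open Pool.Agent.N906.KG Pool.Agent.N499.KG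

variable {K : Type} [Field K] [NumberField K] {q : ℕ}

/-! ### the gain of one ideal -/

/-- the logarithm of the gain of one ideal -/
noncomputable def gg (a : Idl K) : ℝ := len a - rl a

theorem gl_one (a : Idl K) : gl (fun _ : Fin 1 => a) = gg a := by
  classical
  unfold gl gg tl tr rl
  have h : sp (fun _ : Fin 1 => a) = a.support := by
    ext v
    rw [mem_sp, Finsupp.mem_support_iff]
    exact ⟨fun ⟨_, h⟩ => h, fun h => ⟨0, h⟩⟩
  rw [h]
  simp

theorem gg_mono {a b : Idl K} (h : a ≤ b) : gg a ≤ gg b := by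
  rw [← gl_one, ← gl_one]
  exact gl_mono fun _ => h

theorem gg_single (a : Idl K) (v : Pr K) (m : ℕ) :
    gg a + m * Real.log (Nv v) ≤ gg (a + Finsupp.single v (m + 1)) := by
  have h := gl_Dp (fun _ : Fin 1 => a) 0 v m
  rw [gl_one] at h
  have h2 : Dp (fun _ : Fin 1 => a) 0 v (m + 1) =
      fun _ : Fin 1 => a + Finsupp.single v (m + 1) := by
    funext i
    unfold Dp
    rw [if_pos (Subsingleton.elim _ _)]
  rw [h2, gl_one] at h
  exact h

theorem tr_eq (D : Fin q → Idl K) (hD : ∀ i j, i ≠ j → Cop (D i) (D j)) :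
    tr D = ∑ i, rl (D i) := by
  classical
  unfold tr sp rl
  rw [Finset.sum_biUnion]
  intro i _ j _ hij
  rw [Function.onFun, Finset.disjoint_left]
  intro v hv hv'
  rw [Finsupp.mem_support_iff] at hv hv'
  rcases hD i j hij v with h | h
  · exact hv h
  · exact hv' h

theorem tl_split (D : Fin q → Idl K) (hD : ∀ i j, i ≠ j → Cop (D i) (D j)) :
    tl D = ∑ i, gg (D i) + tr D := by
  rw [tr_eq D hD, ← Finset.sum_add_distrib]
  unfold tl gg
  refine Finset.sum_congr rfl fun i _ => ?_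
  ring

/-! ### the facts about the line -/

theorem len_up (h1 : S_BASQ K) (α : Fin q → K × K) (S : Finset (Pr K)) (hα : Al α)
    (hS : Gd S α) : ∃ C : ℝ, 0 ≤ C ∧ ∀ l x, Of α x → ∀ P, IsP S α x P →
      len (P l) ≤ hr (aff x) + C := by
  have h : ∀ l : Fin q, ∃ C : ℝ, 0 ≤ C ∧ ∀ x, Of α x → ∀ P, IsP S α x P →
      len (P l) ≤ hr (aff x) + C := by
    intro l
    have hA : Al (fun _ : Fin 1 => α l) :=
      ⟨fun _ => hα.1 l, fun i j hij => absurd (Subsingleton.elim i j) hij⟩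
    have hG : Gd S (fun _ : Fin 1 => α l) := fun v hv =>
      ⟨fun _ => (hS v hv).1 l, fun i j hij => absurd (Subsingleton.elim i j) hij⟩
    obtain ⟨C, hC, hb⟩ := (h1 1 (fun _ => α l) le_rfl hA).2 S hG
    refine ⟨C + |∑ v ∈ Spl S, loss v|, by positivity, fun x hx P hP => ?_⟩
    have hO : Of (fun _ : Fin 1 => α l) x := fun _ => hx l
    obtain ⟨-, k2, k3, -⟩ := hb x hO
    have hI : IsP S (fun _ : Fin 1 => α l) x (fun _ => P l) :=
      ⟨fun _ => hP.1 l, fun _ v hv => hP.2 l v hv⟩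
    have g1 := (k2 _ hI).2.1
    have g2 : -∑ v ∈ Spl S, loss v ≤ ∑ v ∈ Spl S, lam v (aff x) (α l) := by
      rw [← Finset.sum_neg_distrib]
      exact Finset.sum_le_sum fun v hv => (k3 v hv).1 0
    have g3 : tl (fun _ : Fin 1 => P l) = len (P l) := by
      unfold tl
      simp
    rw [g3] at g1
    simp only [Finset.univ_unique, Finset.sum_const, Finset.card_singleton, one_smul,
      Nat.cast_one, one_mul] at g1
    have g4 := (abs_le.1 g1).1
    have g5 := le_abs_self (∑ v ∈ Spl S, loss v)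
    linarith
  choose C hC hCl using h
  refine ⟨∑ l, C l, Finset.sum_nonneg fun l _ => hC l, fun l x hx P hP => ?_⟩
  have h2 : C l ≤ ∑ l, C l := Finset.single_le_sum (f := C) (fun i _ => hC i) (Finset.mem_univ l)
  linarith [hCl l x hx P hP]

/-- the facts about the line -/
structure Sj (S : Finset (Pr K)) (α : Fin q → K × K) (C c z : ℝ) : Prop where
  spec : ∀ x, Of α x → IsP S α x (pid S α x)
  cop : ∀ x, Of α x → ∀ l l', l ≠ l' → Cop (pid S α x l) (pid S α x l')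
  up : ∀ x, Of α x → ∀ l, len (pid S α x l) ≤ hr (aff x) + C
  cell : ∀ (X : ℝ) (D : Fin q → Idl K) (F : Finset K), 0 ≤ X →
    (∀ x ∈ F, Of α x ∧ hr (aff x) ≤ X ∧ ∀ l, D l ≤ pid S α x l) →
    (F.card : ℝ) ≤ C * (Real.exp (2 * X - tl D) + 1)
  low : ∀ (X : ℝ) (D : Fin q → Idl K), 0 ≤ X → (∀ l l', l ≠ l' → Cop (D l) (D l')) →
    (∀ l v, D l v ≠ 0 → v ∉ S ∧ z ≤ Nv v) → rs D ≤ c →
    ∃ F : Finset K, (∀ x ∈ F, Of α x ∧ hr (aff x) ≤ X ∧
      (∀ w : InfinitePlace K, 0 < (w.embedding x).re) ∧ ∀ l, D l ≤ pid S α x l) ∧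
      c * Real.exp (2 * X - tl D) - C * Real.exp X ≤ F.card

theorem exists_Sj (h1 : S_BASQ K) (h2 : S_CELLQ K) (h3 : S_LOWP K) (hq : 1 ≤ q)
    (S : Finset (Pr K)) (α : Fin q → K × K) (hα : Al α) (hS : Gd S α) :
    ∃ C c z : ℝ, 0 < C ∧ 0 < c ∧ Sj S α C c z := by
  classical
  obtain ⟨Cb, hCb, hb⟩ := (h1 q α hq hα).2 S hS
  obtain ⟨Cu, hCu, hu⟩ := len_up h1 α S hα hS
  obtain ⟨Cc, hCc, hc⟩ := h2 q α S hα hS
  obtain ⟨c₁, c, Cl, z₀, hc₁, hc0, hCl, hl⟩ := h3 q α S hα hS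
  have hsp : ∀ x, Of α x → IsP S α x (pid S α x) := fun x hx => pid_spec (hb x hx).1
  refine ⟨max Cu (max Cc Cl), min c₁ c, z₀,
    lt_max_of_lt_right (lt_max_of_lt_left hCc), lt_min hc₁ hc0, hsp,
    fun x hx => ((hb x hx).2.1 _ (hsp x hx)).1, ?_, ?_, ?_⟩
  · intro x hx l
    have := hu l x hx _ (hsp x hx)
    have := le_max_left Cu (max Cc Cl)
    linarith
  · intro X D F hX hF
    have hC2 : Cc ≤ max Cu (max Cc Cl) := (le_max_left _ _).trans (le_max_right _ _)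
    rcases F.eq_empty_or_nonempty with rfl | ⟨x₀, hx₀⟩
    · simp only [Finset.card_empty, Nat.cast_zero]
      have : 0 ≤ max Cu (max Cc Cl) := hCc.le.trans hC2
      positivity
    · have g1 := hc X D (fun _ => ⟨0, hq⟩) (fun _ => 0) F hX (fun _ _ => le_rfl) ?_ ?_
      · refine g1.trans ?_
        simp only [Finset.sum_const_zero, sub_zero]
        gcongr
      · intro l v hv
        have g2 := (hF x₀ hx₀).2.2 l v
        rw [(hsp x₀ (hF x₀ hx₀).1).1 l v hv] at g2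
        omega
      · intro x hx
        obtain ⟨k1, k2, k3⟩ := hF x hx
        refine ⟨k1, k2, fun v hv => ?_, pid S α x, hsp x k1, k3⟩
        have := ((hb x k1).2.2.1 v hv).1 ⟨0, hq⟩
        linarith
  · intro X D hX hD1 hD2 hD3
    obtain ⟨F, hF, hFc⟩ := hl X D hX hD1 hD2 (hD3.trans (min_le_left _ _))
    have hC3 : Cl ≤ max Cu (max Cc Cl) := (le_max_right _ _).trans (le_max_right _ _)
    have hc2 : min c₁ c ≤ c := min_le_right _ _
    refine ⟨F, ?_, le_trans ?_ hFc⟩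
    · intro x hx
      obtain ⟨k1, k2, k5, P, k3, k4⟩ := hF x hx
      refine ⟨k1, k2, k5, ?_⟩
      rw [← isP_unique k3 (hsp x k1)]
      exact k4
    · have := Real.exp_pos (2 * X - tl D)
      have := Real.exp_pos X
      gcongr

/-! ### the points for a given tuple -/

theorem per1 {S : Finset (Pr K)} {α : Fin q → K × K} {C c z C₄ : ℝ}
    (hα : Sj S α C c z) (hC : 0 < C)
    (hc1 : ∀ (Y : ℝ) (s : Finset (Pr K)), 1 ≤ Y → (∀ v ∈ s, Nv v ≤ Y) → (s.card : ℝ) ≤ C₄ * Y)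
    (hc2 : ∀ (V : ℝ) (s : Finset (Pr K)), 1 ≤ V → (∀ v ∈ s, V < Nv v) →
      ∑ v ∈ s, ((Nv v) ^ 2)⁻¹ ≤ C₄ / V)
    {X V Y η : ℝ} (hX : 0 ≤ X) (hV : 1 ≤ V) (hY : 1 ≤ Y)
    (D₀ D : Fin q → Idl K)
    (hDE : ∀ v, V < Nv v → ∀ i, D i v = D₀ i v) (A : Finset K)
    (hA : ∀ x ∈ A, Of α x ∧ hr (aff x) ≤ X ∧ ∀ l, D l ≤ pid S α x l)
    {W : ℝ} (hW : W = Real.exp (2 * X - tl D))
    (hrs : rs D₀ ≤ η) (hom1 : (om D₀ : ℝ) ≤ η * W)
    (hηV : C₄ / V ≤ η) (hηY1 : C₄ * Y ≤ η * W) :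
    ∃ G ⊆ A, (∀ x ∈ G, ∀ v, V < Nv v → Nv v ≤ Y →
      (v ∈ sp D₀ → ∀ i, pid S α x i v = D₀ i v) ∧
      (v ∉ sp D₀ → ∑ i, pid S α x i v ≤ 1)) ∧
      (A.card : ℝ) - η * C * (4 * q) * W ≤ G.card := by
  classical
  have hW0 : 0 < W := by rw [hW]; exact Real.exp_pos _
  have hη : 0 ≤ η := le_trans (Finset.sum_nonneg fun v _ => (inv_pos.2 (Nv_pos v)).le) hrs
  set G : Finset K := A.filter (fun x => ∀ v, V < Nv v → Nv v ≤ Y →
      (v ∈ sp D₀ → ∀ i, pid S α x i v = D₀ i v) ∧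
      (v ∉ sp D₀ → ∑ i, pid S α x i v ≤ 1)) with hG
  set fA : Fin q → Pr K → ℕ → Finset K := fun l v m =>
    A.filter (fun x => ∀ l', Dp D l v m l' ≤ pid S α x l') with hfA
  set s : Finset (Pr K) := (A.biUnion fun x => sp (pid S α x)).filter
    (fun v => V < Nv v ∧ Nv v ≤ Y) with hs
  have hfAc : ∀ l v m, ((fA l v m).card : ℝ) ≤ C * (W * ((Nv v) ^ m)⁻¹ + 1) := by
    intro l v m
    have h := hα.cell X (Dp D l v m) (fA l v m) hX (fun x hx => by
      have hx' := Finset.mem_filter.1 hx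
      exact ⟨(hA x hx'.1).1, (hA x hx'.1).2.1, hx'.2⟩)
    rwa [exp_tl_Dp, ← hW] at h
  have hs2 : ∑ v ∈ s, ((Nv v) ^ 2)⁻¹ ≤ η :=
    (hc2 V s hV fun v hv => (Finset.mem_filter.1 hv).2.1).trans hηV
  have hs1 : (s.card : ℝ) ≤ C₄ * Y := hc1 Y s hY fun v hv => (Finset.mem_filter.1 hv).2.2
  -- the sums
  have hS1 : ∀ l, ∑ v ∈ sp D₀, ((fA l v 1).card : ℝ) ≤ 2 * C * η * W := by
    intro l
    calc ∑ v ∈ sp D₀, ((fA l v 1).card : ℝ) ≤ ∑ v ∈ sp D₀, C * (W * (Nv v)⁻¹ + 1) := by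
          refine Finset.sum_le_sum fun v _ => ?_
          have := hfAc l v 1
          rwa [pow_one] at this
      _ = C * (W * rs D₀ + om D₀) := by
          unfold rs om
          rw [← Finset.mul_sum, Finset.sum_add_distrib, ← Finset.mul_sum]
          simp
      _ ≤ C * (W * η + η * W) := by gcongr
      _ = _ := by ring
  have hS2 : ∀ l, ∑ v ∈ s, ((fA l v 2).card : ℝ) ≤ 2 * C * η * W := by
    intro l
    calc ∑ v ∈ s, ((fA l v 2).card : ℝ) ≤ ∑ v ∈ s, C * (W * ((Nv v) ^ 2)⁻¹ + 1) :=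
          Finset.sum_le_sum fun v _ => hfAc l v 2
      _ = C * (W * ∑ v ∈ s, ((Nv v) ^ 2)⁻¹ + s.card) := by
          rw [← Finset.mul_sum, Finset.sum_add_distrib, ← Finset.mul_sum]
          simp
      _ ≤ C * (W * η + η * W) := by
          have := hs1.trans hηY1
          gcongr
      _ = _ := by ring
  -- the bad points
  have hsub : A \ G ⊆
      (Finset.univ.biUnion fun l => (sp D₀).biUnion fun v => fA l v 1) ∪
      (Finset.univ.biUnion fun l => s.biUnion fun v => fA l v 2) := by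
    intro x hp
    rw [Finset.mem_sdiff, hG, Finset.mem_filter] at hp
    obtain ⟨hx, hp2⟩ := hp
    have hp3 : ¬ ∀ v, V < Nv v → Nv v ≤ Y →
      (v ∈ sp D₀ → ∀ i, pid S α x i v = D₀ i v) ∧
      (v ∉ sp D₀ → ∑ i, pid S α x i v ≤ 1) := fun h => hp2 ⟨hx, h⟩
    push Not at hp3
    obtain ⟨v, hv1, hv2, hv3⟩ := hp3
    obtain ⟨hOx, hHx, hDx⟩ := hA x hx
    simp only [Finset.mem_union, Finset.mem_biUnion, Finset.mem_univ, true_and]
    by_cases hv : v ∈ sp D₀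
    · left
      have hv4 : ¬ ∀ i, pid S α x i v = D₀ i v := by
        intro h
        exact absurd (hv3 fun _ => h).1 (not_not.2 hv)
      push Not at hv4
      obtain ⟨j, hj⟩ := hv4
      rw [← hDE v hv1 j] at hj
      have h1 := hDx j v
      refine ⟨j, v, hv, ?_⟩
      rw [hfA, Finset.mem_filter]
      exact ⟨hx, Dp_le hDx (by omega)⟩
    · right
      have hv4 : 2 ≤ ∑ i, pid S α x i v := (hv3 fun h => absurd h hv).2
      have hD0 : ∀ l, D l v = 0 := by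
        intro l
        rw [hDE v hv1 l]
        by_contra h
        exact hv ((mem_sp D₀ v).2 ⟨_, h⟩)
      obtain ⟨l, hl⟩ := exists_of_sum (hα.cop x hOx) (by norm_num) hv4
      refine ⟨l, v, ?_, ?_⟩
      · rw [hs, Finset.mem_filter, Finset.mem_biUnion]
        exact ⟨⟨x, hx, (mem_sp _ v).2 ⟨l, by omega⟩⟩, hv1, hv2⟩
      · rw [hfA, Finset.mem_filter]
        exact ⟨hx, Dp_le hDx (by rw [hD0]; omega)⟩
  have hc : ((A \ G).card : ℝ) ≤ η * C * (4 * q) * W := by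
    have h1 : (A \ G).card ≤ ∑ l, ∑ v ∈ sp D₀, (fA l v 1).card +
        ∑ l, ∑ v ∈ s, (fA l v 2).card := by
      refine (Finset.card_le_card hsub).trans ((Finset.card_union_le _ _).trans (add_le_add ?_ ?_))
      · exact Finset.card_biUnion_le.trans (Finset.sum_le_sum fun l _ => Finset.card_biUnion_le)
      · exact Finset.card_biUnion_le.trans (Finset.sum_le_sum fun l _ => Finset.card_biUnion_le)
    have h2 : ((A \ G).card : ℝ) ≤ ∑ l, (∑ v ∈ sp D₀, ((fA l v 1).card : ℝ)) +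
        ∑ l, (∑ v ∈ s, ((fA l v 2).card : ℝ)) := by
      exact_mod_cast h1
    refine h2.trans ?_
    have a1 : ∑ l, (∑ v ∈ sp D₀, ((fA l v 1).card : ℝ)) ≤ ∑ _l : Fin q, (2 * C * η * W) :=
      Finset.sum_le_sum fun l _ => hS1 l
    have a3 : ∑ l, (∑ v ∈ s, ((fA l v 2).card : ℝ)) ≤ ∑ _l : Fin q, (2 * C * η * W) :=
      Finset.sum_le_sum fun l _ => hS2 l
    simp only [Finset.sum_const, Finset.card_univ, Fintype.card_fin, nsmul_eq_mul] at a1 a3
    refine (add_le_add a1 a3).trans (le_of_eq ?_)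
    ring
  refine ⟨G, Finset.filter_subset _ _, fun p hp => (Finset.mem_filter.1 hp).2, ?_⟩
  have h1 : (A.card : ℝ) = (A \ G).card + G.card := by
    have := Finset.card_sdiff_add_card_eq_card (Finset.filter_subset (fun x : K =>
      ∀ v, V < Nv v → Nv v ≤ Y →
      (v ∈ sp D₀ → ∀ i, pid S α x i v = D₀ i v) ∧
      (v ∉ sp D₀ → ∑ i, pid S α x i v ≤ 1)) A)
    exact_mod_cast this.symm
  rw [h1]
  linarith

/-! ### large primes and the main terms -/

theorem big_prime (h4 : S_WINJ K) (B : ℝ) : ∃ v : Pr K, B < Nv v := by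
  classical
  obtain ⟨Z₀, hZ₀, h⟩ := h4 1 (fun _ => 1) (1 / 2) 1 (fun _ => zero_le_one) (by norm_num)
    (by norm_num) one_pos
  by_contra hno
  push Not at hno
  obtain ⟨F, hF, hs⟩ := h (max Z₀ (B ^ 2)) (le_max_left _ _)
  have hZ1 : 1 < max Z₀ (B ^ 2) := lt_max_of_lt_left hZ₀
  have hsq : B ≤ √(max Z₀ (B ^ 2)) := Real.le_sqrt_of_sq_le (le_max_right _ _)
  have hzero : ∀ D ∈ F, D = 0 := by
    intro D hD
    funext l
    ext v
    by_contra hv
    have h1 := (hF D hD).2.2.1 v ((mem_sp D v).2 ⟨l, hv⟩)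
    have h2 := hno v
    linarith
  have h1 : ∑ D ∈ F, Real.exp (-tr D) ≤ 1 := by
    refine (Finset.sum_le_sum_of_subset_of_nonneg (t := {0}) (fun D hD => ?_)
      (fun D _ _ => (Real.exp_pos _).le)).trans ?_
    · rw [Finset.mem_singleton]
      exact hzero D hD
    · rw [Finset.sum_singleton]
      rw [Real.exp_le_one_iff]
      have := tr_nonneg (K := K) (0 : Fin 1 → Idl K)
      linarith
  have h2 : 1 < Real.exp ((1 - 1 / 2) * ∑ _i : Fin 1, √(8 * 1 * max Z₀ (B ^ 2) /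
      Real.log (max Z₀ (B ^ 2)))) := by
    rw [Real.one_lt_exp_iff]
    have h4 := Real.log_pos hZ1
    have h5 : 0 < 8 * 1 * max Z₀ (B ^ 2) / Real.log (max Z₀ (B ^ 2)) := by
      apply div_pos _ h4
      linarith
    have h7 := Real.sqrt_pos.2 h5
    simp only [Finset.univ_unique, Finset.sum_const, Finset.card_singleton, one_smul]
    linarith
  linarith

/-- different large primes -/
theorem big_primes (h4 : S_WINJ K) (q : ℕ) (B : ℝ) :
    ∃ 𝔮 : Fin q → Pr K, Function.Injective 𝔮 ∧ ∀ l, B < Nv (𝔮 l) := by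
  have hinf : {v : Pr K | B < Nv v}.Infinite := by
    intro hfin
    obtain ⟨v, hv⟩ := big_prime h4 (B + ∑ v ∈ hfin.toFinset, Nv v)
    have hs : 0 ≤ ∑ v ∈ hfin.toFinset, Nv v := Finset.sum_nonneg fun u _ => (Nv_pos u).le
    have hvm : v ∈ hfin.toFinset := by
      rw [Set.Finite.mem_toFinset]
      change B < Nv v
      linarith
    have h1 : Nv v ≤ ∑ v ∈ hfin.toFinset, Nv v :=
      Finset.single_le_sum (f := fun v => Nv v) (fun u _ => (Nv_pos u).le) hvm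
    by_cases hB : 0 ≤ B
    · linarith
    · obtain ⟨v', hv'⟩ := big_prime h4 (∑ v ∈ hfin.toFinset, Nv v)
      have hvm' : v' ∈ hfin.toFinset := by
        rw [Set.Finite.mem_toFinset]
        change B < Nv v'
        linarith [Nv_pos v']
      have h1' : Nv v' ≤ ∑ v ∈ hfin.toFinset, Nv v :=
        Finset.single_le_sum (f := fun v => Nv v) (fun u _ => (Nv_pos u).le) hvm'
      linarith
  have := hinf.to_subtype
  let f := Infinite.natEmbedding {v : Pr K | B < Nv v}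
  refine ⟨fun l => (f (l : ℕ) : Pr K), ?_, fun l => (f (l : ℕ)).2⟩
  intro i j hij
  have := f.injective (Subtype.ext hij)
  exact Fin.ext this

/-- the comparison of the main terms -/
theorem cmp1 {κ : Fin q → ℝ} {ε ε' : ℝ} (b : ℝ) (hκ0 : 0 < ∑ l, κ l)
    (hε : ε' < ε) : ∀ᶠ X : ℝ in atTop,
    b + (1 - ε) * ∑ l, √(8 * κ l * X / Real.log X) ≤
      (1 - ε') * ∑ l, √(8 * κ l * X / Real.log X) := by
  obtain ⟨l₀, -, hl₀⟩ := Finset.exists_lt_of_sum_lt (f := fun _ => (0 : ℝ)) (g := κ)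
    (s := Finset.univ) (by simpa using hκ0)
  set B : ℝ := |b| / (ε - ε') with hB
  have hB0 : 0 ≤ B := div_nonneg (abs_nonneg _) (by linarith)
  have hlog := Real.isLittleO_log_id_atTop.def (c := 8 * κ l₀ / (B ^ 2 + 1)) (by positivity)
  filter_upwards [hlog, eventually_gt_atTop (1 : ℝ)] with X h1 h5
  have hX0 : 0 < X := by linarith
  have hlX : 0 < Real.log X := Real.log_pos h5
  rw [Real.norm_of_nonneg hlX.le, id, Real.norm_of_nonneg hX0.le] at h1
  have h2 : B ≤ √(8 * κ l₀ * X / Real.log X) := by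
    apply Real.le_sqrt_of_sq_le
    rw [le_div_iff₀ hlX]
    calc B ^ 2 * Real.log X ≤ (B ^ 2 + 1) * Real.log X := by gcongr; linarith
      _ ≤ (B ^ 2 + 1) * (8 * κ l₀ / (B ^ 2 + 1) * X) := by gcongr
      _ = 8 * κ l₀ * X := by field_simp
  have h3 : √(8 * κ l₀ * X / Real.log X) ≤ ∑ l, √(8 * κ l * X / Real.log X) :=
    Finset.single_le_sum (f := fun l => √(8 * κ l * X / Real.log X))
      (fun l _ => Real.sqrt_nonneg _) (Finset.mem_univ l₀)
  have h4 : b ≤ (ε - ε') * ∑ l, √(8 * κ l * X / Real.log X) := by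
    have h6 : |b| = (ε - ε') * B := by
      rw [hB, mul_div_cancel₀ _ (by linarith : ε - ε' ≠ 0)]
    calc b ≤ |b| := le_abs_self b
      _ = (ε - ε') * B := h6
      _ ≤ _ := mul_le_mul_of_nonneg_left (h2.trans h3) (by linarith)
  linarith

/-! ### the lower bound -/

theorem rs_union {D D' : Fin q → Idl K} (𝔮 : Fin q → Pr K)
    (h : ∀ l v, D' l v ≠ 0 → D l v ≠ 0 ∨ v = 𝔮 l) :
    rs D' ≤ rs D + ∑ l, (Nv (𝔮 l))⁻¹ := by
  classical
  have h1 : sp D' ⊆ sp D ∪ Finset.univ.image 𝔮 := by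
    intro v hv
    obtain ⟨l, hl⟩ := (mem_sp D' v).1 hv
    rw [Finset.mem_union]
    rcases h l v hl with h2 | h2
    · exact Or.inl ((mem_sp D v).2 ⟨l, h2⟩)
    · exact Or.inr (Finset.mem_image.2 ⟨l, Finset.mem_univ _, h2.symm⟩)
  have h0 : ∀ v : Pr K, 0 ≤ (Nv v)⁻¹ := fun v => (inv_pos.2 (Nv_pos v)).le
  have h2 : ∑ v ∈ sp D ∪ Finset.univ.image 𝔮, (Nv v)⁻¹ ≤
      ∑ v ∈ sp D, (Nv v)⁻¹ + ∑ v ∈ Finset.univ.image 𝔮, (Nv v)⁻¹ := by
    rw [← Finset.sum_union_inter]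
    have : 0 ≤ ∑ v ∈ sp D ∩ Finset.univ.image 𝔮, (Nv v)⁻¹ := Finset.sum_nonneg fun v _ => h0 v
    linarith
  have h3 : ∑ v ∈ Finset.univ.image 𝔮, (Nv v)⁻¹ ≤ ∑ l, (Nv (𝔮 l))⁻¹ :=
    Finset.sum_image_le_of_nonneg (fun v _ => h0 v)
  unfold rs
  refine (Finset.sum_le_sum_of_subset_of_nonneg h1 fun v _ _ => h0 v).trans (h2.trans ?_)
  linarith

theorem loj (K : Type) [Field K] [NumberField K] (h1 : S_BASQ K) (h2 : S_CELLQ K)
    (h3 : S_LOWP K) (h4 : S_WINJ K) : S_LOJ K := by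
  classical
  obtain ⟨C₄, hC₄, hc1, hc2⟩ := Pool.Agent.N803.RS.cnt K
  intro q α S κ ε C₀ hq hα hS hκ hκ0 hκ1 hε0 hε1 hC₀
  obtain ⟨C, c, z, hC, hc, hA⟩ := exists_Sj h1 h2 h3 hq S α hα hS
  have hq0 : (0 : ℝ) < q := by exact_mod_cast hq
  set κs : ℝ := ∑ l, κ l with hκs
  obtain ⟨η, hη, hηk⟩ : ∃ η : ℝ, 0 < η ∧ η * C * (4 * q) = c / 4 :=
    ⟨c / (16 * C * q), by positivity, by field_simp; ring⟩
  obtain ⟨ε', hε'0, hε'1, hε'2⟩ : ∃ ε' : ℝ, 0 < ε' ∧ ε' < ε ∧ ε' ≤ (1 - κs) / 2 :=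
    ⟨min (ε / 2) ((1 - κs) / 2), lt_min (by linarith) (by linarith),
      lt_of_le_of_lt (min_le_left _ _) (by linarith), min_le_right _ _⟩
  obtain ⟨cw, hcw0, hcw1, hcw2⟩ : ∃ cw : ℝ, 0 < cw ∧ cw ≤ c / 2 ∧ cw ≤ η :=
    ⟨min (c / 2) η, lt_min (by linarith) hη, min_le_left _ _, min_le_right _ _⟩
  obtain ⟨Z₀, hZ₀, hwin⟩ := h4 q κ ε' cw hκ hε'0 (by linarith) hcw0
  obtain ⟨𝔮, h𝔮i, h𝔮⟩ := big_primes h4 q (max (max (2 * q / c) z) (∑ v ∈ S, Nv v))
  have h𝔮c : ∀ l, (Nv (𝔮 l))⁻¹ ≤ c / (2 * q) := by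
    intro l
    have g1 : 2 * q / c < Nv (𝔮 l) :=
      lt_of_le_of_lt ((le_max_left _ _).trans (le_max_left _ _)) (h𝔮 l)
    rw [inv_le_comm₀ (Nv_pos _) (by positivity), inv_div]
    exact g1.le
  have h𝔮z : ∀ l, z < Nv (𝔮 l) := fun l =>
    lt_of_le_of_lt ((le_max_right _ _).trans (le_max_left _ _)) (h𝔮 l)
  have h𝔮S : ∀ l, ∀ v ∈ S, Nv v < Nv (𝔮 l) := by
    intro l v hv
    refine lt_of_le_of_lt ?_ (lt_of_le_of_lt (le_max_right _ _) (h𝔮 l))
    exact Finset.single_le_sum (f := fun v => Nv v) (fun u _ => (Nv_pos u).le) hv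
  have h𝔮sum : ∑ l, (Nv (𝔮 l))⁻¹ ≤ c / 2 := by
    calc ∑ l, (Nv (𝔮 l))⁻¹ ≤ ∑ _l : Fin q, c / (2 * q) := Finset.sum_le_sum fun l _ => h𝔮c l
      _ = c / 2 := by
        rw [Finset.sum_const, Finset.card_univ, Fintype.card_fin, nsmul_eq_mul]
        field_simp
  obtain ⟨lq, hlqd⟩ : ∃ lq : Fin q → ℝ, ∀ l, lq l = Real.log (Nv (𝔮 l)) := ⟨_, fun _ => rfl⟩
  have hlq : ∀ l, 0 < lq l := fun l => by rw [hlqd]; exact log_Nv_pos _
  obtain ⟨L, hL⟩ : ∃ L : ℝ, L = ∑ l, lq l := ⟨_, rfl⟩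
  obtain ⟨C₁, hC₁, hC₁d⟩ : ∃ C₁ : ℝ, 0 ≤ C₁ ∧ C₁ = C + C₀ := ⟨_, by positivity, rfl⟩
  obtain ⟨a, ha⟩ : ∃ a : ℝ, a = q * C₁ := ⟨_, rfl⟩
  obtain ⟨M, hM1, hM2, hM3, hM4⟩ : ∃ M : ℝ, 1 ≤ M ∧ 2 / η ≤ M ∧ C₄ / η ≤ M ∧ 2 * C / c ≤ M := by
    have g1 : 0 < 2 / η := by positivity
    have g2 : 0 < C₄ / η := by positivity
    have g3 : 0 < 2 * C / c := by positivity
    exact ⟨2 / η + C₄ / η + 2 * C / c + 1, by linarith, by linarith, by linarith, by linarith⟩
  have hM0 : 0 < M := by linarith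
  obtain ⟨V₀, hV1, hVq, hVc⟩ : ∃ V₀ : ℝ, 1 ≤ V₀ ∧ (∀ l, Nv (𝔮 l) ≤ V₀) ∧ C₄ / η ≤ V₀ := by
    refine ⟨1 + ∑ l, Nv (𝔮 l) + C₄ / η, ?_, fun l => ?_, ?_⟩
    · have g1 : 0 ≤ ∑ l, Nv (𝔮 l) := Finset.sum_nonneg fun u _ => (Nv_pos _).le
      have g2 : 0 < C₄ / η := by positivity
      linarith
    · have g1 : Nv (𝔮 l) ≤ ∑ l, Nv (𝔮 l) :=
        Finset.single_le_sum (f := fun l => Nv (𝔮 l)) (fun u _ => (Nv_pos _).le) (Finset.mem_univ l)
      have g2 : 0 < C₄ / η := by positivity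
      linarith
    · have g1 : 0 ≤ ∑ l, Nv (𝔮 l) := Finset.sum_nonneg fun u _ => (Nv_pos _).le
      linarith
  have t2 : Tendsto (fun X : ℝ => (1 - κs) / 2 * X) atTop atTop :=
    tendsto_id.const_mul_atTop (by linarith : (0 : ℝ) < (1 - κs) / 2)
  have e1 := eventually_ge_atTop Z₀
  have e2 := eventually_ge_atTop (V₀ ^ 2)
  have e3 := t2.eventually_ge_atTop (a + 2 * L + Real.log M)
  have e5 := cmp1 (a + 2 * L - Real.log (c / 4)) (κ := κ) (by rw [← hκs]; exact hκ0) hε'1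
  have hev := e1.and (e2.and (e3.and (e5.and (eventually_ge_atTop (1 : ℝ)))))
  obtain ⟨X₀, hX₀⟩ := Filter.eventually_atTop.1 hev
  refine ⟨max X₀ 2, lt_max_of_lt_right (by norm_num), fun X hX => ?_⟩
  obtain ⟨f1, f2, f3, f5, f6⟩ := hX₀ X ((le_max_left _ _).trans hX)
  have hX0 : 0 ≤ X := by linarith
  have hVX : V₀ ≤ √X := Real.le_sqrt_of_sq_le f2
  obtain ⟨Y, hYd⟩ : ∃ Y : ℝ, Y = Real.exp (ε' * X) := ⟨_, rfl⟩
  have hε'X : ε' * X ≤ X := by
    have : ε' ≤ 1 := by linarith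
    nlinarith
  have hY1 : 1 ≤ Y := by
    rw [hYd]
    exact Real.one_le_exp (mul_nonneg hε'0.le hX0)
  have hYX : Y ≤ Real.exp X := by
    rw [hYd, Real.exp_le_exp]
    exact hε'X
  obtain ⟨F, hF, hFs⟩ := hwin X f1
  have hbig : ∀ v : Pr K, √X < Nv v → ∀ l, v ≠ 𝔮 l := by
    intro v hv l h
    have g1 : Nv (𝔮 l) < Nv v := lt_of_le_of_lt ((hVq l).trans hVX) hv
    rw [h] at g1
    exact lt_irrefl _ g1
  have hbigS : ∀ v : Pr K, √X < Nv v → v ∉ S ∧ z ≤ Nv v := by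
    intro v hv
    have g1 : Nv (𝔮 ⟨0, hq⟩) < Nv v := lt_of_le_of_lt ((hVq _).trans hVX) hv
    refine ⟨fun h => ?_, ?_⟩
    · have := h𝔮S ⟨0, hq⟩ v h
      linarith
    · have := h𝔮z ⟨0, hq⟩
      linarith
  -- the points for one tuple
  have hG : ∀ D₀ : Fin q → Idl K, ∃ G : Finset K, D₀ ∈ F →
      (∀ x ∈ G, (Of α x ∧ hr (aff x) ≤ X ∧ (∀ w : InfinitePlace K, 0 < (w.embedding x).re) ∧
        ∀ l, rl (pid S α x l) + C₀ ≤ (1 - κ l) * hr (aff x)) ∧
        ∀ v, √X < Nv v → Nv v ≤ Y →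
          (v ∈ sp D₀ → ∀ i, pid S α x i v = D₀ i v) ∧
          (v ∉ sp D₀ → ∑ i, pid S α x i v ≤ 1)) ∧
      c / 4 * Real.exp ((2 - κs) * X - a - 2 * L - tr D₀) ≤ G.card := by
    intro D₀
    by_cases hD : D₀ ∈ F
    swap
    · exact ⟨∅, fun h => absurd h hD⟩
    obtain ⟨hcop, hSq, hsp, hgl, htr, hrs⟩ := hF D₀ hD
    -- the exponents of the primes
    have hj : ∀ l, ∃ j : ℕ, κ l * X + C₁ ≤ gg (D₀ l) + j * lq l ∧
        gg (D₀ l) + j * lq l ≤ κ l * X + C₁ + lq l := by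
      intro l
      have hgl' : gg (D₀ l) ≤ κ l * X := hgl l
      refine ⟨⌈(κ l * X + C₁ - gg (D₀ l)) / lq l⌉₊, ?_⟩
      have h6 : 0 ≤ (κ l * X + C₁ - gg (D₀ l)) / lq l := by
        apply div_nonneg _ (hlq l).le
        linarith
      have h7 := Nat.le_ceil ((κ l * X + C₁ - gg (D₀ l)) / lq l)
      have h8 := (Nat.ceil_lt_add_one h6).le
      rw [div_le_iff₀ (hlq l)] at h7
      have h9 : (⌈(κ l * X + C₁ - gg (D₀ l)) / lq l⌉₊ : ℝ) * lq l ≤
          ((κ l * X + C₁ - gg (D₀ l)) / lq l + 1) * lq l :=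
        mul_le_mul_of_nonneg_right h8 (hlq l).le
      rw [add_mul, one_mul, div_mul_cancel₀ _ (hlq l).ne'] at h9
      constructor <;> linarith
    choose j hj1 hj2 using hj
    obtain ⟨D, hDd⟩ : ∃ D : Fin q → Idl K, ∀ l, D l = D₀ l + Finsupp.single (𝔮 l) (j l + 1) :=
      ⟨_, fun _ => rfl⟩
    have hDv : ∀ l v, v ≠ 𝔮 l → D l v = D₀ l v := by
      intro l v hv
      rw [hDd, Finsupp.add_apply, Finsupp.single_eq_of_ne hv, add_zero]
    have hDE : ∀ v, √X < Nv v → ∀ i, D i v = D₀ i v := fun v hv i => hDv i v (hbig v hv i)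
    have hDne : ∀ l v, D l v ≠ 0 → D₀ l v ≠ 0 ∨ v = 𝔮 l := by
      intro l v hv
      by_cases h : v = 𝔮 l
      · exact Or.inr h
      · rw [hDv l v h] at hv
        exact Or.inl hv
    have hspV : ∀ l v, D₀ l v ≠ 0 → √X < Nv v := fun l v hv => hsp v ((mem_sp D₀ v).2 ⟨l, hv⟩)
    have hcopD : ∀ l l', l ≠ l' → Cop (D l) (D l') := by
      intro l l' hl v
      by_contra hcon
      push Not at hcon
      rcases hDne l v hcon.1 with g1 | g1 <;> rcases hDne l' v hcon.2 with g2 | g2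
      · rcases hcop l l' hl v with g3 | g3
        · exact g1 g3
        · exact g2 g3
      · exact hbig v (hspV l v g1) l' g2
      · exact hbig v (hspV l' v g2) l g1
      · exact hl (h𝔮i (g1.symm.trans g2))
    have hDz : ∀ l v, D l v ≠ 0 → v ∉ S ∧ z ≤ Nv v := by
      intro l v hl
      rcases hDne l v hl with g1 | g1
      · exact hbigS v (hspV l v g1)
      · rw [g1]
        exact ⟨fun h => lt_irrefl _ (h𝔮S l _ h), (h𝔮z l).le⟩
    have hrsD : rs D ≤ c := by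
      have g2 := rs_union 𝔮 hDne
      linarith
    have htl : tl D = ∑ l, (gg (D₀ l) + j l * lq l) + tr D₀ + L := by
      have g1 := tl_split D₀ hcop
      have g2 : tl D = tl D₀ + ∑ l, ((j l : ℝ) + 1) * lq l := by
        unfold tl
        rw [← Finset.sum_add_distrib]
        refine Finset.sum_congr rfl fun l _ => ?_
        rw [hDd, len_add, len_single, hlqd]
        push_cast
        ring
      rw [g2, g1, hL, Finset.sum_add_distrib]
      have g3 : ∑ l, ((j l : ℝ) + 1) * lq l = ∑ l, (j l : ℝ) * lq l + ∑ l, lq l := by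
        rw [← Finset.sum_add_distrib]
        refine Finset.sum_congr rfl fun l _ => ?_
        ring
      rw [g3]
      ring
    have htl2 : tl D ≤ κs * X + a + 2 * L + tr D₀ := by
      have g1 : ∑ l, (gg (D₀ l) + j l * lq l) ≤ ∑ l, (κ l * X + C₁ + lq l) :=
        Finset.sum_le_sum fun l _ => hj2 l
      have g2 : ∑ l, (κ l * X + C₁ + lq l) = κs * X + a + L := by
        rw [Finset.sum_add_distrib, Finset.sum_add_distrib, ← Finset.sum_mul, ← hκs, ← hL,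
          Finset.sum_const, Finset.card_univ, Fintype.card_fin, nsmul_eq_mul, ← ha]
      rw [htl]
      linarith
    have htl3 : tl D ≤ X - Real.log M := by
      have g1 : ε' * X ≤ (1 - κs) / 2 * X := mul_le_mul_of_nonneg_right hε'2 hX0
      have g2 : κs * X + (1 - κs) / 2 * X + (1 - κs) / 2 * X = X := by ring
      linarith
    obtain ⟨W, hW⟩ : ∃ W : ℝ, W = Real.exp (2 * X - tl D) := ⟨_, rfl⟩
    have hWM : M * Real.exp X ≤ W := by
      rw [hW, ← Real.exp_log hM0, ← Real.exp_add, Real.exp_le_exp]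
      linarith
    have heX : 1 ≤ Real.exp X := Real.one_le_exp hX0
    -- consequences of the size of `M`
    obtain ⟨kD1, kD2, kD3⟩ : 2 * Real.exp X ≤ η * W ∧ C₄ * Real.exp X ≤ η * W ∧
        C * Real.exp X ≤ c / 2 * W := by
      have g0 := Real.exp_pos X
      rw [div_le_iff₀ hη] at hM2 hM3
      rw [div_le_iff₀ hc] at hM4
      refine ⟨?_, ?_, ?_⟩
      · calc 2 * Real.exp X ≤ M * η * Real.exp X := by gcongr
          _ = η * (M * Real.exp X) := by ring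
          _ ≤ η * W := by gcongr
      · calc C₄ * Real.exp X ≤ M * η * Real.exp X := by gcongr
          _ = η * (M * Real.exp X) := by ring
          _ ≤ η * W := by gcongr
      · calc C * Real.exp X = (2 * C) * Real.exp X / 2 := by ring
          _ ≤ (M * c) * Real.exp X / 2 := by gcongr
          _ = c / 2 * (M * Real.exp X) := by ring
          _ ≤ c / 2 * W := by gcongr
    have hom : (om D₀ : ℝ) ≤ 2 * Real.exp X := by
      have g1 := om_le D₀
      have g2 : (1 : ℝ) / 2 ≤ Real.log 2 := by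
        have := Real.log_two_gt_d9
        linarith
      have g3 : X ≤ Real.exp X := by
        have := Real.add_one_le_exp X
        linarith
      have g4 : (0 : ℝ) ≤ om D₀ := Nat.cast_nonneg _
      have g5 : tr D₀ ≤ X := htr.trans hε'X
      nlinarith
    obtain ⟨A, hAf, hAc⟩ := hA.low X D hX0 hcopD hDz hrsD
    rw [← hW] at hAc
    have hC₄Y : C₄ * Y ≤ C₄ * Real.exp X := by gcongr
    obtain ⟨G, hGs, hG1, hG2⟩ := per1 (V := √X) (Y := Y) (η := η) hA hC hc1 hc2 hX0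
      (hV1.trans hVX) hY1 D₀ D hDE A (fun x hx => ⟨(hAf x hx).1, (hAf x hx).2.1, (hAf x hx).2.2.2⟩)
      hW (hrs.trans hcw2) (hom.trans kD1) (by
        have g1 : 0 < √X := lt_of_lt_of_le (by linarith) hVX
        rw [div_le_iff₀ g1]
        have g2 := hVc.trans hVX
        rw [div_le_iff₀ hη] at g2
        linarith) (hC₄Y.trans kD2)
    refine ⟨G, fun _ => ⟨fun x hx => ⟨?_, hG1 x hx⟩, ?_⟩⟩
    · obtain ⟨k1, k2, k5, k3⟩ := hAf x (hGs hx)
      refine ⟨k1, k2, k5, fun l => ?_⟩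
      have g1 : κ l * X + C₁ ≤ gg (pid S α x l) := by
        refine le_trans ?_ (gg_mono (k3 l))
        rw [hDd]
        refine le_trans (hj1 l) ?_
        rw [hlqd]
        exact gg_single (D₀ l) (𝔮 l) (j l)
      have g2 : gg (pid S α x l) = len (pid S α x l) - rl (pid S α x l) := rfl
      have g3 := hA.up x k1 l
      have g5 : κ l * hr (aff x) ≤ κ l * X := mul_le_mul_of_nonneg_left k2 (hκ l)
      rw [sub_mul, one_mul]
      linarith
    · rw [hηk] at hG2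
      have hlow : c / 4 * W ≤ G.card := by linarith
      refine le_trans ?_ hlow
      have g1 : Real.exp ((2 - κs) * X - a - 2 * L - tr D₀) ≤ W := by
        rw [hW, Real.exp_le_exp]
        linarith
      gcongr
  choose G hG using hG
  refine ⟨F.biUnion G, ?_, ?_⟩
  · intro x hx
    obtain ⟨D₀, hD₀, hpD⟩ := Finset.mem_biUnion.1 hx
    obtain ⟨⟨g1, g2, g3, g4⟩, -⟩ := (hG D₀ hD₀).1 x hpD
    exact ⟨g1, g2, g3, _, hA.spec _ g1, g4⟩
  · have hupY : ∀ D₀ ∈ F, ∀ v ∈ sp D₀, √X < Nv v ∧ Nv v ≤ Y := by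
      intro D₀ hD₀ v hv
      obtain ⟨-, -, hsp, -, htr, -⟩ := hF D₀ hD₀
      refine ⟨hsp v hv, ?_⟩
      rw [hYd, ← Real.log_le_iff_le_exp (Nv_pos v)]
      refine le_trans ?_ htr
      exact Finset.single_le_sum (f := fun v => Real.log (Nv v))
        (fun u _ => (log_Nv_pos u).le) hv
    have hsq2 : ∀ D₀ ∈ F, ∀ v ∈ sp D₀, 2 ≤ ∑ i, D₀ i v := by
      intro D₀ hD₀ v hv
      have g1 := (hF D₀ hD₀).2.1 v
      obtain ⟨i, hi⟩ := (mem_sp D₀ v).1 hv
      have g2 : D₀ i v ≤ ∑ i, D₀ i v :=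
        Finset.single_le_sum (f := fun i => D₀ i v) (fun _ _ => Nat.zero_le _) (Finset.mem_univ i)
      omega
    have hdisj : ∀ D₀ ∈ F, ∀ D₁ ∈ F, D₀ ≠ D₁ → Disjoint (G D₀) (G D₁) := by
      intro D₀ hD₀ D₁ hD₁ hne
      rw [Finset.disjoint_left]
      intro p hp hp'
      apply hne
      have h5 := ((hG D₀ hD₀).1 p hp).2
      have h6 := ((hG D₁ hD₁).1 p hp').2
      funext i
      ext v
      have hz : ∀ D₂ : Fin q → Idl K, v ∉ sp D₂ → D₂ i v = 0 := by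
        intro D₂ h
        by_contra h'
        exact h ((mem_sp D₂ v).2 ⟨i, h'⟩)
      by_cases k0 : v ∈ sp D₀
      · obtain ⟨k1, k2⟩ := hupY D₀ hD₀ v k0
        have k3 := (h5 v k1 k2).1 k0
        by_cases k4 : v ∈ sp D₁
        · have k5 := (h6 v k1 k2).1 k4
          rw [← k3 i, ← k5 i]
        · have k5 := (h6 v k1 k2).2 k4
          have k6 := hsq2 D₀ hD₀ v k0
          simp only [k3] at k5
          omega
      · by_cases k4 : v ∈ sp D₁
        · obtain ⟨k1, k2⟩ := hupY D₁ hD₁ v k4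
          have k3 := (h6 v k1 k2).1 k4
          have k5 := (h5 v k1 k2).2 k0
          have k6 := hsq2 D₁ hD₁ v k4
          simp only [k3] at k5
          omega
        · rw [hz D₀ k0, hz D₁ k4]
    have hcard : ((F.biUnion G).card : ℝ) = ∑ D₀ ∈ F, ((G D₀).card : ℝ) := by
      rw [Finset.card_biUnion hdisj]
      push_cast
      rfl
    rw [hcard]
    have g1 : c / 4 * Real.exp ((2 - κs) * X - a - 2 * L) * ∑ D₀ ∈ F, Real.exp (-tr D₀) ≤
        ∑ D₀ ∈ F, ((G D₀).card : ℝ) := by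
      rw [Finset.mul_sum]
      refine Finset.sum_le_sum fun D₀ hD₀ => le_trans (le_of_eq ?_) (hG D₀ hD₀).2
      rw [mul_assoc, ← Real.exp_add]
      rfl
    refine le_trans ?_ g1
    have g2 : c / 4 * Real.exp ((2 - κs) * X - a - 2 * L) *
        Real.exp ((1 - ε') * ∑ l, √(8 * κ l * X / Real.log X)) ≤
        c / 4 * Real.exp ((2 - κs) * X - a - 2 * L) * ∑ D₀ ∈ F, Real.exp (-tr D₀) := by
      gcongr
    refine le_trans ?_ g2
    have g3 : c / 4 = Real.exp (Real.log (c / 4)) := (Real.exp_log (by positivity)).symm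
    rw [g3, ← Real.exp_add, ← Real.exp_add, Real.exp_le_exp]
    linarith

end Pool.Agent.N432.QP
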