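import Mathlib
import Pool.Agent.N432.Atoms
import Pool.Agent.N432.NonSpan

/-!
Sets with small `h`-fold sumsets in groups of prime exponent, when the sumset is symmetric and
contains the mixed sums.
-/

set_option autoImplicit false
set_option linter.unusedSectionVars false

open scoped Pointwise
open Finset

namespace Pool.Agent.N432.SymStruct

open Pool.Agent.Helper450.Kneser
open Pool.Agent.N432.SignedCrit (sm sm_one sm_add sm_nonempty le_stab_add_fs stab_le_add card_dvd)
open Pool.Agent.N432.Atoms
open Pool.Agent.N432.NonSpan (mem_sm_iff')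

variable {Q : Type*} [AddCommGroup Q] [Fintype Q] [DecidableEq Q]

theorem sm_two (A : Finset Q) : sm A 2 = A + A := by
  show sm A 1 + A = A + A
  rw [sm_one]

/-- the part of `A` in the coset of `x` -/
noncomputable def part (K : AddSubgroup Q) (A : Finset Q) (x : Q) : Finset Q := by
  classical exact A.filter (fun y => y - x ∈ K)

theorem mem_part {K : AddSubgroup Q} {A : Finset Q} {x y : Q} :
    y ∈ part K A x ↔ y ∈ A ∧ y - x ∈ K := by
  simp [part]

theorem part_congr {K : AddSubgroup Q} {A : Finset Q} {x y : Q} (h : x - y ∈ K) :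
    part K A x = part K A y := by
  ext z
  rw [mem_part, mem_part]
  refine and_congr_right fun _ => ⟨fun hz => ?_, fun hz => ?_⟩
  · have := K.add_mem hz h
    rwa [sub_add_sub_cancel] at this
  · have := K.sub_mem hz h
    have e : z - y - (x - y) = z - x := by abel
    rwa [e] at this

/-- few holes: two parts in different cosets are large together -/
theorem part_add {K : AddSubgroup Q} {A : Finset Q}
    (hA : (A + fs K).card + 1 ≤ A.card + (fs K).card) {x y : Q} (hx : x ∈ A) (hy : y ∈ A)
    (hxy : x - y ∉ K) : (fs K).card + 1 ≤ (part K A x).card + (part K A y).card := by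
  classical
  set Cx := (fs K).image (fun z => x + z) with hCx
  set Cy := (fs K).image (fun z => y + z) with hCy
  have hCxc : Cx.card = (fs K).card := card_image_of_injective _ (add_right_injective x)
  have hCyc : Cy.card = (fs K).card := card_image_of_injective _ (add_right_injective y)
  have hCxA : Cx ∩ A = part K A x := by
    ext z
    rw [mem_inter, mem_part, and_comm]
    refine and_congr_right fun _ => ?_
    rw [hCx, mem_image]
    constructor
    · rintro ⟨w, hw, rfl⟩
      rw [add_sub_cancel_left]
      exact mem_fs.1 hw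
    · intro hz
      exact ⟨z - x, mem_fs.2 hz, by abel⟩
  have hCyA : Cy ∩ A = part K A y := by
    ext z
    rw [mem_inter, mem_part, and_comm]
    refine and_congr_right fun _ => ?_
    rw [hCy, mem_image]
    constructor
    · rintro ⟨w, hw, rfl⟩
      rw [add_sub_cancel_left]
      exact mem_fs.1 hw
    · intro hz
      exact ⟨z - y, mem_fs.2 hz, by abel⟩
  have hdisj : Disjoint (Cx \ A) (Cy \ A) := by
    rw [Finset.disjoint_left]
    intro z hz hz'
    rw [mem_sdiff, hCx, mem_image] at hz
    rw [mem_sdiff, hCy, mem_image] at hz'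
    obtain ⟨⟨w, hw, rfl⟩, -⟩ := hz
    obtain ⟨⟨w', hw', he⟩, -⟩ := hz'
    apply hxy
    have : x - y = w' - w := by
      rw [sub_eq_sub_iff_add_eq_add, ← he]
      abel
    rw [this]
    exact K.sub_mem (mem_fs.1 hw') (mem_fs.1 hw)
  have hsub : A ∪ ((Cx \ A) ∪ (Cy \ A)) ⊆ A + fs K := by
    intro z hz
    rw [mem_union, mem_union] at hz
    rcases hz with hz | hz | hz
    · have := add_mem_add hz (mem_fs.2 K.zero_mem)
      rwa [add_zero] at this
    · obtain ⟨w, hw, rfl⟩ := mem_image.1 (mem_sdiff.1 hz).1
      exact add_mem_add hx hw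
    · obtain ⟨w, hw, rfl⟩ := mem_image.1 (mem_sdiff.1 hz).1
      exact add_mem_add hy hw
  have hdisj2 : Disjoint A ((Cx \ A) ∪ (Cy \ A)) := by
    rw [Finset.disjoint_left]
    intro z hz hz'
    rcases mem_union.1 hz' with h | h
    · exact (mem_sdiff.1 h).2 hz
    · exact (mem_sdiff.1 h).2 hz
  have h1 := card_le_card hsub
  rw [card_union_of_disjoint hdisj2, card_union_of_disjoint hdisj] at h1
  have h2 := card_sdiff_add_card_inter Cx A
  have h3 := card_sdiff_add_card_inter Cy A
  rw [hCxA] at h2
  rw [hCyA] at h3
  omega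

/-- pigeonhole for sums -/
theorem exists_add {K : AddSubgroup Q} {X Y : Finset Q} {x y z : Q} (hX : ∀ u ∈ X, u - x ∈ K)
    (hY : ∀ u ∈ Y, u - y ∈ K) (hc : (fs K).card + 1 ≤ X.card + Y.card) (hz : z - (x + y) ∈ K) :
    ∃ u ∈ X, ∃ v ∈ Y, u + v = z := by
  classical
  by_contra hcon
  push Not at hcon
  have hdisj : Disjoint X (Y.image (fun v => z - v)) := by
    rw [Finset.disjoint_left]
    intro u hu hu'
    obtain ⟨v, hv, rfl⟩ := mem_image.1 hu'
    exact hcon _ hu v hv (by abel)
  have hsub : X ∪ Y.image (fun v => z - v) ⊆ (fs K).image (fun w => x + w) := by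
    intro u hu
    rw [mem_image]
    rcases mem_union.1 hu with hu | hu
    · exact ⟨u - x, mem_fs.2 (hX u hu), by abel⟩
    · obtain ⟨v, hv, rfl⟩ := mem_image.1 hu
      refine ⟨z - v - x, mem_fs.2 ?_, by abel⟩
      have h1 := K.sub_mem hz (hY v hv)
      have e : z - (x + y) - (v - y) = z - v - x := by abel
      rwa [e] at h1
  have h1 := card_le_card hsub
  rw [card_union_of_disjoint hdisj, card_image_of_injective _ (add_right_injective x),
    card_image_of_injective _ sub_right_injective] at h1
  omega

/-- pigeonhole for differences -/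
theorem exists_sub {K : AddSubgroup Q} {X : Finset Q} {x z : Q} (hX : ∀ u ∈ X, u - x ∈ K)
    (hc : (fs K).card + 1 ≤ 2 * X.card) (hz : z ∈ K) : ∃ u ∈ X, ∃ v ∈ X, u - v = z := by
  classical
  obtain ⟨u, hu, v, hv, he⟩ := exists_add (X := X) (Y := X.image (fun v => -v)) (x := x) (y := -x)
    (z := z) hX (by
      intro u hu
      obtain ⟨v, hv, rfl⟩ := mem_image.1 hu
      have := K.neg_mem (hX v hv)
      have e : -(v - x) = -v - -x := by abel
      rwa [e] at this)
    (by rw [card_image_of_injective _ neg_injective]; omega) (by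
      have e : z - (x + -x) = z := by abel
      rw [e]; exact hz)
  obtain ⟨w, hw, rfl⟩ := mem_image.1 hv
  exact ⟨u, hu, w, hw, by rw [sub_eq_add_neg]; exact he⟩

theorem coprime_mem {p k : ℕ} (hk : Nat.Coprime k p) {K : AddSubgroup Q} {x : Q}
    (hp : p • x = 0) (hx : k • x ∈ K) : x ∈ K := by
  have hb := Nat.gcd_eq_gcd_ab k p
  rw [hk] at hb
  have : x = (Nat.gcdA k p) • (k • x) + (Nat.gcdB k p) • (p • x) := by
    rw [← natCast_zsmul x k, ← natCast_zsmul x p, ← mul_zsmul, ← mul_zsmul, ← add_zsmul,
      mul_comm (Nat.gcdA k p), mul_comm (Nat.gcdB k p), ← hb]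
    simp
  rw [this, hp, smul_zero, add_zero]
  exact K.zsmul_mem hx _

theorem coprime_zero {p k : ℕ} (hk : Nat.Coprime k p) {x : Q}
    (hp : p • x = 0) (hx : k • x = 0) : x = 0 := by
  have := coprime_mem (K := ⊥) hk hp (by rw [AddSubgroup.mem_bot]; exact hx)
  rwa [AddSubgroup.mem_bot] at this

theorem odd_card {p : ℕ} (hp : p.Prime) (hp2 : p ≠ 2) (htor : ∀ x : Q, p • x = 0)
    (H : AddSubgroup Q) : Odd (fs H).card := by
  classical
  rw [← Nat.not_even_iff_odd]
  intro he
  have hc : (fs H).card = Nat.card H := by
    rw [Nat.card_eq_fintype_card, Fintype.card_subtype]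
    congr 1
  haveI : Fact (Nat.Prime 2) := ⟨Nat.prime_two⟩
  obtain ⟨x, hx⟩ := exists_prime_addOrderOf_dvd_card' (G := H) 2 (by rw [← hc]; exact he.two_dvd)
  have h1 : 2 • x = 0 := by rw [← hx]; exact addOrderOf_nsmul_eq_zero x
  have h2 : 2 • (x : Q) = 0 := by
    have := congrArg Subtype.val h1
    simpa using this
  have h3 : (x : Q) = 0 := by
    refine coprime_zero ?_ (htor x) h2
    exact (Nat.coprime_primes Nat.prime_two hp).2 (Ne.symm hp2)
  have h4 : x = 0 := Subtype.ext h3
  rw [h4, addOrderOf_zero] at hx
  omega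

/-- The contradiction once a proper subgroup with few holes is known. -/
theorem no_subgroup {p h : ℕ} (hp : p.Prime) (hp2 : p ≠ 2) (htor : ∀ x : Q, p • x = 0)
    (hh : 2 ≤ h) (hhp : h < p) (A : Finset Q) (hst : stab (sm A h) = ⊥)
    (h2A : (A + A).card + 1 = 2 * A.card)
    (hneg : ∀ x ∈ sm A h, -x ∈ sm A h)
    (hmix : ∀ a ∈ A, ∀ b ∈ A, ∀ b' ∈ A, a ≠ b → a ≠ b' → b ≠ b' →
      (h - 2) • a + b - b' ∈ sm A h)
    (K : AddSubgroup Q) (hK : K ≠ ⊥) (hKA : (A + fs K).card + 1 ≤ A.card + (fs K).card)
    (hAK : ∃ y ∈ A, y ∉ K) : False := by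
  classical
  -- the small elements
  set As := A.filter (fun a => 2 * (part K A a).card ≤ (fs K).card) with hAs
  have hAsK : ∀ a ∈ As, ∀ b ∈ As, a - b ∈ K := by
    intro a ha b hb
    by_contra hab
    rw [hAs, mem_filter] at ha hb
    have := part_add hKA ha.1 hb.1 hab
    omega
  have claimA : ∀ t ∈ sm A h, ∀ k ∈ K, t + k ∉ sm A h →
      ∃ f : Fin h → Q, (∀ i, f i ∈ As) ∧ ∑ i, f i = t := by
    intro t ht k hk htk
    obtain ⟨f, hf, hft⟩ := (mem_sm_iff' A h t).1 ht
    refine ⟨f, ?_, hft⟩
    have hpair : ∀ i j : Fin h, i ≠ j →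
        (part K A (f i)).card + (part K A (f j)).card ≤ (fs K).card := by
      intro i j hij
      by_contra hcon
      obtain ⟨u, hu, v, hv, huv⟩ := exists_add (X := part K A (f i)) (Y := part K A (f j))
        (x := f i) (y := f j) (z := f i + f j + k) (fun u hu => (mem_part.1 hu).2)
        (fun u hu => (mem_part.1 hu).2) (by omega)
        (by rw [add_sub_cancel_left]; exact hk)
      apply htk
      rw [mem_sm_iff']
      refine ⟨fun l => if l = j then v else if l = i then u else f l, ?_, ?_⟩
      · intro l
        dsimp only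
        split_ifs
        · exact (mem_part.1 hv).1
        · exact (mem_part.1 hu).1
        · exact hf l
      · have : ∀ l, (if l = j then v else if l = i then u else f l) =
            f l + ((if l = i then u - f i else 0) + (if l = j then v - f j else 0)) := by
          intro l
          by_cases hlj : l = j
          · subst hlj
            rw [if_pos rfl, if_neg (Ne.symm hij), if_pos rfl]
            abel
          · rw [if_neg hlj, if_neg hlj]
            by_cases hli : l = i
            · subst hli
              rw [if_pos rfl, if_pos rfl]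
              abel
            · rw [if_neg hli, if_neg hli]
              abel
        rw [Finset.sum_congr rfl (fun l _ => this l), Finset.sum_add_distrib,
          Finset.sum_add_distrib, Finset.sum_ite_eq' univ i, if_pos (mem_univ i),
          Finset.sum_ite_eq' univ j, if_pos (mem_univ j), hft]
        calc t + (u - f i + (v - f j)) = t + ((u + v) - (f i + f j)) := by abel
          _ = t + k := by rw [huv]; abel
    intro i
    obtain ⟨j, hji⟩ : ∃ j : Fin h, i ≠ j := by
      by_cases h0 : i = ⟨0, by omega⟩
      · exact ⟨⟨1, by omega⟩, by rw [h0]; intro he; have := congrArg Fin.val he; simp at this⟩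
      · exact ⟨⟨0, by omega⟩, h0⟩
    have h1 := hpair i j hji
    have h2 : f i - f j ∈ K := by
      by_contra hcon
      have := part_add hKA (hf i) (hf j) hcon
      omega
    rw [part_congr h2] at h1
    rw [hAs, mem_filter]
    refine ⟨hf i, ?_⟩
    rw [part_congr h2]
    omega
  obtain ⟨k, hk, s, hs, hsk⟩ : ∃ k ∈ K, ∃ s ∈ sm A h, s + k ∉ sm A h := by
    by_contra hcon
    push Not at hcon
    apply hK
    rw [eq_bot_iff, ← hst]
    intro k hk
    exact mem_stab_of_forall (fun x hx => hcon k hk x hx)
  have hk0 : k ≠ 0 := by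
    rintro rfl
    rw [add_zero] at hsk
    exact hsk hs
  obtain ⟨f, hf, hfs⟩ := claimA s hs k hk hsk
  have hh0 : 0 < h := by omega
  set a1 := f ⟨0, hh0⟩ with ha1
  have ha1s : a1 ∈ As := hf _
  have hsum : ∀ g : Fin h → Q, (∀ i, g i ∈ As) → ∑ i, g i - h • a1 ∈ K := by
    intro g hg
    have : ∑ i, g i - h • a1 = ∑ i, (g i - a1) := by
      rw [Finset.sum_sub_distrib, Finset.sum_const, card_univ, Fintype.card_fin]
    rw [this]
    exact K.sum_mem fun i _ => hAsK _ (hg i) _ ha1s
  have ha1K : a1 ∈ K := by
    have h1 := hsum f hf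
    rw [hfs] at h1
    have hns : -s + -k ∉ sm A h := by
      intro h2
      have h3 := hneg _ h2
      have e : -(-s + -k) = s + k := by abel
      rw [e] at h3
      exact hsk h3
    obtain ⟨f', hf', hfs'⟩ := claimA (-s) (hneg s hs) (-k) (K.neg_mem hk) hns
    have h2 := hsum f' hf'
    rw [hfs'] at h2
    have h3 := K.neg_mem (K.add_mem h1 h2)
    have e : -(s - h • a1 + (-s - h • a1)) = (2 * h) • a1 := by
      rw [mul_smul, two_smul]
      abel
    rw [e] at h3
    refine coprime_mem ?_ (htor a1) h3
    apply Nat.Coprime.mul_left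
    · exact (Nat.coprime_primes Nat.prime_two hp).2 (Ne.symm hp2)
    · exact (Nat.coprime_of_lt_prime (by omega) hhp hp).symm
  have hAsK' : ∀ a ∈ As, a ∈ K := by
    intro a ha
    have := K.add_mem (hAsK a ha a1 ha1s) ha1K
    rwa [sub_add_cancel] at this
  obtain ⟨y, hy, hyK⟩ := hAK
  have hylarge : (fs K).card + 1 ≤ 2 * (part K A y).card := by
    by_contra hcon
    exact hyK (hAsK' y (mem_filter.2 ⟨hy, by omega⟩))
  have claimW : ∀ t ∈ sm A h, ∀ κ ∈ K, t + κ ∉ sm A h → ∀ a ∈ As, t + κ = (h - 2) • a := by
    intro t ht κ hκ htκ a ha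
    by_contra hne
    obtain ⟨g, hg, hgt⟩ := claimA t ht κ hκ htκ
    have htK : t ∈ K := by
      have h1 := K.add_mem (hsum g hg) (K.nsmul_mem ha1K h)
      rwa [sub_add_cancel, hgt] at h1
    have hz : t + κ - (h - 2) • a ∈ K :=
      K.sub_mem (K.add_mem htK hκ) (K.nsmul_mem (hAsK' a ha) _)
    obtain ⟨u, hu, v, hv, huv⟩ := exists_sub (X := part K A y) (x := y)
      (fun u hu => (mem_part.1 hu).2) hylarge hz
    have hnotK : ∀ u ∈ part K A y, u ∉ K := by
      intro u hu huK
      apply hyK
      have h1 := K.sub_mem huK (mem_part.1 hu).2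
      have e : u - (u - y) = y := by abel
      rwa [e] at h1
    have huv' : u ≠ v := by
      rintro rfl
      rw [sub_self] at huv
      exact hne (sub_eq_zero.1 huv.symm)
    have h1 := hmix a (mem_filter.1 ha).1 u (mem_part.1 hu).1 v (mem_part.1 hv).1
      (fun he => hnotK u hu (he ▸ hAsK' a ha)) (fun he => hnotK v hv (he ▸ hAsK' a ha)) huv'
    apply htκ
    have e : (h - 2) • a + u - v = t + κ := by
      rw [add_sub_assoc, huv]
      abel
    rwa [e] at h1
  have hw := claimW s hs k hk hsk
  rcases Nat.lt_or_ge h 3 with h3 | h3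
  · obtain rfl : h = 2 := by omega
    have hw0 : s + k = 0 := by
      have := hw a1 ha1s
      simpa using this
    have hper : ∀ x ∈ insert 0 (sm A 2), ∀ κ ∈ K, x + κ ∈ insert 0 (sm A 2) := by
      intro x hx κ hκ
      rw [mem_insert] at hx ⊢
      have key : ∀ t ∈ sm A 2, ∀ κ ∈ K, t + κ = 0 ∨ t + κ ∈ sm A 2 := by
        intro t ht κ hκ
        by_cases hmem : t + κ ∈ sm A 2
        · exact Or.inr hmem
        · left
          have := claimW t ht κ hκ hmem a1 ha1s
          simpa using this
      rcases hx with rfl | hx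
      · rw [← hw0, add_assoc]
        rw [← hw0] at key
        exact key s hs _ (K.add_mem hk hκ)
      · exact key x hx κ hκ
    have hd1 := card_dvd K _ hper
    rw [card_insert_of_notMem (by rw [← hw0]; exact hsk), sm_two, h2A] at hd1
    have hodd := odd_card hp hp2 htor K
    have hd2 : (fs K).card ∣ A.card :=
      Nat.Coprime.dvd_of_dvd_mul_left (Nat.coprime_two_right.2 hodd) hd1
    have hd3 : (fs K).card ∣ (A + fs K).card :=
      card_dvd K _ (fun x hx h hh => stab_add (le_stab_add_fs A K hh) hx)
    have hsub : A ⊆ A + fs K := by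
      intro z hz
      have := add_mem_add hz (mem_fs.2 K.zero_mem)
      rwa [add_zero] at this
    have hle := card_le_card hsub
    have hAeq : A = A + fs K := by
      refine eq_of_subset_of_card_le hsub ?_
      obtain ⟨c, hc⟩ := hd2
      obtain ⟨d, hd⟩ := hd3
      rw [hc, hd] at hle hKA ⊢
      have hpos := fs_card_pos K
      have : d < c + 1 := by
        by_contra hcon
        push Not at hcon
        have : (fs K).card * (c + 1) ≤ (fs K).card * d := Nat.mul_le_mul_left _ hcon
        rw [Nat.mul_add] at this
        omega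
      exact Nat.mul_le_mul_left _ (by omega)
    have hKst : K ≤ stab A := by
      intro κ hκ
      apply mem_stab_of_forall
      intro x hx
      rw [hAeq]
      exact add_mem_add hx (mem_fs.2 hκ)
    have hKst2 : K ≤ stab (sm A 2) := by
      rw [sm_two]
      exact hKst.trans (stab_le_add A A)
    rw [hst] at hKst2
    exact hK (le_bot_iff.1 hKst2)
  · have hAs1 : ∀ a ∈ As, a = a1 := by
      intro a ha
      have e1 := hw a ha
      have e2 := hw a1 ha1s
      have e3 : (h - 2) • (a - a1) = 0 := by
        rw [smul_sub, ← e1, ← e2, sub_self]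
      have hcop : Nat.Coprime (h - 2) p :=
        (Nat.coprime_of_lt_prime (show h - 2 ≠ 0 by omega) (show h - 2 < p by omega) hp).symm
      have := coprime_zero hcop (htor _) e3
      exact sub_eq_zero.1 this
    have hclaim : ∀ t ∈ sm A h, ∀ κ ∈ K, t + κ ∉ sm A h → t = h • a1 := by
      intro t ht κ hκ htκ
      obtain ⟨g, hg, hgt⟩ := claimA t ht κ hκ htκ
      rw [← hgt, Finset.sum_congr rfl (fun i _ => hAs1 _ (hg i)), Finset.sum_const, card_univ,
        Fintype.card_fin]
    have hs1 := hclaim s hs k hk hsk
    -- the element `s + k + k`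
    have hmem : s + (k + k) ∈ sm A h := by
      by_contra hcon
      have h1 := claimW s hs (k + k) (K.add_mem hk hk) hcon a1 ha1s
      have h2 := hw a1 ha1s
      rw [← h2] at h1
      have : k + k = k := add_left_cancel h1
      exact hk0 (by simpa using this)
    have h1 := hclaim _ hmem (-k) (K.neg_mem hk) (by
      have e : s + (k + k) + -k = s + k := by abel
      rw [e]; exact hsk)
    rw [← hs1] at h1
    have h2 : k + k = 0 := by simpa using h1
    rw [← two_smul ℕ] at h2
    exact hk0 (coprime_zero ((Nat.coprime_primes Nat.prime_two hp).2 (Ne.symm hp2)) (htor k) h2)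

theorem progress {B : Finset Q} {g : Q} (h : (B ∪ (B + {g})).card ≤ B.card + 1) (t : ℕ) :
    (B + (range (t + 1)).image (fun i : ℕ => i • g)).card ≤ B.card + t := by
  classical
  set E := (B + {g}) \ B with hE
  have hEc : E.card ≤ 1 := by
    have h1 : B ∪ (B + {g}) = B ∪ E := by rw [hE, union_sdiff_self_eq_union]
    rw [h1, card_union_of_disjoint (by rw [hE]; exact disjoint_sdiff)] at h
    omega
  induction t with
  | zero => simp
  | succ t ih =>
    have hsub : B + (range (t + 1 + 1)).image (fun i : ℕ => i • g) ⊆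
        (B + (range (t + 1)).image (fun i : ℕ => i • g)) ∪ (E + {t • g}) := by
      intro z hz
      obtain ⟨b, hb, w, hw, rfl⟩ := mem_add.1 hz
      obtain ⟨i, hi, rfl⟩ := mem_image.1 hw
      rw [mem_range] at hi
      rcases Nat.lt_or_ge i (t + 1) with h1 | h1
      · exact mem_union_left _ (add_mem_add hb (mem_image_of_mem _ (mem_range.2 h1)))
      · obtain rfl : i = t + 1 := by omega
        have e : b + (t + 1) • g = (b + g) + t • g := by rw [succ_nsmul]; abel
        rw [e]
        by_cases hbg : b + g ∈ B
        · exact mem_union_left _ (add_mem_add hbg (mem_image_of_mem _ (mem_range.2 (by omega))))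
        · refine mem_union_right _ (add_mem_add ?_ (mem_singleton_self _))
          rw [hE, mem_sdiff]
          exact ⟨add_mem_add hb (mem_singleton_self g), hbg⟩
    have h1 := card_le_card hsub
    have h2 := card_union_le (B + (range (t + 1)).image (fun i : ℕ => i • g)) (E + {t • g})
    rw [card_add_singleton] at h2
    omega

theorem two_card {h : ℕ} (hh : 2 ≤ h) {A : Finset Q} (hA : A.Nonempty) (hst : stab (sm A h) = ⊥)
    (hc : (sm A h).card + (h - 1) ≤ h * A.card) : (A + A).card + 1 ≤ 2 * A.card := by
  have key : ∀ j, 2 ≤ j → j ≤ h → (A + A).card + (j - 2) * A.card ≤ (sm A j).card + (j - 2) := by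
    intro j hj
    induction j, hj using Nat.le_induction with
    | base => intro _; rw [sm_two]; simp
    | succ j hj ih =>
      intro hjh
      have h1 := ih (by omega)
      have e : sm A (j + 1) = sm A j + A := rfl
      have hst' : stab (sm A j + A) = ⊥ := by
        rw [← e, eq_bot_iff, ← hst]
        have : sm A h = sm A (j + 1) + sm A (h - (j + 1)) := by
          rw [← sm_add, show j + 1 + (h - (j + 1)) = h by omega]
        rw [this]
        exact stab_le_add _ _
      have h2 := kneser_aperiodic _ _ (sm_nonempty hA j) hA hst'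
      rw [e]
      obtain ⟨i, rfl⟩ : ∃ i, j = i + 2 := ⟨j - 2, by omega⟩
      have e1 : i + 2 + 1 - 2 = i + 1 := by omega
      have e2 : i + 2 - 2 = i := by omega
      rw [e1, Nat.add_mul]
      rw [e2] at h1
      omega
  have h1 := key h hh le_rfl
  obtain ⟨i, rfl⟩ : ∃ i, h = i + 2 := ⟨h - 2, by omega⟩
  have e1 : i + 2 - 2 = i := by omega
  have e2 : i + 2 - 1 = i + 1 := by omega
  rw [e1] at h1
  rw [e2, Nat.add_mul] at hc
  omega

/-- Main structural statement: in a group of odd prime exponent `p`, an aperiodic `h`-fold sumset of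
the least possible size which is symmetric and contains the mixed sums has fewer than `p`
elements. -/
theorem card_lt {p h : ℕ} (hp : p.Prime) (hp2 : p ≠ 2) (htor : ∀ x : Q, p • x = 0)
    (hh : 2 ≤ h) (hhp : h < p) (A : Finset Q) (hA : A.Nonempty) (hst : stab (sm A h) = ⊥)
    (hc : (sm A h).card + (h - 1) ≤ h * A.card)
    (hneg : ∀ x ∈ sm A h, -x ∈ sm A h)
    (hmix : ∀ a ∈ A, ∀ b ∈ A, ∀ b' ∈ A, a ≠ b → a ≠ b' → b ≠ b' →
      (h - 2) • a + b - b' ∈ sm A h) : (sm A h).card < p := by
  classical
  by_contra hcon
  push Not at hcon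
  have h2le := two_card hh hA hst hc
  have hstA : stab (A + A) = ⊥ := by
    rw [eq_bot_iff, ← hst]
    have : sm A h = (A + A) + sm A (h - 2) := by
      rw [← sm_two, ← sm_add, show 2 + (h - 2) = h by omega]
    rw [this]
    exact stab_le_add _ _
  have h2ge := kneser_aperiodic A A hA hA hstA
  have h2A : (A + A).card + 1 = 2 * A.card := by omega
  obtain ⟨a0, ha0⟩ := hA
  let G1 : AddSubgroup Q := AddSubgroup.closure {z | ∃ a ∈ A, ∃ b ∈ A, z = a - b}
  have hG : ∀ a ∈ A, ∀ b ∈ A, a - b ∈ G1 := fun a ha b hb =>
    AddSubgroup.subset_closure ⟨a, ha, b, hb, rfl⟩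
  have hGmin : ∀ L : AddSubgroup Q, (∀ a ∈ A, ∀ b ∈ A, a - b ∈ L) → G1 ≤ L := by
    intro L hL
    rw [AddSubgroup.closure_le]
    rintro z ⟨a, ha, b, hb, rfl⟩
    exact hL a ha b hb
  have hSsub : ∀ x ∈ sm A h, x - h • a0 ∈ G1 := by
    intro x hx
    obtain ⟨f, hf, rfl⟩ := (mem_sm_iff' A h x).1 hx
    have : ∑ i, f i - h • a0 = ∑ i, (f i - a0) := by
      rw [Finset.sum_sub_distrib, Finset.sum_const, card_univ, Fintype.card_fin]
    rw [this]
    exact G1.sum_mem fun i _ => hG _ (hf i) _ ha0
  have hSne : (sm A h).Nonempty := sm_nonempty ⟨a0, ha0⟩ h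
  -- the group generated by the differences has more than `p` elements
  have hG1 : p < (fs G1).card := by
    by_contra hle
    push Not at hle
    have hsub : sm A h ⊆ (fs G1).image (fun z => h • a0 + z) := by
      intro x hx
      exact mem_image.2 ⟨x - h • a0, mem_fs.2 (hSsub x hx), by abel⟩
    have heq : sm A h = (fs G1).image (fun z => h • a0 + z) := by
      refine eq_of_subset_of_card_le hsub ?_
      rw [card_image_of_injective _ (add_right_injective _)]
      omega
    have : G1 ≤ stab (sm A h) := by
      intro g hg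
      apply mem_stab_of_forall
      intro x hx
      rw [heq, mem_image] at hx ⊢
      obtain ⟨z, hz, rfl⟩ := hx
      exact ⟨z + g, mem_fs.2 (G1.add_mem (mem_fs.1 hz) hg), by abel⟩
    rw [hst] at this
    have hbot : fs G1 = {0} := by
      ext x
      rw [mem_fs, mem_singleton, le_bot_iff.1 this, AddSubgroup.mem_bot]
    have h1 := card_le_card hsub
    rw [card_image_of_injective _ (add_right_injective _), hbot, card_singleton] at h1
    have := hp.two_le
    omega
  -- transfer to the group `G1`
  let B : Finset G1 := univ.filter (fun x => (x : Q) + a0 ∈ A)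
  have hBA : B.image (fun x : G1 => (x : Q)) + {a0} = A := by
    ext x
    rw [mem_add]
    constructor
    · rintro ⟨y, hy, z, hz, rfl⟩
      obtain ⟨w, hw, rfl⟩ := mem_image.1 hy
      rw [mem_singleton] at hz
      subst hz
      exact (mem_filter.1 hw).2
    · intro hx
      refine ⟨x - a0, mem_image.2 ⟨⟨x - a0, hG x hx a0 ha0⟩, ?_, rfl⟩, a0, mem_singleton_self a0,
        by abel⟩
      simp only [B, mem_filter, mem_univ, true_and]
      rw [sub_add_cancel]
      exact hx
  have hinj : Function.Injective (fun x : G1 => (x : Q)) := Subtype.val_injective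
  have hBc : B.card = A.card := by
    conv_rhs => rw [← hBA]
    rw [card_add_singleton, card_image_of_injective _ hinj]
  have himg : ∀ X Y : Finset G1, (X + Y).image (fun x : G1 => (x : Q)) =
      X.image (fun x : G1 => (x : Q)) + Y.image (fun x : G1 => (x : Q)) := by
    intro X Y
    exact Finset.image_add (G1.subtype)
  have hBBc : (B + B).card = (A + A).card := by
    conv_rhs => rw [← hBA]
    rw [add_add_add_comm, ← himg, singleton_add_singleton, card_add_singleton,
      card_image_of_injective _ hinj]
  have hBne : B.Nonempty := by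
    rw [← card_pos, hBc]
    exact card_pos.2 ⟨a0, ha0⟩
  have hG1c : Fintype.card G1 = (fs G1).card := by
    rw [Fintype.card_subtype]
    congr 1
  have hA2 : 2 ≤ A.card := by
    by_contra hlt
    have h1 : A.card = 1 := by
      have := card_pos.2 ⟨a0, ha0⟩
      omega
    obtain ⟨x, hx⟩ := card_eq_one.1 h1
    have : G1 ≤ ⊥ := by
      apply hGmin
      intro a ha b hb
      rw [hx, mem_singleton] at ha hb
      rw [ha, hb, sub_self]
      exact AddSubgroup.zero_mem _
    have hbot : fs G1 = {0} := by
      ext x
      rw [mem_fs, mem_singleton, le_bot_iff.1 this, AddSubgroup.mem_bot]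
    rw [hbot, card_singleton] at hG1
    omega
  have hsep : Atoms.Sep B B := by
    refine ⟨by omega, ?_⟩
    have h1 : (B + B).card ≤ Fintype.card G1 := card_le_univ _
    have h2 : (B + B).card ≠ Fintype.card G1 := by
      intro he
      have huniv : B + B = univ := by rwa [← card_eq_iff_eq_univ]
      have : G1 ≤ stab (A + A) := by
        intro g hg
        apply mem_stab_of_forall
        intro x hx
        obtain ⟨y, hy, z, hz, rfl⟩ := mem_add.1 hx
        have hmem : (⟨y - a0 + (z - a0) + g, G1.add_mem (G1.add_mem (hG y hy a0 ha0)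
          (hG z hz a0 ha0)) hg⟩ : G1) ∈ B + B := by rw [huniv]; exact mem_univ _
        obtain ⟨u, hu, v, hv, he⟩ := mem_add.1 hmem
        have he' := congrArg Subtype.val he
        simp only [AddSubgroup.coe_add] at he'
        have : y + z + g = ((u : Q) + a0) + ((v : Q) + a0) := by
          calc y + z + g = (y - a0 + (z - a0) + g) + a0 + a0 := by abel
            _ = ((u : Q) + v) + a0 + a0 := by rw [he']
            _ = _ := by abel
        rw [this]
        exact add_mem_add (mem_filter.1 hu).2 (mem_filter.1 hv).2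
      rw [hstA] at this
      have hbot : fs G1 = {0} := by
        ext x
        rw [mem_fs, mem_singleton, le_bot_iff.1 this, AddSubgroup.mem_bot]
      rw [hbot, card_singleton] at hG1
      have := hp.two_le
      omega
    have h3 : (B + B).card + 1 ≠ Fintype.card G1 := by
      intro he
      have hodd := odd_card hp hp2 htor G1
      rw [← hG1c, ← he, hBBc, h2A] at hodd
      exact (Nat.not_odd_iff_even.2 (even_two_mul _)) hodd
    omega
  -- a proper subgroup with few holes
  have hK1 : ∃ K1 : AddSubgroup G1, K1 ≠ ⊥ ∧ K1 ≠ ⊤ ∧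
      (B + fs K1).card + 1 ≤ B.card + (fs K1).card := by
    rcases Atoms.main hBne hsep (by rw [hBBc, hBc]; omega) with ⟨g, hg0, hg⟩ | h
    · refine ⟨AddSubgroup.zmultiples g, ?_, ?_, ?_⟩
      · rw [Ne, AddSubgroup.zmultiples_eq_bot]
        exact hg0
      all_goals
        have hpg : p • g = 0 := by
          apply Subtype.ext
          rw [AddSubgroup.coe_nsmul]
          exact htor g
        have hfs : fs (AddSubgroup.zmultiples g) = (range p).image (fun i : ℕ => i • g) := by
          ext x
          rw [mem_fs, mem_image, AddSubgroup.mem_zmultiples_iff]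
          constructor
          · rintro ⟨k, rfl⟩
            have hp0 : (0 : ℤ) < p := by exact_mod_cast hp.pos
            refine ⟨(k % p).toNat, ?_, ?_⟩
            · rw [mem_range]
              have := Int.emod_lt_of_pos k hp0
              omega
            · have h1 := Int.emod_nonneg k hp0.ne'
              have h2 := Int.emod_add_mul_ediv k p
              calc (k % p).toNat • g = ((k % p).toNat : ℤ) • g := (natCast_zsmul _ _).symm
                _ = (k % p) • g := by rw [Int.toNat_of_nonneg h1]
                _ = (k % p + p * (k / p)) • g := by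
                  rw [add_zsmul, mul_comm, mul_zsmul, natCast_zsmul, hpg, smul_zero, add_zero]
                _ = k • g := by rw [h2]
          · rintro ⟨i, -, rfl⟩
            exact ⟨i, natCast_zsmul _ _⟩
        have hinj2 : Set.InjOn (fun i : ℕ => i • g) ((range p : Finset ℕ) : Set ℕ) := by
          have hord : addOrderOf g = p := by
            haveI : Fact p.Prime := ⟨hp⟩
            exact addOrderOf_eq_prime hpg hg0
          intro i hi j hj he
          rw [coe_range, Set.mem_Iio] at hi hj
          have := (nsmul_inj_mod (x := g) (n := i) (m := j)).1 he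
          rw [hord, Nat.mod_eq_of_lt hi, Nat.mod_eq_of_lt hj] at this
          exact this
        have hcard : (fs (AddSubgroup.zmultiples g)).card = p := by
          rw [hfs, card_image_of_injOn hinj2, card_range]
      · intro htop
        rw [htop] at hcard
        have : fs (⊤ : AddSubgroup G1) = univ := by
          ext x
          simp [mem_fs]
        rw [this, card_univ, hG1c] at hcard
        omega
      · have h1 := progress hg (p - 1)
        rw [show p - 1 + 1 = p by have := hp.two_le; omega, ← hfs] at h1
        rw [hcard]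
        have := hp.two_le
        omega
    · exact h
  obtain ⟨K1, hK1b, hK1t, hK1c⟩ := hK1
  -- transfer back
  let K : AddSubgroup Q := K1.map G1.subtype
  have hKle : K ≤ G1 := by
    rintro x ⟨y, -, rfl⟩
    exact y.2
  have hfsK : fs K = (fs K1).image (fun x : G1 => (x : Q)) := by
    ext x
    rw [mem_fs, mem_image]
    constructor
    · rintro ⟨y, hy, rfl⟩
      exact ⟨y, mem_fs.2 hy, rfl⟩
    · rintro ⟨y, hy, rfl⟩
      exact ⟨y, mem_fs.1 hy, rfl⟩
  have hKc : (A + fs K).card + 1 ≤ A.card + (fs K).card := by
    have e : (A + fs K).card = (B + fs K1).card := by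
      conv_lhs => rw [← hBA]
      rw [hfsK, add_right_comm, ← himg, card_add_singleton, card_image_of_injective _ hinj]
    rw [e, hfsK, card_image_of_injective _ hinj, ← hBc]
    exact hK1c
  have hKbot : K ≠ ⊥ := by
    intro he
    apply hK1b
    rw [eq_bot_iff]
    intro x hx
    have : (x : Q) ∈ K := ⟨x, hx, rfl⟩
    rw [he, AddSubgroup.mem_bot] at this
    exact Subtype.ext this
  have hKneG : ¬ G1 ≤ K := by
    intro hle
    apply hK1t
    rw [eq_top_iff]
    intro x _
    obtain ⟨y, hy, he⟩ := hle x.2
    have : y = x := Subtype.ext he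
    rwa [← this]
  have hAK : ∃ y ∈ A, y ∉ K := by
    by_contra hcon'
    push Not at hcon'
    exact hKneG (hGmin K fun a ha b hb => K.sub_mem (hcon' a ha) (hcon' b hb))
  exact no_subgroup hp hp2 htor hh hhp A hst h2A hneg hmix K hKbot hKc hAK

end Pool.Agent.N432.SymStruct
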