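import Mathlib
import Pool.Agent.N432.SymStruct

/-!
Minimum sizes of sumsets and signed sumsets in elementary abelian groups.
-/

set_option autoImplicit false
set_option linter.unusedSectionVars false

open scoped Pointwise
open Finset

namespace Pool.Agent.N432.SignMin

open Pool.Agent.Helper450.Kneser
open Pool.Agent.N432.SignedCrit (sm sm_one sm_add sm_nonempty le_stab_add_fs stab_le_add card_dvd
  sm_kneser)
open Pool.Agent.N432.Atoms
open Pool.Agent.N432.SymStruct

/-- `⌈m/d⌉` -/
def cl (m d : ℕ) : ℕ := (m + d - 1) / d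

theorem cl_spec {m d : ℕ} (hm : 1 ≤ m) (hd : 1 ≤ d) :
    (cl m d - 1) * d < m ∧ m ≤ cl m d * d ∧ 1 ≤ cl m d := by
  unfold cl
  have h1 := Nat.div_add_mod (m + d - 1) d
  have h2 : (m + d - 1) % d < d := Nat.mod_lt _ (by omega)
  set q := (m + d - 1) / d with hq
  have hq1 : 1 ≤ q := by
    rw [hq, Nat.le_div_iff_mul_le (by omega)]
    omega
  clear_value q
  obtain ⟨t, rfl⟩ : ∃ t, q = t + 1 := ⟨q - 1, by omega⟩
  rw [Nat.mul_add] at h1
  simp only [Nat.add_sub_cancel]
  refine ⟨?_, ?_, hq1⟩
  · rw [Nat.mul_comm]; omega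
  · rw [Nat.add_mul, Nat.mul_comm]; omega

theorem cl_le {m d t : ℕ} (hd : 1 ≤ d) (h : m ≤ t * d) : cl m d ≤ t := by
  unfold cl
  have : m + d - 1 < (t + 1) * d := by
    rw [Nat.add_mul]
    omega
  exact Nat.lt_succ_iff.1 ((Nat.div_lt_iff_lt_mul (by omega)).2 this)

theorem cl_one (m : ℕ) : cl m 1 = m := by simp [cl]

/-- the function `f_d(m,h)` -/
def fd (m h d : ℕ) : ℕ := d * (h * (cl m d - 1) + 1)

section Numeric

theorem numeric {p r m h k c δ j : ℕ} (hp : p.Prime) (hh : 2 ≤ h) (hhp : h < p) (hm : 2 ≤ m)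
    (hδ : δ = if h ∣ p - 1 then 0 else 1) (hk0 : p ^ k + δ ≤ h * m - h + 1)
    (hkmax : ∀ k', p ^ k' + δ ≤ h * m - h + 1 → k' ≤ k)
    (hcmax : ∀ c', (h * c' + 1) * p ^ k + δ ≤ h * m - h + 1 → c' ≤ c)
    (hgt : (c + 1) * p ^ k < m) (hk1 : 1 ≤ k) (hj : j ≤ r)
    (hap : h * (cl m (p ^ j) - 1) + 1 < p)
    (hρ : ∀ i, i ≤ r → fd m h (p ^ j) ≤ fd m h (p ^ i)) : False := by
  have hp2 := hp.two_le
  have hV : h * m - h + 1 = h * (m - 1) + 1 := by
    rw [Nat.mul_sub, Nat.mul_one]
  rw [hV] at hk0 hkmax hcmax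
  obtain ⟨ha1, ha2, ha3⟩ := cl_spec (m := m) (d := p ^ j) (by omega) (Nat.one_le_pow _ _ (by omega))
  obtain ⟨a, ha⟩ : ∃ a, a = cl m (p ^ j) := ⟨_, rfl⟩
  rw [← ha] at ha1 ha2 ha3 hap
  obtain ⟨b, rfl⟩ : ∃ b, a = b + 1 := ⟨a - 1, by omega⟩
  simp only [Nat.add_sub_cancel] at ha1 hap
  have h0 := hρ 0 (Nat.zero_le _)
  have hf0 : fd m h (p ^ 0) = h * (m - 1) + 1 := by
    unfold fd
    rw [pow_zero, cl_one, one_mul]
  have hfj : fd m h (p ^ j) = p ^ j * (h * b + 1) := by
    unfold fd
    rw [← ha, Nat.add_sub_cancel]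
  rw [hf0, hfj] at h0
  have hbp : b + 1 ≤ p := by
    have : b ≤ h * b := Nat.le_mul_of_pos_left _ (by omega)
    omega
  have hpj : 1 ≤ p ^ j := Nat.one_le_pow _ _ (by omega)
  have hpk : 1 ≤ p ^ k := Nat.one_le_pow _ _ (by omega)
  rcases Nat.lt_or_ge (h * (m - 1) + 1) (p ^ j * (h * b + 1) + δ) with hB | hA
  · -- case B
    have hδ1 : δ = 1 := by
      rw [hδ] at hB ⊢
      split_ifs at hB ⊢ with h1
      · omega
      · rfl
    have hnd : ¬ h ∣ p - 1 := by
      intro h1
      rw [if_pos h1] at hδ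
      omega
    have heq : p ^ j * (h * b + 1) = h * (m - 1) + 1 := by omega
    rcases Nat.eq_zero_or_pos j with hj0 | hj1
    · subst hj0
      rw [pow_zero, one_mul] at heq
      have : p ^ 1 ≤ p ^ k := Nat.pow_le_pow_right (by omega) hk1
      rw [pow_one] at this
      omega
    · obtain ⟨i, rfl⟩ : ∃ i, j = i + 1 := ⟨j - 1, by omega⟩
      have hi := hρ i (by omega)
      rw [hfj] at hi
      have hdm := Nat.div_add_mod p h
      have hml : p % h < h := Nat.mod_lt _ (by omega)
      set q' := p / h with hq'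
      set s := p % h with hs
      have hs0 : s ≠ 0 := by
        intro hs0
        rw [hs0, add_zero] at hdm
        have : h ∣ p := ⟨q', hdm.symm⟩
        rcases (Nat.dvd_prime hp).1 this with h1 | h1 <;> omega
      have hs1 : s ≠ 1 := by
        intro hs1
        rw [hs1] at hdm
        exact hnd ⟨q', by omega⟩
      have hpi : 1 ≤ p ^ i := Nat.one_le_pow _ _ (by omega)
      have hi1 : 1 ≤ i := by
        by_contra hcon
        obtain rfl : i = 0 := by omega
        apply hnd
        rw [zero_add, pow_one] at heq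
        have h1 : h ∣ h * (m - 1) := Dvd.intro _ rfl
        have h2 : h * (m - 1) = h * (p * b) + (p - 1) := by
          have : p * (h * b + 1) = h * (p * b) + p := by ring
          omega
        rw [h2] at h1
        exact (Nat.dvd_add_right (Dvd.intro _ rfl)).1 h1
      have hpi2 : h - 1 ≤ (h - s) * p ^ i := by
        have h1 : p ^ 1 ≤ p ^ i := Nat.pow_le_pow_right (by omega) hi1
        rw [pow_one] at h1
        have h2 : p ^ i ≤ (h - s) * p ^ i := Nat.le_mul_of_pos_left _ (by omega)
        omega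
      have hmle : m ≤ (b * p + q' + 1) * p ^ i := by
        have h1 : h * m ≤ h * ((b * p + q' + 1) * p ^ i) := by
          have e1 : h * ((b * p + q' + 1) * p ^ i) = p ^ i * (p * (h * b)) + (h * q') * p ^ i + h * p ^ i := by
            ring
          have e2 : h * m = h * (m - 1) + h := by
            obtain ⟨n, rfl⟩ : ∃ n, m = n + 1 := ⟨m - 1, by omega⟩
            simp only [Nat.add_sub_cancel]
            ring
          have e3 : p ^ (i + 1) * (h * b + 1) = p ^ i * (p * (h * b)) + p * p ^ i := by ring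
          have e4 : (h * q') * p ^ i + s * p ^ i = p * p ^ i := by
            rw [← Nat.add_mul, hdm]
          have e5 : (h - s) * p ^ i + s * p ^ i = h * p ^ i := by
            rw [← Nat.add_mul]
            congr 1
            omega
          rw [e1, e2]
          rw [e3] at heq
          omega
        exact Nat.le_of_mul_le_mul_left h1 (by omega)
      have hcl : cl m (p ^ i) ≤ b * p + q' + 1 := cl_le hpi hmle
      have hcl' : cl m (p ^ i) - 1 ≤ b * p + q' := by
        clear_value q' s
        generalize cl m (p ^ i) = w at hcl ⊢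
        generalize b * p + q' = w' at hcl ⊢
        omega
      have hfi : fd m h (p ^ i) ≤ p ^ i * (h * (b * p + q') + 1) := by
        unfold fd
        exact Nat.mul_le_mul_left _ (Nat.add_le_add_right (Nat.mul_le_mul_left _ hcl') _)
      have h3 : p ^ (i + 1) * (h * b + 1) ≤ p ^ i * (h * (b * p + q') + 1) := hi.trans hfi
      have e6 : p ^ (i + 1) * (h * b + 1) = p ^ i * (h * b * p + p) := by ring
      have e7 : h * (b * p + q') + 1 = h * b * p + h * q' + 1 := by ring
      rw [e6, e7] at h3
      have h4 := Nat.le_of_mul_le_mul_left h3 hpi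
      omega
  · -- case A
    have hjk : j ≤ k := by
      apply hkmax
      have : p ^ j * 1 ≤ p ^ j * (h * b + 1) := Nat.mul_le_mul_left _ (by omega)
      omega
    rcases Nat.eq_or_lt_of_le hjk with hjk | hjk
    · subst hjk
      have hbc := hcmax b (by rw [Nat.mul_comm (h * b + 1)]; exact hA)
      have : (b + 1) * p ^ j ≤ (c + 1) * p ^ j := Nat.mul_le_mul_right _ (by omega)
      omega
    · have h1 : (b + 1) * p ^ j ≤ p * p ^ j := Nat.mul_le_mul_right _ hbp
      have h2 : p * p ^ j ≤ p ^ k := by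
        rw [← pow_succ']
        exact Nat.pow_le_pow_right (by omega) hjk
      have h3 : 1 * p ^ k ≤ (c + 1) * p ^ k := Nat.mul_le_mul_right _ (by omega)
      omega

end Numeric

section Group

variable {G : Type*} [AddCommGroup G] [Fintype G] [DecidableEq G]

theorem sm_image_hom {G' : Type*} [AddCommGroup G'] [Fintype G'] [DecidableEq G'] (φ : G →+ G')
    (A : Finset G) (j : ℕ) : sm (A.image φ) j = (sm A j).image φ := by
  induction j with
  | zero => simp [sm]
  | succ j ih => rw [sm, sm, Finset.image_add, ih]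

/-- the equality case -/
theorem eq_case {p r h : ℕ} (hp : p.Prime) (hp2 : p ≠ 2) (htor : ∀ x : G, p • x = 0)
    (hG : Fintype.card G = p ^ r) (hh : 2 ≤ h) (hhp : h < p) (A : Finset G) (hA : A.Nonempty)
    (hneg : ∀ x ∈ sm A h, -x ∈ sm A h)
    (hmix : ∀ a ∈ A, ∀ b ∈ A, ∀ b' ∈ A, a ≠ b → a ≠ b' → b ≠ b' →
      (h - 2) • a + b - b' ∈ sm A h)
    (hle : ∀ j, j ≤ r → (sm A h).card ≤ fd A.card h (p ^ j)) :
    ∃ j, j ≤ r ∧ (sm A h).card = fd A.card h (p ^ j) ∧
      h * (cl A.card (p ^ j) - 1) + 1 < p := by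
  classical
  set H := stab (sm A h) with hH
  set e := (fs H).card with he
  have he0 : 0 < e := fs_card_pos H
  have hed : e ∣ p ^ r := by
    have := card_dvd H (univ : Finset G) (fun _ _ _ _ => mem_univ _)
    rwa [card_univ, hG] at this
  obtain ⟨j, hj, hej⟩ := (Nat.dvd_prime_pow hp).1 hed
  have hper : ∀ x ∈ A + fs H, ∀ h ∈ H, x + h ∈ A + fs H := fun x hx h hh =>
    stab_add (le_stab_add_fs A H hh) hx
  have hsub : A ⊆ A + fs H := by
    intro z hz
    have := add_mem_add hz (mem_fs.2 H.zero_mem)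
    rwa [add_zero] at this
  have hm1 : 1 ≤ A.card := card_pos.2 hA
  obtain ⟨c1, c2, c3⟩ := cl_spec (m := A.card) (d := e) hm1 he0
  set a := cl A.card e with ha
  let π : G → G ⧸ H := fun x => (x : G ⧸ H)
  set A' := A.image π with hA'
  have hAA' : (A + fs H).image π = A' := by
    ext q
    rw [hA', mem_image, mem_image]
    constructor
    · rintro ⟨x, hx, rfl⟩
      obtain ⟨m, hm, k, hk, rfl⟩ := mem_add.1 hx
      refine ⟨m, hm, ?_⟩
      show (m : G ⧸ H) = ((m + k : G) : G ⧸ H)
      rw [QuotientAddGroup.eq]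
      have : -m + (m + k) = k := by abel
      rw [this]
      exact mem_fs.1 hk
    · rintro ⟨m, hm, rfl⟩
      exact ⟨m, hsub hm, rfl⟩
  have hcA : (A + fs H).card = A'.card * e := by
    rw [card_quot H (A + fs H) hper, ← he]
    congr 2
  have hk := sm_kneser hA (show 1 ≤ h by omega)
  rw [← hH, ← he, hcA] at hk
  have hup := hle j hj
  have hfe : fd A.card h (p ^ j) = e * (h * (a - 1) + 1) := by
    unfold fd
    rw [← hej]
  rw [hfe] at hup
  obtain ⟨b, hb⟩ : ∃ b, a = b + 1 := ⟨a - 1, by omega⟩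
  rw [hb, Nat.add_sub_cancel] at hup c1
  have haA' : A'.card = b + 1 := by
    have h1 : b * e < A'.card * e := lt_of_lt_of_le c1 ((card_le_card hsub).trans hcA.le)
    have h2 : b < A'.card := Nat.lt_of_mul_lt_mul_right h1
    have h3 : e * (h * A'.card) ≤ e * (h * (b + 1)) := by
      have e1 : e * (h * A'.card) = h * (A'.card * e) := by ring
      have e2 : e * (h * (b + 1)) = e * (h * b + 1) + (h - 1) * e := by
        obtain ⟨i, rfl⟩ : ∃ i, h = i + 1 := ⟨h - 1, by omega⟩
        simp only [Nat.add_sub_cancel]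
        ring
      rw [e1, e2]
      omega
    have h4 := Nat.le_of_mul_le_mul_left h3 he0
    have h5 := Nat.le_of_mul_le_mul_left h4 (by omega)
    omega
  have hSeq : (sm A h).card = e * (h * b + 1) := by
    refine le_antisymm hup ?_
    have e2 : e * (h * b + 1) + (h - 1) * e = h * (A'.card * e) := by
      rw [haA']
      obtain ⟨i, rfl⟩ : ∃ i, h = i + 1 := ⟨h - 1, by omega⟩
      simp only [Nat.add_sub_cancel]
      ring
    omega
  haveI : Fintype (G ⧸ H) := Fintype.ofFinite _
  have hsmA' : sm A' h = (sm A h).image π := sm_image_hom (QuotientAddGroup.mk' H) A h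
  have hScard : (sm A h).card = (sm A' h).card * e := by
    rw [hsmA', card_quot H (sm A h) (fun x hx g hg => stab_add hg hx), ← he]
  have hS'c : (sm A' h).card = h * b + 1 := by
    have : (sm A' h).card * e = (h * b + 1) * e := by
      rw [← hScard, hSeq, Nat.mul_comm]
    exact Nat.eq_of_mul_eq_mul_right he0 this
  have hlift : ∀ q ∈ sm A' h, ∃ x ∈ sm A h, π x = q := by
    intro q hq
    rw [hsmA'] at hq
    obtain ⟨x, hx, rfl⟩ := mem_image.1 hq
    exact ⟨x, hx, rfl⟩
  have hdown : ∀ x ∈ sm A h, π x ∈ sm A' h := by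
    intro x hx
    rw [hsmA']
    exact mem_image_of_mem _ hx
  have hst' : stab (sm A' h) = ⊥ := by
    rw [eq_bot_iff]
    intro q hq
    obtain ⟨g, rfl⟩ := QuotientAddGroup.mk_surjective q
    have hg : g ∈ H := by
      rw [hH]
      apply mem_stab_of_forall
      intro x hx
      have h1 := stab_add hq (hdown x hx)
      obtain ⟨y, hy, hyx⟩ := hlift _ h1
      have h2 : (y : G ⧸ H) = ((x + g : G) : G ⧸ H) := hyx
      rw [QuotientAddGroup.eq] at h2
      have h3 := stab_add h2 hy
      have e3 : y + (-y + (x + g)) = x + g := by abel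
      rwa [e3] at h3
    rw [AddSubgroup.mem_bot, QuotientAddGroup.eq_zero_iff]
    exact hg
  have hlt := card_lt hp hp2 (Q := G ⧸ H) (by
      intro q
      obtain ⟨g, rfl⟩ := QuotientAddGroup.mk_surjective q
      have : ((p • g : G) : G ⧸ H) = 0 := by rw [htor g]; rfl
      exact this) hh hhp A' (hA.image _) hst' (by
      rw [hS'c, haA']
      obtain ⟨i, rfl⟩ : ∃ i, h = i + 1 := ⟨h - 1, by omega⟩
      simp only [Nat.add_sub_cancel]
      have : (i + 1) * (b + 1) = (i + 1) * b + i + 1 := by ring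
      omega) (by
      intro q hq
      obtain ⟨x, hx, rfl⟩ := hlift q hq
      exact hdown _ (hneg x hx)) (by
      intro q1 h1 q2 h2 q3 h3 h12 h13 h23
      obtain ⟨x1, hx1, rfl⟩ := mem_image.1 h1
      obtain ⟨x2, hx2, rfl⟩ := mem_image.1 h2
      obtain ⟨x3, hx3, rfl⟩ := mem_image.1 h3
      exact hdown _ (hmix x1 hx1 x2 hx2 x3 hx3 (fun h => h12 (by rw [h])) (fun h => h13 (by rw [h]))
        (fun h => h23 (by rw [h]))))
  refine ⟨j, hj, ?_, ?_⟩
  · rw [hSeq, hfe, hb, Nat.add_sub_cancel]
  · rw [← hej, ← ha, hb, Nat.add_sub_cancel, ← hS'c]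
    exact hlt

/-- lower bound for ordinary sumsets in groups of exponent `p` -/
theorem lower {p h : ℕ} (hp : p.Prime) (htor : ∀ x : G, p • x = 0) (hh : 1 ≤ h) (A : Finset G)
    (hA : A.Nonempty) (hle : h * (A.card - 1) + 1 ≤ p) : h * (A.card - 1) + 1 ≤ (sm A h).card := by
  classical
  have hk := sm_kneser hA hh
  have hm1 : 1 ≤ A.card := card_pos.2 hA
  set H := stab (sm A h) with hH
  by_cases hbot : H = ⊥
  · have hc1 : (fs H).card = 1 := by
      rw [hbot]
      have : fs (⊥ : AddSubgroup G) = {0} := by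
        ext x
        rw [mem_fs, mem_singleton, AddSubgroup.mem_bot]
      rw [this, card_singleton]
    have hsub : A ⊆ A + fs H := by
      intro z hz
      have := add_mem_add hz (mem_fs.2 H.zero_mem)
      rwa [add_zero] at this
    have h1 := card_le_card hsub
    rw [hc1, mul_one] at hk
    have h2 : h * A.card ≤ h * (A + fs H).card := Nat.mul_le_mul_left _ h1
    obtain ⟨n, hn⟩ : ∃ n, A.card = n + 1 := ⟨A.card - 1, by omega⟩
    rw [hn, Nat.add_sub_cancel]
    rw [hn, Nat.mul_add, Nat.mul_one] at h2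
    omega
  · refine hle.trans ?_
    -- `H` has at least `p` elements
    obtain ⟨⟨x, hx⟩, hne⟩ := (AddSubgroup.ne_bot_iff_exists_ne_zero (H := H)).1 hbot
    have hx0 : x ≠ 0 := fun h => hne (Subtype.ext h)
    haveI : Fact p.Prime := ⟨hp⟩
    have hord : addOrderOf x = p := addOrderOf_eq_prime (htor x) hx0
    obtain ⟨y, hy⟩ := sm_nonempty hA h
    have hsub : (range p).image (fun i : ℕ => y + i • x) ⊆ sm A h := by
      intro z hz
      obtain ⟨i, -, rfl⟩ := mem_image.1 hz
      exact stab_add (H.nsmul_mem hx i) hy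
    have h1 := card_le_card hsub
    rw [card_image_of_injOn, card_range] at h1
    · exact h1
    · intro i hi j hj he
      rw [coe_range, Set.mem_Iio] at hi hj
      have h2 : i • x = j • x := add_left_cancel he
      have := (nsmul_inj_mod (x := x) (n := i) (m := j)).1 h2
      rwa [hord, Nat.mod_eq_of_lt hi, Nat.mod_eq_of_lt hj] at this

end Group

section Construction

/-- addition of numbers in base `p` without carries -/
def cla (p : ℕ) : ℕ → ℕ → ℕ → ℕ
  | 0, _, _ => 0
  | r + 1, x, y => (x % p + y % p) % p + p * cla p r (x / p) (y / p)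

theorem cla_div (p : ℕ) (hp : 0 < p) (r x y : ℕ) :
    cla p (r + 1) x y / p = cla p r (x / p) (y / p) := by
  rw [cla, Nat.add_mul_div_left _ _ hp, Nat.div_eq_of_lt (Nat.mod_lt _ hp), zero_add]

theorem cla_le (p : ℕ) (hp : 0 < p) (r : ℕ) : ∀ x y j, cla p r x y / p ^ j ≤ x / p ^ j + y / p ^ j := by
  induction r with
  | zero => intro x y j; simp [cla]
  | succ r ih =>
    intro x y j
    cases j with
    | zero =>
      rw [pow_zero, Nat.div_one, Nat.div_one, Nat.div_one, cla]
      have h1 := ih (x / p) (y / p) 0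
      rw [pow_zero, Nat.div_one, Nat.div_one, Nat.div_one] at h1
      have h2 := Nat.div_add_mod x p
      have h3 := Nat.div_add_mod y p
      have h4 : (x % p + y % p) % p ≤ x % p + y % p := Nat.mod_le _ _
      have h5 : p * cla p r (x / p) (y / p) ≤ p * (x / p + y / p) := Nat.mul_le_mul_left _ h1
      rw [Nat.mul_add] at h5
      omega
    | succ j =>
      rw [pow_succ', ← Nat.div_div_eq_div_mul, ← Nat.div_div_eq_div_mul,
        ← Nat.div_div_eq_div_mul, cla_div p hp]
      exact ih _ _ _

theorem cla_digit (p : ℕ) (hp : 0 < p) (r : ℕ) : ∀ x y i, i < r →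
    ((cla p r x y / p ^ i : ℕ) : ZMod p) = ((x / p ^ i : ℕ) : ZMod p) + ((y / p ^ i : ℕ) : ZMod p) := by
  induction r with
  | zero => intro x y i hi; omega
  | succ r ih =>
    intro x y i hi
    cases i with
    | zero =>
      rw [pow_zero, Nat.div_one, Nat.div_one, Nat.div_one, cla]
      push_cast
      simp
    | succ i =>
      rw [pow_succ', ← Nat.div_div_eq_div_mul, ← Nat.div_div_eq_div_mul,
        ← Nat.div_div_eq_div_mul, cla_div p hp]
      exact ih _ _ _ (by omega)

/-- the digits map -/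
def dig (p r : ℕ) (x : ℕ) : Fin r → ZMod p := fun i => ((x / p ^ (i : ℕ) : ℕ) : ZMod p)

theorem dig_inj {p : ℕ} (hp : 0 < p) (r : ℕ) : ∀ x y, x < p ^ r → y < p ^ r →
    dig p r x = dig p r y → x = y := by
  induction r with
  | zero =>
    intro x y hx hy _
    rw [pow_zero] at hx hy
    omega
  | succ r ih =>
    intro x y hx hy he
    haveI : NeZero p := ⟨by omega⟩
    have h0 := congrFun he 0
    simp only [dig, Fin.val_zero, pow_zero, Nat.div_one] at h0
    rw [ZMod.natCast_eq_natCast_iff'] at h0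
    have h1 : x / p = y / p := by
      apply ih
      · rw [Nat.div_lt_iff_lt_mul hp, ← pow_succ]; exact hx
      · rw [Nat.div_lt_iff_lt_mul hp, ← pow_succ]; exact hy
      · funext i
        have := congrFun he i.succ
        simp only [dig, Fin.val_succ, pow_succ', ← Nat.div_div_eq_div_mul] at this
        exact this
    have h2 := Nat.div_add_mod x p
    have h3 := Nat.div_add_mod y p
    rw [h1, h0] at h2
    omega

theorem construct {p : ℕ} [hp : Fact p.Prime] {r m h : ℕ} (hm : 1 ≤ m) (hmr : m ≤ p ^ r) :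
    ∃ A : Finset (Fin r → ZMod p), A.card = m ∧ ∀ j, (sm A h).card ≤ fd m h (p ^ j) := by
  classical
  have hp0 : 0 < p := hp.out.pos
  refine ⟨(range m).image (dig p r), ?_, ?_⟩
  · rw [card_image_of_injOn, card_range]
    intro x hx y hy he
    rw [coe_range, Set.mem_Iio] at hx hy
    exact dig_inj hp0 r x y (by omega) (by omega) he
  · intro j
    have hpj : 1 ≤ p ^ j := Nat.one_le_pow _ _ hp0
    obtain ⟨c1, c2, c3⟩ := cl_spec (m := m) (d := p ^ j) hm hpj
    have key : ∀ i, ∀ x ∈ sm ((range m).image (dig p r)) i,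
        ∃ z, z / p ^ j ≤ i * (cl m (p ^ j) - 1) ∧ dig p r z = x := by
      intro i
      induction i with
      | zero =>
        intro x hx
        simp only [sm, mem_singleton] at hx
        subst hx
        exact ⟨0, by simp, by funext t; simp [dig]⟩
      | succ i ih =>
        intro x hx
        rw [sm] at hx
        obtain ⟨y, hy, w, hw, rfl⟩ := mem_add.1 hx
        obtain ⟨z, hz, rfl⟩ := ih y hy
        obtain ⟨u, hu, rfl⟩ := mem_image.1 hw
        rw [mem_range] at hu
        refine ⟨cla p r z u, ?_, ?_⟩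
        · refine (cla_le p hp0 r z u j).trans ?_
          have hu' : u / p ^ j ≤ cl m (p ^ j) - 1 := by
            have : u / p ^ j < cl m (p ^ j) := by
              rw [Nat.div_lt_iff_lt_mul (by omega)]
              omega
            omega
          rw [Nat.add_mul, one_mul]
          omega
        · funext t
          exact cla_digit p hp0 r z u t t.2
    have hsub : sm ((range m).image (dig p r)) h ⊆
        (range (fd m h (p ^ j))).image (dig p r) := by
      intro x hx
      obtain ⟨z, hz, rfl⟩ := key h x hx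
      refine mem_image_of_mem _ (mem_range.2 ?_)
      unfold fd
      rw [Nat.mul_comm]
      exact (Nat.div_lt_iff_lt_mul (by omega)).1 (by omega)
    refine (card_le_card hsub).trans (card_image_le.trans ?_)
    rw [card_range]

end Construction

end Pool.Agent.N432.SignMin
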