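import Mathlib
import Pool.Agent.N432.SignMin

/-!
Signed sumsets: basic membership facts and the centred progression.
-/

set_option autoImplicit false
set_option linter.unusedSectionVars false

open scoped Pointwise
open Finset

namespace Pool.Agent.N432.SignMin

open Pool.Agent.N432.SignedCrit (sm)

section Basic

variable {G : Type*} [AddCommGroup G] [Fintype G] [DecidableEq G]

/-- signed combination of total weight `h` -/
def Sgn (A : Finset G) (h : ℕ) (x : G) : Prop :=
  ∃ l : G → ℤ, ∑ a ∈ A, |l a| = (h : ℤ) ∧ ∑ a ∈ A, l a • a = x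

theorem sgn_neg {A : Finset G} {h : ℕ} {x : G} (hx : Sgn A h x) : Sgn A h (-x) := by
  obtain ⟨l, h1, h2⟩ := hx
  refine ⟨-l, by simpa using h1, ?_⟩
  simp only [Pi.neg_apply, neg_smul, Finset.sum_neg_distrib, h2]

theorem sgn_of_sm {A : Finset G} {h : ℕ} {x : G} (hx : x ∈ sm A h) : Sgn A h x := by
  have key : ∀ (h : ℕ) (x : G), x ∈ sm A h → ∃ l : G → ℤ, (∀ a, 0 ≤ l a) ∧
      ∑ a ∈ A, l a = (h : ℤ) ∧ ∑ a ∈ A, l a • a = x := by
    intro h
    induction h with
    | zero =>
      intro x hx
      simp only [sm, mem_singleton] at hx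
      subst hx
      exact ⟨0, by simp, by simp, by simp⟩
    | succ h ih =>
      intro x hx
      rw [sm] at hx
      obtain ⟨y, hy, b, hb, rfl⟩ := mem_add.1 hx
      obtain ⟨l, h1, h2, h3⟩ := ih y hy
      refine ⟨fun a => l a + if a = b then 1 else 0, ?_, ?_, ?_⟩
      · intro a
        have := h1 a
        dsimp only
        split_ifs <;> omega
      · rw [Finset.sum_add_distrib, Finset.sum_ite_eq' A b, if_pos hb, h2]
        push_cast
        ring
      · have : ∀ a ∈ A, (l a + if a = b then (1 : ℤ) else 0) • a =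
            l a • a + if a = b then a else 0 := by
          intro a _
          rw [add_smul]
          split_ifs <;> simp
        rw [Finset.sum_congr rfl this, Finset.sum_add_distrib, h3, Finset.sum_ite_eq' A b,
          if_pos hb]
  obtain ⟨l, h1, h2, h3⟩ := key h x hx
  refine ⟨l, ?_, h3⟩
  rw [Finset.sum_congr rfl (fun a _ => abs_of_nonneg (h1 a))]
  exact h2

theorem sgn_mix {A : Finset G} {h : ℕ} (hh : 2 ≤ h) {a b b' : G} (ha : a ∈ A) (hb : b ∈ A)
    (hb' : b' ∈ A) (h1 : a ≠ b) (h2 : a ≠ b') (h3 : b ≠ b') : Sgn A h ((h - 2) • a + b - b') := by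
  refine ⟨fun c => (if c = a then ((h - 2 : ℕ) : ℤ) else 0) + (if c = b then 1 else 0) -
    (if c = b' then 1 else 0), ?_, ?_⟩
  · have : ∀ c ∈ A, |(if c = a then ((h - 2 : ℕ) : ℤ) else 0) + (if c = b then 1 else 0) -
        (if c = b' then 1 else 0)| = (if c = a then ((h - 2 : ℕ) : ℤ) else 0) +
          (if c = b then 1 else 0) + (if c = b' then 1 else 0) := by
      intro c _
      by_cases c1 : c = a
      · subst c1
        rw [if_pos rfl, if_neg h1, if_neg h2]
        simp
      · rw [if_neg c1]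
        by_cases c2 : c = b
        · subst c2
          rw [if_pos rfl, if_neg h3]
          simp
        · rw [if_neg c2]
          split_ifs <;> simp
    rw [Finset.sum_congr rfl this, Finset.sum_add_distrib, Finset.sum_add_distrib,
      Finset.sum_ite_eq' A a, Finset.sum_ite_eq' A b, Finset.sum_ite_eq' A b', if_pos ha,
      if_pos hb, if_pos hb']
    omega
  · have : ∀ c ∈ A, ((if c = a then ((h - 2 : ℕ) : ℤ) else 0) + (if c = b then 1 else 0) -
        (if c = b' then 1 else 0)) • c = (if c = a then (h - 2) • c else 0) +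
          (if c = b then c else 0) - (if c = b' then c else 0) := by
      intro c _
      rw [sub_smul, add_smul]
      split_ifs <;> simp
    rw [Finset.sum_congr rfl this, Finset.sum_sub_distrib, Finset.sum_add_distrib,
      Finset.sum_ite_eq' A a, Finset.sum_ite_eq' A b, Finset.sum_ite_eq' A b', if_pos ha,
      if_pos hb, if_pos hb']

end Basic

/-- the centred progression -/
theorem centred {p : ℕ} [hp : Fact p.Prime] {r m h : ℕ} (hr : 1 ≤ r) (hh : 2 ≤ h) (hm : 1 ≤ m)
    (hlt : h * (m - 1) + 1 < p) :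
    ∃ A : Finset (Fin r → ZMod p), A.card = m ∧
      {x | Sgn A h x}.ncard ≤ h * (m - 1) + 1 := by
  classical
  let e : Fin r → ZMod p := Pi.single ⟨0, by omega⟩ 1
  have he : ∀ t : ℤ, t • e = 0 → (p : ℤ) ∣ t := by
    intro t ht
    have := congrFun ht ⟨0, by omega⟩
    simp only [e, Pi.smul_apply, Pi.single_eq_same, Pi.zero_apply, zsmul_eq_mul, mul_one] at this
    exact (ZMod.intCast_zmod_eq_zero_iff_dvd t p).1 this
  let A : Finset (Fin r → ZMod p) := (range m).image (fun i : ℕ => (2 * (i : ℤ) - ((m : ℤ) - 1)) • e)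
  have h2m : 2 * (m - 1) + 1 < p := by
    have : 2 * (m - 1) ≤ h * (m - 1) := Nat.mul_le_mul_right _ hh
    omega
  refine ⟨A, ?_, ?_⟩
  · rw [card_image_of_injOn, card_range]
    intro i hi j hj hij
    rw [coe_range, Set.mem_Iio] at hi hj
    dsimp only at hij
    have h1 : (2 * ((i : ℤ) - j)) • e = 0 := by
      have : (2 * ((i : ℤ) - j)) = (2 * (i : ℤ) - ((m : ℤ) - 1)) - (2 * (j : ℤ) - ((m : ℤ) - 1)) := by
        ring
      rw [this, sub_smul, hij, sub_self]
    obtain ⟨c, hc⟩ := he _ h1
    have hpz : (0 : ℤ) < p := by exact_mod_cast hp.out.pos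
    have h2 : 2 * ((i : ℤ) - j) < p := by omega
    have h3 : -(p : ℤ) < 2 * ((i : ℤ) - j) := by omega
    have hc0 : c = 0 := by
      rw [hc] at h2 h3
      have h4 : c < 1 := by
        by_contra hcon
        push Not at hcon
        nlinarith
      have h5 : -1 < c := by
        by_contra hcon
        push Not at hcon
        nlinarith
      omega
    rw [hc0, mul_zero] at hc
    omega
  · have hA : ∀ a ∈ A, ∃ c : ℤ, |c| ≤ (m : ℤ) - 1 ∧ (∃ u : ℤ, c = 2 * u + ((m : ℤ) - 1)) ∧
        a = c • e := by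
      intro a ha
      obtain ⟨i, hi, rfl⟩ := mem_image.1 ha
      rw [mem_range] at hi
      refine ⟨2 * (i : ℤ) - ((m : ℤ) - 1), ?_, ⟨(i : ℤ) - ((m : ℤ) - 1), by ring⟩, rfl⟩
      rw [abs_le]
      constructor <;> omega
    choose! c hc1 hc2 hc3 using hA
    have hsub : {x | Sgn A h x} ⊆
        (((range (h * (m - 1) + 1)).image
          (fun s : ℕ => (2 * (s : ℤ) - (h : ℤ) * ((m : ℤ) - 1)) • e) : Finset (Fin r → ZMod p)) :
            Set (Fin r → ZMod p)) := by
      rintro x ⟨l, h1, h2⟩
      have hx : x = (∑ a ∈ A, l a * c a) • e := by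
        rw [← h2, Finset.sum_smul]
        refine Finset.sum_congr rfl fun a ha => ?_
        rw [mul_smul, ← hc3 a ha]
      have habs : |∑ a ∈ A, l a * c a| ≤ (h : ℤ) * ((m : ℤ) - 1) := by
        calc |∑ a ∈ A, l a * c a| ≤ ∑ a ∈ A, |l a * c a| := Finset.abs_sum_le_sum_abs _ _
          _ ≤ ∑ a ∈ A, |l a| * ((m : ℤ) - 1) := by
              refine Finset.sum_le_sum fun a ha => ?_
              rw [abs_mul]
              exact mul_le_mul_of_nonneg_left (hc1 a ha) (abs_nonneg _)
          _ = (h : ℤ) * ((m : ℤ) - 1) := by rw [← Finset.sum_mul, h1]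
      have hpar : ∃ u : ℤ, ∑ a ∈ A, l a * c a + (h : ℤ) * ((m : ℤ) - 1) = 2 * u := by
        rw [← h1, Finset.sum_mul, ← Finset.sum_add_distrib]
        have hev : ∀ a ∈ A, ∃ u : ℤ, l a * c a + |l a| * ((m : ℤ) - 1) = 2 * u := by
          intro a ha
          obtain ⟨u, hu⟩ := hc2 a ha
          rcases abs_cases (l a) with ⟨h3, -⟩ | ⟨h3, -⟩
          · rw [h3, hu]
            exact ⟨l a * u + l a * ((m : ℤ) - 1), by ring⟩
          · rw [h3, hu]
            exact ⟨l a * u, by ring⟩
        choose! u hu using hev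
        exact ⟨∑ a ∈ A, u a, by rw [Finset.mul_sum]; exact Finset.sum_congr rfl hu⟩
      obtain ⟨u, hu⟩ := hpar
      rw [abs_le] at habs
      rw [mem_coe, mem_image]
      have hcast : ((h * (m - 1) : ℕ) : ℤ) = (h : ℤ) * ((m : ℤ) - 1) := by
        push_cast
        rw [Nat.cast_sub hm]
        push_cast
        ring
      refine ⟨u.toNat, ?_, ?_⟩
      · rw [mem_range]
        omega
      · rw [hx, Int.toNat_of_nonneg (by omega)]
        congr 1
        omega
    refine (Set.ncard_le_ncard hsub (Finset.finite_toSet _)).trans ?_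
    rw [Set.ncard_coe_finset]
    exact card_image_le.trans (by rw [card_range])

end Pool.Agent.N432.SignMin
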