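import Mathlib

/-!
Skew cross-intersecting pairs of subspaces: for every dimension `d` the number of pairs whose first
member has dimension `d` is at most `(finrank V).choose d`.
-/

set_option autoImplicit false

namespace Pool.Agent.N432.SkewSub

open Module

variable {K V : Type*} [Field K] [AddCommGroup V] [Module K V]

/-- For disjoint `U`, `W` with `finrank U = d` and a basis `b` of `U` there is a linear form on the
`d`-th exterior power which is `1` on the wedge of the basis, and `0` on the wedge of `v` whenever
a nonzero combination of `v` lies in `W`. -/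
theorem exists_form {d : ℕ} (U W : Submodule K V) (h : Disjoint U W) (b : Basis (Fin d) K U) :
    ∃ φ : ⋀[K]^d V →ₗ[K] K,
      φ (exteriorPower.ιMulti K d (fun k => (b k : V))) = 1 ∧
      ∀ v : Fin d → V, (∃ c : Fin d → K, c ≠ 0 ∧ ∑ k, c k • v k ∈ W) →
        φ (exteriorPower.ιMulti K d v) = 0 := by
  obtain ⟨C, hWC, hC⟩ := h.symm.exists_isCompl
  have hUC : IsCompl U C := hC.symm
  refine ⟨exteriorPower.alternatingMapLinearEquiv
    (b.det.compLinearMap (U.projectionOnto C hUC)), ?_, ?_⟩
  · rw [exteriorPower.alternatingMapLinearEquiv_apply_ιMulti, AlternatingMap.compLinearMap_apply]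
    have : (fun k => (U.projectionOnto C hUC) ((b k : U) : V)) = b := by
      funext k
      rw [Submodule.projectionOnto_apply_left]
    rw [this]
    exact b.det_self
  · rintro v ⟨c, hc, hcv⟩
    rw [exteriorPower.alternatingMapLinearEquiv_apply_ιMulti, AlternatingMap.compLinearMap_apply]
    apply AlternatingMap.map_linearDependent
    rw [Fintype.not_linearIndependent_iff]
    refine ⟨c, ?_, ?_⟩
    · have h1 : (U.projectionOnto C hUC) (∑ k, c k • v k) = 0 := by
        rw [Submodule.projectionOnto_apply_eq_zero_iff]
        exact hWC hcv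
      simpa using h1
    · by_contra hcon
      push Not at hcon
      exact hc (funext hcon)

variable [FiniteDimensional K V]

/-- The skew Bollobás theorem for subspaces of one dimension `d`. -/
theorem card_le {m : ℕ} (U W : Fin m → Submodule K V) (h1 : ∀ i, Disjoint (U i) (W i))
    (h2 : ∀ i j, i < j → ¬ Disjoint (U i) (W j)) (d : ℕ) :
    (Finset.univ.filter fun i => finrank K (U i) = d).card ≤ (finrank K V).choose d := by
  classical
  set S := Finset.univ.filter fun i => finrank K (U i) = d with hS
  have hb : ∀ i : S, ∃ _ : Basis (Fin d) K (U i), True := fun i =>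
    ⟨finBasisOfFinrankEq K _ (Finset.mem_filter.1 i.2).2, trivial⟩
  choose b _ using hb
  have hform := fun i : S => exists_form (U i) (W i) (h1 i) (b i)
  choose φ hφ1 hφ2 using hform
  have hli : LinearIndependent K
      (fun i : S => exteriorPower.ιMulti K d (fun k => ((b i k : U i) : V))) := by
    rw [Fintype.linearIndependent_iff]
    intro c hc
    by_contra hcon
    push Not at hcon
    obtain ⟨i0, hi0⟩ := hcon
    -- largest index with nonzero coefficient
    obtain ⟨j, hj, hmax⟩ := Finset.exists_max_image (Finset.univ.filter fun i : S => c i ≠ 0)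
      (fun i => (i : Fin m)) ⟨i0, by simp [hi0]⟩
    have h3 := congrArg (φ j) hc
    rw [map_sum, map_zero] at h3
    rw [Finset.sum_eq_single j] at h3
    · rw [map_smul, hφ1, smul_eq_mul, mul_one] at h3
      exact (Finset.mem_filter.1 hj).2 h3
    · intro i _ hij
      by_cases hci : c i = 0
      · rw [hci, zero_smul, map_zero]
      · have hle := hmax i (by simp [hci])
        have hlt : (i : Fin m) < j := lt_of_le_of_ne hle (fun h => hij (Subtype.ext h))
        have hnd := h2 i j hlt
        rw [Submodule.disjoint_def] at hnd
        push Not at hnd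
        obtain ⟨x, hxU, hxW, hx0⟩ := hnd
        rw [map_smul, hφ2, smul_zero]
        refine ⟨fun k => (b i).repr ⟨x, hxU⟩ k, ?_, ?_⟩
        · intro h0
          apply hx0
          have h4 : (b i).repr ⟨x, hxU⟩ = 0 := by
            ext k
            exact congrFun h0 k
          have h5 := (b i).repr.map_eq_zero_iff.1 h4
          exact congrArg Subtype.val h5
        · have h6 := congrArg Subtype.val ((b i).sum_repr ⟨x, hxU⟩)
          rw [Submodule.coe_sum] at h6
          simp only [Submodule.coe_smul] at h6
          rw [h6]
          exact hxW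
    · intro h
      exact absurd (Finset.mem_univ _) h
  have h7 := hli.fintype_card_le_finrank
  rw [exteriorPower.finrank_eq, Fintype.card_coe] at h7
  exact h7

/-- All pairs together. -/
theorem total {m N : ℕ} (hN : finrank K V = N + 1) (U W : Fin m → Submodule K V)
    (hU : ∀ i, U i ≠ ⊥) (hW : ∀ i, W i ≠ ⊥) (h1 : ∀ i, Disjoint (U i) (W i))
    (h2 : ∀ i j, i < j → ¬ Disjoint (U i) (W j)) : m ≤ 2 ^ (N + 1) - 2 := by
  classical
  have hd : ∀ i, finrank K (U i) ∈ Finset.Ico 1 (N + 1) := by
    intro i
    rw [Finset.mem_Ico]
    constructor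
    · rw [Nat.one_le_iff_ne_zero]
      intro h
      exact hU i (Submodule.finrank_eq_zero.1 h)
    · have h3 : finrank K (U i) + finrank K (W i) ≤ N + 1 := by
        rw [← hN]
        exact Submodule.finrank_add_finrank_le_of_disjoint (h1 i)
      have h4 : finrank K (W i) ≠ 0 := fun h => hW i (Submodule.finrank_eq_zero.1 h)
      omega
  have h5 : m = ∑ d ∈ Finset.Ico 1 (N + 1),
      (Finset.univ.filter fun i => finrank K (U i) = d).card := by
    have := Finset.card_eq_sum_card_fiberwise (f := fun i : Fin m => finrank K (U i))
      (s := Finset.univ) (t := Finset.Ico 1 (N + 1)) (fun i _ => hd i)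
    rwa [Finset.card_univ, Fintype.card_fin] at this
  have h6 : ∑ d ∈ Finset.Ico 1 (N + 1), (Finset.univ.filter fun i => finrank K (U i) = d).card ≤
      ∑ d ∈ Finset.Ico 1 (N + 1), (N + 1).choose d :=
    Finset.sum_le_sum fun d _ => hN ▸ card_le U W h1 h2 d
  have h7 : ∑ d ∈ Finset.range (N + 1 + 1), (N + 1).choose d = 2 ^ (N + 1) :=
    Nat.sum_range_choose _
  rw [Finset.sum_range_succ, Finset.range_eq_Ico, Finset.sum_eq_sum_Ico_succ_bot (by omega)] at h7
  simp only [Nat.choose_zero_right, Nat.choose_self] at h7
  have h8 : 0 + 1 = 1 := rfl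
  rw [h8] at h7
  omega

end Pool.Agent.N432.SkewSub
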