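import Mathlib

/-!
A partition of the cells of an `n × n` board into pairs of adjacent cells and one single cell at
the top side contains a `2 × 2` block.
-/

set_option autoImplicit false

namespace Pool.Agent.N432.SqGrid

/-- hypotheses on the indicator functions `h` (horizontal segments) and `v` (vertical segments) -/
structure Part (n : ℕ) (h v : ℕ → ℕ → ℕ) : Prop where
  cell : ∀ i j, i < n → j < n → h i j + h i (j + 1) + v i j + v (i + 1) j = 1
  sq2 : ∀ i j, i + 2 ≤ n → j + 2 ≤ n →
    1 ≤ h i j + h (i + 1) j + h i (j + 2) + h (i + 1) (j + 2) + v i j + v i (j + 1)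
      + v (i + 2) j + v (i + 2) (j + 1)
  noL : ∀ j, j < n → v 0 j = 0
  noR : ∀ j, j < n → v n j = 0
  noB : ∀ i, i < n → h i 0 = 0
  top1 : ∀ i i', i < n → i' < n → i ≠ i' → h i n + h i' n ≤ 1

theorem chainR {n : ℕ} {h v : ℕ → ℕ → ℕ} (H : Part n h v) (h0 : v 1 0 = 1) :
    ∀ i, i < n → v (i + 1) i = 1 ∧ (1 ≤ i → h (i - 1) (i + 1) = 1) := by
  intro i
  induction i with
  | zero =>
    intro _
    exact ⟨by simpa using h0, fun h => absurd h (by omega)⟩
  | succ i ih =>
    intro hi
    obtain ⟨hP, hQ⟩ := ih (by omega)
    have c1 := H.cell i i (by omega) (by omega)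
    have c2 := H.cell (i + 1) i (by omega) (by omega)
    have c3 := H.cell i (i + 1) (by omega) (by omega)
    have c4 := H.cell (i + 1) (i + 1) (by omega) (by omega)
    have s1 := H.sq2 i i (by omega) (by omega)
    simp only [add_assoc, Nat.reduceAdd] at c1 c2 c3 c4 s1 hP hQ ⊢
    have e1 : v i (i + 1) = 0 := by
      rcases Nat.eq_zero_or_pos i with h0' | hpos
      · subst h0'
        exact H.noL _ (by omega)
      · have hq := hQ hpos
        have c5 := H.cell (i - 1) (i + 1) (by omega) (by omega)
        have e : i - 1 + 1 = i := by omega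
        rw [e] at c5
        omega
    have e2 : v (i + 1) (i + 1) = 0 := by
      by_contra hcon
      omega
    have e3 : h i (i + 2) = 1 := by omega
    have e4 : h (i + 1) (i + 2) = 0 := by
      by_contra hcon
      rcases Nat.lt_or_ge (i + 2) n with hlt | hge
      · have c6 := H.cell i (i + 2) (by omega) (by omega)
        have c7 := H.cell (i + 1) (i + 2) (by omega) (by omega)
        have s2 := H.sq2 i (i + 1) (by omega) (by omega)
        simp only [add_assoc, Nat.reduceAdd] at c6 c7 s2
        omega
      · have e : n = i + 2 := by omega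
        have := H.top1 i (i + 1) (by omega) (by omega) (by omega)
        rw [e] at this
        omega
    refine ⟨by omega, fun _ => ?_⟩
    simpa using e3

theorem chainU {n : ℕ} {h v : ℕ → ℕ → ℕ} (H : Part n h v) (h0 : h 0 1 = 1) :
    ∀ i, i + 1 < n → h i (i + 1) = 1 ∧ (1 ≤ i → v (i + 1) (i - 1) = 1) := by
  intro i
  induction i with
  | zero =>
    intro _
    exact ⟨by simpa using h0, fun h => absurd h (by omega)⟩
  | succ i ih =>
    intro hi
    obtain ⟨hP, hQ⟩ := ih (by omega)
    have c1 := H.cell i i (by omega) (by omega)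
    have c2 := H.cell (i + 1) i (by omega) (by omega)
    have c3 := H.cell i (i + 1) (by omega) (by omega)
    have c4 := H.cell (i + 1) (i + 1) (by omega) (by omega)
    have c6 := H.cell (i + 2) i (by omega) (by omega)
    have c7 := H.cell (i + 2) (i + 1) (by omega) (by omega)
    have s1 := H.sq2 i i (by omega) (by omega)
    have s2 := H.sq2 (i + 1) i (by omega) (by omega)
    simp only [add_assoc, Nat.reduceAdd] at c1 c2 c3 c4 c6 c7 s1 s2 hP hQ ⊢
    have e1 : h (i + 1) i = 0 := by
      rcases Nat.eq_zero_or_pos i with h0' | hpos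
      · subst h0'
        exact H.noB _ (by omega)
      · have hq := hQ hpos
        have c5 := H.cell (i + 1) (i - 1) (by omega) (by omega)
        have e : i - 1 + 1 = i := by omega
        rw [e] at c5
        omega
    have e2 : h (i + 1) (i + 1) = 0 := by
      by_contra hcon
      omega
    have e3 : v (i + 2) i = 1 := by omega
    have e4 : v (i + 2) (i + 1) = 0 := by
      by_contra hcon
      omega
    refine ⟨by omega, fun _ => ?_⟩
    simpa using e3

theorem no_part {n : ℕ} (hn : 2 ≤ n) {h v : ℕ → ℕ → ℕ} (H : Part n h v) : False := by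
  have c := H.cell 0 0 (by omega) (by omega)
  have a1 := H.noL 0 (by omega)
  have a2 := H.noB 0 (by omega)
  simp only [zero_add] at c
  rcases (show v 1 0 = 1 ∨ h 0 1 = 1 by omega) with h1 | h1
  · have := (chainR H h1 (n - 1) (by omega)).1
    rw [show n - 1 + 1 = n by omega] at this
    have := H.noR (n - 1) (by omega)
    omega
  · obtain ⟨hP, hQ⟩ := chainU H h1 (n - 2) (by omega)
    obtain ⟨m, rfl⟩ : ∃ m, n = m + 2 := ⟨n - 2, by omega⟩
    simp only [Nat.add_sub_cancel] at hP hQ
    have c1 := H.cell m m (by omega) (by omega)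
    have c2 := H.cell (m + 1) m (by omega) (by omega)
    have c3 := H.cell m (m + 1) (by omega) (by omega)
    have c4 := H.cell (m + 1) (m + 1) (by omega) (by omega)
    have s1 := H.sq2 m m (by omega) (by omega)
    have r1 := H.noR m (by omega)
    simp only [add_assoc, Nat.reduceAdd] at c1 c2 c3 c4 s1 r1
    have e1 : h (m + 1) m = 0 := by
      rcases Nat.eq_zero_or_pos m with h0' | hpos
      · subst h0'
        exact H.noB _ (by omega)
      · have hq := hQ hpos
        have c5 := H.cell (m + 1) (m - 1) (by omega) (by omega)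
        have e : m - 1 + 1 = m := by omega
        rw [e] at c5
        omega
    omega

end Pool.Agent.N432.SqGrid
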