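import Mathlib
import Pool.Agent.N432.SqChain

/-!
Counting on the `n × n` board: every set of segments meeting all unit squares, all `2 × 2` squares
and the outer square has at least `⌈n²/2⌉ + 1` elements (`n ≥ 2`).
-/

set_option autoImplicit false

namespace Pool.Agent.N432.SqGrid

open Finset

theorem line (g : ℕ → ℕ) (n : ℕ) :
    ∑ j ∈ range n, (g j + g (j + 1)) + g 0 + g n = 2 * ∑ j ∈ range (n + 1), g j := by
  induction n with
  | zero => simp; ring
  | succ n ih =>
    rw [sum_range_succ, sum_range_succ (fun j => g j) (n + 1)]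
    omega

/-- number of cells' sides, counted over the cells -/
theorem cells_eq (n : ℕ) (h v : ℕ → ℕ → ℕ) :
    ∑ i ∈ range n, ∑ j ∈ range n, (h i j + h i (j + 1) + v i j + v (i + 1) j)
      + (∑ i ∈ range n, h i 0 + ∑ i ∈ range n, h i n + ∑ j ∈ range n, v 0 j
        + ∑ j ∈ range n, v n j)
      = 2 * (∑ i ∈ range n, ∑ j ∈ range (n + 1), h i j
        + ∑ i ∈ range (n + 1), ∑ j ∈ range n, v i j) := by
  have h1 : ∑ i ∈ range n, ∑ j ∈ range n, (h i j + h i (j + 1)) + ∑ i ∈ range n, h i 0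
      + ∑ i ∈ range n, h i n = 2 * ∑ i ∈ range n, ∑ j ∈ range (n + 1), h i j := by
    rw [← sum_add_distrib, ← sum_add_distrib, mul_sum]
    exact sum_congr rfl fun i _ => line (fun j => h i j) n
  have h2 : ∑ j ∈ range n, ∑ i ∈ range n, (v i j + v (i + 1) j) + ∑ j ∈ range n, v 0 j
      + ∑ j ∈ range n, v n j = 2 * ∑ j ∈ range n, ∑ i ∈ range (n + 1), v i j := by
    rw [← sum_add_distrib, ← sum_add_distrib, mul_sum]
    exact sum_congr rfl fun j _ => line (fun i => v i j) n
  rw [sum_comm (s := range n) (t := range (n + 1)) (f := fun j i => v i j)] at h2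
  rw [sum_comm (s := range n) (t := range n) (f := fun j i => v i j + v (i + 1) j)] at h2
  have h3 : ∑ i ∈ range n, ∑ j ∈ range n, (h i j + h i (j + 1) + v i j + v (i + 1) j)
      = ∑ i ∈ range n, ∑ j ∈ range n, (h i j + h i (j + 1))
        + ∑ i ∈ range n, ∑ j ∈ range n, (v i j + v (i + 1) j) := by
    rw [← sum_add_distrib]
    refine sum_congr rfl fun i _ => ?_
    rw [← sum_add_distrib]
    refine sum_congr rfl fun j _ => ?_
    ring
  rw [h3]
  omega

/-- the lower bound, for indicator functions -/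
theorem lower_ind {n : ℕ} (hn : 2 ≤ n) (h v : ℕ → ℕ → ℕ)
    (h1 : ∀ i j, i < n → j < n → 1 ≤ h i j + h i (j + 1) + v i j + v (i + 1) j)
    (h2 : ∀ i j, i + 2 ≤ n → j + 2 ≤ n →
      1 ≤ h i j + h (i + 1) j + h i (j + 2) + h (i + 1) (j + 2) + v i j + v i (j + 1)
      + v (i + 2) j + v (i + 2) (j + 1))
    (h3 : 1 ≤ ∑ i ∈ range n, h i 0 + ∑ i ∈ range n, h i n + ∑ j ∈ range n, v 0 j
        + ∑ j ∈ range n, v n j) :
    n ^ 2 + 2 ≤ 2 * (∑ i ∈ range n, ∑ j ∈ range (n + 1), h i j
        + ∑ i ∈ range (n + 1), ∑ j ∈ range n, v i j) := by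
  by_contra hcon
  have e := cells_eq n h v
  have hs : ∑ i ∈ range n, ∑ j ∈ range n, 1 = n ^ 2 := by simp [sq]
  have hle : ∑ i ∈ range n, ∑ j ∈ range n, 1
      ≤ ∑ i ∈ range n, ∑ j ∈ range n, (h i j + h i (j + 1) + v i j + v (i + 1) j) :=
    sum_le_sum fun i hi => sum_le_sum fun j hj => h1 i j (mem_range.1 hi) (mem_range.1 hj)
  have heq : ∑ i ∈ range n, ∑ j ∈ range n, 1
      = ∑ i ∈ range n, ∑ j ∈ range n, (h i j + h i (j + 1) + v i j + v (i + 1) j) := by omega
  have hb : ∑ i ∈ range n, h i 0 + ∑ i ∈ range n, h i n + ∑ j ∈ range n, v 0 j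
        + ∑ j ∈ range n, v n j = 1 := by omega
  have hc : ∀ i j, i < n → j < n → h i j + h i (j + 1) + v i j + v (i + 1) j = 1 := by
    intro i j hi hj
    have a1 := (sum_eq_sum_iff_of_le (fun i hi => sum_le_sum fun j hj =>
      h1 i j (mem_range.1 hi) (mem_range.1 hj))).1 heq i (mem_range.2 hi)
    have a2 := (sum_eq_sum_iff_of_le (fun j hj =>
      h1 i j hi (mem_range.1 hj))).1 a1 j (mem_range.2 hj)
    exact a2.symm
  -- value bounds from sums
  have le_sum : ∀ (g : ℕ → ℕ) (i : ℕ), i < n → g i ≤ ∑ i ∈ range n, g i := fun g i hi =>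
    single_le_sum (f := g) (fun _ _ => Nat.zero_le _) (mem_range.2 hi)
  have le_sum2 : ∀ (g : ℕ → ℕ) (i i' : ℕ), i < n → i' < n → i ≠ i' →
      g i + g i' ≤ ∑ i ∈ range n, g i := by
    intro g i i' hi hi' hne
    have := sum_le_sum_of_subset (f := g) (show ({i, i'} : Finset ℕ) ⊆ range n by
      intro x hx
      simp only [mem_insert, mem_singleton] at hx
      rcases hx with rfl | rfl <;> simpa)
    rwa [sum_pair hne] at this
  have zero_of : ∀ (g : ℕ → ℕ), ∑ i ∈ range n, g i = 0 → ∀ i, i < n → g i = 0 := by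
    intro g hg i hi
    have := le_sum g i hi
    omega
  rcases (show (∑ i ∈ range n, h i n = 1 ∧ ∑ i ∈ range n, h i 0 = 0 ∧ ∑ j ∈ range n, v 0 j = 0 ∧
        ∑ j ∈ range n, v n j = 0) ∨
      (∑ i ∈ range n, h i n = 0 ∧ ∑ i ∈ range n, h i 0 = 1 ∧ ∑ j ∈ range n, v 0 j = 0 ∧
        ∑ j ∈ range n, v n j = 0) ∨
      (∑ i ∈ range n, h i n = 0 ∧ ∑ i ∈ range n, h i 0 = 0 ∧ ∑ j ∈ range n, v 0 j = 1 ∧
        ∑ j ∈ range n, v n j = 0) ∨
      (∑ i ∈ range n, h i n = 0 ∧ ∑ i ∈ range n, h i 0 = 0 ∧ ∑ j ∈ range n, v 0 j = 0 ∧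
        ∑ j ∈ range n, v n j = 1) by omega) with
    ⟨b1, b2, b3, b4⟩ | ⟨b1, b2, b3, b4⟩ | ⟨b1, b2, b3, b4⟩ | ⟨b1, b2, b3, b4⟩
  · refine no_part hn (h := h) (v := v) ⟨hc, h2, zero_of _ b3, zero_of _ b4, zero_of _ b2, ?_⟩
    intro i i' hi hi' hne
    have := le_sum2 (fun i => h i n) i i' hi hi' hne
    omega
  · refine no_part hn (h := fun i j => h i (n - j)) (v := fun i j => v i (n - 1 - j))
      ⟨?_, ?_, ?_, ?_, ?_, ?_⟩
    · intro i j hi hj
      have := hc i (n - 1 - j) hi (by omega)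
      rw [show n - 1 - j + 1 = n - j by omega] at this
      rw [show n - (j + 1) = n - 1 - j by omega]
      omega
    · intro i j hi hj
      have := h2 i (n - 2 - j) hi (by omega)
      rw [show n - 2 - j + 2 = n - j by omega, show n - 2 - j + 1 = n - 1 - j by omega] at this
      rw [show n - (j + 2) = n - 2 - j by omega, show n - 1 - (j + 1) = n - 2 - j by omega]
      omega
    · intro j hj
      exact zero_of _ b3 _ (by omega)
    · intro j hj
      exact zero_of _ b4 _ (by omega)
    · intro i hi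
      simpa using zero_of _ b1 i hi
    · intro i i' hi hi' hne
      have := le_sum2 (fun i => h i 0) i i' hi hi' hne
      simp only [Nat.sub_self]
      omega
  · refine no_part hn (h := fun i j => v (n - j) i) (v := fun i j => h (n - 1 - j) i)
      ⟨?_, ?_, ?_, ?_, ?_, ?_⟩
    · intro i j hi hj
      have := hc (n - 1 - j) i (by omega) hi
      rw [show n - 1 - j + 1 = n - j by omega] at this
      rw [show n - (j + 1) = n - 1 - j by omega]
      omega
    · intro i j hi hj
      have := h2 (n - 2 - j) i (by omega) hi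
      rw [show n - 2 - j + 2 = n - j by omega, show n - 2 - j + 1 = n - 1 - j by omega] at this
      rw [show n - (j + 2) = n - 2 - j by omega, show n - 1 - (j + 1) = n - 2 - j by omega]
      omega
    · intro j hj
      exact zero_of _ b2 _ (by omega)
    · intro j hj
      exact zero_of _ b1 _ (by omega)
    · intro i hi
      simpa using zero_of _ b4 i hi
    · intro i i' hi hi' hne
      have := le_sum2 (fun i => v 0 i) i i' hi hi' hne
      simp only [Nat.sub_self]
      omega
  · refine no_part hn (h := fun i j => v j i) (v := fun i j => h j i)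
      ⟨?_, ?_, ?_, ?_, ?_, ?_⟩
    · intro i j hi hj
      have := hc j i hj hi
      omega
    · intro i j hi hj
      have := h2 j i hj hi
      omega
    · intro j hj
      exact zero_of _ b2 _ (by omega)
    · intro j hj
      exact zero_of _ b1 _ (by omega)
    · intro i hi
      simpa using zero_of _ b3 i hi
    · intro i i' hi hi' hne
      have := le_sum2 (fun i => v n i) i i' hi hi' hne
      omega

end Pool.Agent.N432.SqGrid
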