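import Mathlib
import Pool.Agent.N432.SqLower

/-!
The spiral pattern: a set of unit segments of the plane lattice hitting every square.
-/

set_option autoImplicit false

namespace Pool.Agent.N432.SqGrid

open Finset

/-- the vertical segment from `(a, y)` to `(a, y+1)` is removed -/
def VP (a y : ℤ) : Prop :=
  ((a + y) % 2 = 0 ∧ -y ≤ a ∧ a ≤ y + 2) ∨ ((a + y) % 2 = 1 ∧ y + 1 ≤ a ∧ a ≤ -1 - y)

/-- the horizontal segment from `(x, c)` to `(x+1, c)` is removed -/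
def HP (x c : ℤ) : Prop :=
  ((x + c) % 2 = 1 ∧ 1 - x ≤ c ∧ c ≤ x - 3) ∨ ((x + c) % 2 = 0 ∧ x + 2 ≤ c ∧ c ≤ -x - 2)

instance (a y : ℤ) : Decidable (VP a y) := by unfold VP; infer_instance
instance (a y : ℤ) : Decidable (HP a y) := by unfold HP; infer_instance

theorem hit_one (a b : ℤ) : HP a b ∨ HP a (b + 1) ∨ VP a b ∨ VP (a + 1) b := by
  unfold HP VP
  omega

theorem vert_top {a y : ℤ} (h1 : ¬ VP a y) (h2 : ¬ VP a (y + 1)) : a + y < 0 ∨ y + 2 < a := by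
  unfold VP at h1 h2
  omega

theorem vert_top' {a y : ℤ} (h1 : ¬ VP a y) : a + y < 0 ∨ y + 2 < a ∨ (a + y) % 2 = 1 := by
  unfold VP at h1
  omega

theorem vert_bot {a y : ℤ} (h1 : ¬ VP a y) (h2 : ¬ VP a (y + 1)) : a ≤ y + 1 ∨ -1 ≤ a + y := by
  unfold VP at h1 h2
  omega

theorem vert_bot' {a y : ℤ} (h1 : ¬ VP a y) : a ≤ y ∨ 0 ≤ a + y ∨ (a + y) % 2 = 0 := by
  unfold VP at h1
  omega

theorem hor_right {x c : ℤ} (h1 : ¬ HP x c) (h2 : ¬ HP (x + 1) c) : x + c < 1 ∨ x - 3 < c := by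
  unfold HP at h1 h2
  omega

theorem hor_right' {x c : ℤ} (h1 : ¬ HP x c) : x + c < 1 ∨ x - 3 < c ∨ (x + c) % 2 = 0 := by
  unfold HP at h1
  omega

theorem hor_left {x c : ℤ} (h1 : ¬ HP x c) (h2 : ¬ HP (x + 1) c) : c ≤ x + 2 ∨ -2 ≤ x + c := by
  unfold HP at h1 h2
  omega

theorem hor_left' {x c : ℤ} (h1 : ¬ HP x c) : c ≤ x + 1 ∨ -1 ≤ x + c ∨ (x + c) % 2 = 1 := by
  unfold HP at h1
  omega

theorem arith (s d k : ℤ) (hk : 2 ≤ k) (hpar : (s + d) % 2 = 0)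
    (F1 : s + k ≤ 1 ∨ d + k + 1 ≤ 0)
    (F1p : s + k ≤ 0 ∨ d + k + 2 ≤ 0 ∨ (s + k) % 2 = 0)
    (F1b : -1 ≤ d ∨ -1 ≤ s)
    (F1bp : 0 ≤ d ∨ 0 ≤ s ∨ s % 2 = 0)
    (F2 : s + 2 * k ≤ 1 ∨ d ≤ -1)
    (F2p : s + 2 * k ≤ 0 ∨ d ≤ -2 ∨ s % 2 = 0)
    (F2b : k - 1 ≤ d ∨ -1 ≤ s + k)
    (F2bp : k ≤ d ∨ 0 ≤ s + k ∨ (s + k) % 2 = 0)
    (F3 : s + k ≤ 2 ∨ k - 4 ≤ d)
    (F3p : s + k ≤ 1 ∨ k - 3 ≤ d ∨ (s + k) % 2 = 1)
    (F3b : d ≤ 2 ∨ -2 ≤ s)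
    (F3bp : d ≤ 1 ∨ -1 ≤ s ∨ s % 2 = 1)
    (F4 : s + 2 * k ≤ 2 ∨ -4 ≤ d)
    (F4p : s + 2 * k ≤ 1 ∨ -3 ≤ d ∨ s % 2 = 1)
    (F4b : d + k ≤ 2 ∨ -2 ≤ s + k)
    (F4bp : d + k ≤ 1 ∨ -1 ≤ s + k ∨ (s + k) % 2 = 1) : False := by
  rcases F1 with F1 | F1
  · rcases F2 with F2 | F2
    · have h1 : -1 ≤ d := by clear F1p F1bp F2p F2b F2bp F3 F3p F3b F3bp F4 F4p F4b F4bp hpar; omega
      have h2 : d ≤ 2 := by clear F1p F1bp F2p F2b F2bp F3 F3p F3bp F4 F4p F4b F4bp hpar; omega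
      have h3 : k ≤ 3 := by clear F1p F1bp F2p F2bp F3 F3p F3bp F4 F4p F4bp hpar; omega
      have h4 : -5 ≤ s := by clear F1p F1bp F2p F2bp F3 F3p F3bp F4 F4p F4bp hpar; omega
      have h5 : s ≤ -3 := by omega
      clear F1 F2 F1b F3b F4 F3
      interval_cases k <;> interval_cases d <;> interval_cases s <;> omega
    · rcases F1b with F1b | F1b
      · obtain rfl : d = -1 := by omega
        have h1 : -1 ≤ s + k := by omega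
        have h2 : s + k = -1 ∨ s + k = 0 ∨ s + k = 1 := by omega
        clear F3 F3b F4 F4p F4b F4bp F3bp F3p
        rcases h2 with h2 | h2 | h2
        · omega
        · omega
        · omega
      · obtain rfl : k = 2 := by omega
        obtain rfl : s = -1 := by omega
        omega
  · rcases F4 with F4 | F4
    · omega
    · have h1 : -1 ≤ s := by clear F1p F1bp F2p F2b F2bp F3 F3p F3b F3bp F4p F4b F4bp hpar F2; omega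
      have h2 : k ≤ 3 := by omega
      have h3 : s + k ≤ 2 := by clear F1p F1bp F2p F2b F2bp F3p F3b F3bp F4p F4b F4bp hpar F2; omega
      have h4 : d ≤ -3 := by omega
      have h5 : s ≤ 0 := by omega
      interval_cases k <;> interval_cases d <;> interval_cases s <;> omega

theorem hit_two (a b k : ℤ) (hk : 2 ≤ k) :
    HP a b ∨ HP (a + 1) b ∨ HP (a + k - 2) b ∨ HP (a + k - 1) b ∨
    HP a (b + k) ∨ HP (a + 1) (b + k) ∨ HP (a + k - 2) (b + k) ∨ HP (a + k - 1) (b + k) ∨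
    VP a b ∨ VP a (b + 1) ∨ VP a (b + k - 2) ∨ VP a (b + k - 1) ∨
    VP (a + k) b ∨ VP (a + k) (b + 1) ∨ VP (a + k) (b + k - 2) ∨ VP (a + k) (b + k - 1) := by
  by_contra hcon
  simp only [not_or] at hcon
  obtain ⟨h1, h2, h3, h4, h5, h6, h7, h8, h9, h10, h11, h12, h13, h14, h15, h16⟩ := hcon
  have e1 : a + k - 1 = a + k - 2 + 1 := by ring
  have e2 : b + k - 1 = b + k - 2 + 1 := by ring
  have a1 := vert_top h11 (by rw [← e2]; exact h12)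
  have a2 := vert_top' h12
  have a3 := vert_bot h9 h10
  have a4 := vert_bot' h9
  have b1 := vert_top h15 (by rw [← e2]; exact h16)
  have b2 := vert_top' h16
  have b3 := vert_bot h13 h14
  have b4 := vert_bot' h13
  have c1 := hor_right h3 (by rw [← e1]; exact h4)
  have c2 := hor_right' h4
  have c3 := hor_left h1 h2
  have c4 := hor_left' h1
  have d1 := hor_right h7 (by rw [← e1]; exact h8)
  have d2 := hor_right' h8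
  have d3 := hor_left h5 h6
  have d4 := hor_left' h5
  clear h1 h2 h3 h4 h5 h6 h7 h8 h9 h10 h11 h12 h13 h14 h15 h16 e1 e2
  refine arith (a + b) (b - a) k hk ?_ ?_ ?_ ?_ ?_ ?_ ?_ ?_ ?_ ?_ ?_ ?_ ?_ ?_ ?_ ?_ ?_
  · omega
  · clear a2 a3 a4 b1 b2 b3 b4 c1 c2 c3 c4 d1 d2 d3 d4; omega
  · clear a1 a3 a4 b1 b2 b3 b4 c1 c2 c3 c4 d1 d2 d3 d4; omega
  · clear a1 a2 a4 b1 b2 b3 b4 c1 c2 c3 c4 d1 d2 d3 d4; omega
  · clear a1 a2 a3 b1 b2 b3 b4 c1 c2 c3 c4 d1 d2 d3 d4; omega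
  · clear a1 a2 a3 a4 b2 b3 b4 c1 c2 c3 c4 d1 d2 d3 d4; omega
  · clear a1 a2 a3 a4 b1 b3 b4 c1 c2 c3 c4 d1 d2 d3 d4; omega
  · clear a1 a2 a3 a4 b1 b2 b4 c1 c2 c3 c4 d1 d2 d3 d4; omega
  · clear a1 a2 a3 a4 b1 b2 b3 c1 c2 c3 c4 d1 d2 d3 d4; omega
  · clear a1 a2 a3 a4 b1 b2 b3 b4 c2 c3 c4 d1 d2 d3 d4; omega
  · clear a1 a2 a3 a4 b1 b2 b3 b4 c1 c3 c4 d1 d2 d3 d4; omega
  · clear a1 a2 a3 a4 b1 b2 b3 b4 c1 c2 c4 d1 d2 d3 d4; omega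
  · clear a1 a2 a3 a4 b1 b2 b3 b4 c1 c2 c3 d1 d2 d3 d4; omega
  · clear a1 a2 a3 a4 b1 b2 b3 b4 c1 c2 c3 c4 d2 d3 d4; omega
  · clear a1 a2 a3 a4 b1 b2 b3 b4 c1 c2 c3 c4 d1 d3 d4; omega
  · clear a1 a2 a3 a4 b1 b2 b3 b4 c1 c2 c3 c4 d1 d2 d4; omega
  · clear a1 a2 a3 a4 b1 b2 b3 b4 c1 c2 c3 c4 d1 d2 d3; omega

end Pool.Agent.N432.SqGrid
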